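import Pool.Agent.H78.RD.Lbl

/-!
# Project RC2: the cube complex

The same proofs as in `Pool/Agent/H78/RC/Blow.lean`, with `IsLabG` instead of `IsLab`, `isLabG_unique` instead
of `isLab_unique`, `adj_iffG` instead of `adj_iff`.

* `nbFG_eq`: `isLabG_unique`.
* `IsLabG.opp`: `K ⊆ J`, `σ` from `exists_opp`; `G (σ K)` by `inv` with `w = w_J` (`w_J⁻¹ = w_J` by `lw_mul_self`).
* `IsLabG.up`: `J ⊆ K`. `IsLabG.sep`: `Sep M J K`.
* `blowupG`: as `blowup`.
-/

set_option autoImplicit false

open Finset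

namespace Pool.Agent.H78.RD

open Pool.Agent.H4.FC Pool.Agent.H19.Cub Pool.Agent.H78.RC

variable {S : Type} [Fintype S] [DecidableEq S] {Q : Type} [Group Q] [Fintype Q]
  {M : CoxeterMatrix S} {π : M.Group →* Q} {G : Finset S → Prop}

theorem nbFG_eq (h : IsBlow M π G) {x : Q} {L : Finset Q} {J : Finset S}
    (hJ : IsLabG M π G x L J) : nbFG M π G L x = x * π (lw M J) := by
  have h1 : ∃ J, IsLabG M π G x L J := ⟨J, hJ⟩
  unfold nbFG
  rw [dif_pos h1, isLabG_unique h h1.choose_spec hJ]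

theorem IsLabG.opp (h : IsBlow M π G) {x : Q} {L L' : Finset Q} {J K : Finset S}
    (hJ : IsLabG M π G x L J) (hK : IsLabG M π G x L' K) (hKJ : K ⊆ J) :
    ∃ K', IsLabG M π G (x * π (lw M J)) L' K' ∧ lw M K' = lw M J * lw M K * lw M J := by
  have hJu : J ≠ univ := h.bld.proper J hJ.1
  obtain ⟨σ, -, hσ⟩ := exists_opp M (h.quot.fin J hJu)
  obtain ⟨h1, -, h3, h4⟩ := hσ K hKJ
  have h5 : ∀ t, IsRf M (σ K) t ↔ IsRf M K (lw M J * t * (lw M J)⁻¹) := by
    intro t
    rw [blow_inv h.quot hJu]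
    exact h3 t
  refine ⟨σ K, ⟨h.bld.inv K (σ K) (lw M J) hK.1 ?_ h5, (blow_lbl (K := K) h5).trans hK.2⟩, h4⟩
  intro h6
  rw [h6] at h1
  exact hJu (univ_subset_iff.mp h1)

theorem IsLabG.self (h : IsBlow M π G) {x : Q} {L : Finset Q} {J : Finset S}
    (hJ : IsLabG M π G x L J) : IsLabG M π G (x * π (lw M J)) L J := by
  have hJu : J ≠ univ := h.bld.proper J hJ.1
  obtain ⟨σ, h0, hσ⟩ := exists_opp M (h.quot.fin J hJu)
  obtain ⟨-, -, h3, -⟩ := hσ J subset_rfl
  rw [h0] at h3
  refine ⟨hJ.1, (blow_lbl (K := J) fun t => ?_).trans hJ.2⟩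
  rw [blow_inv h.quot hJu]
  exact h3 t

theorem IsLabG.up (h : IsBlow M π G) {x : Q} {L L' : Finset Q} {J K : Finset S}
    (hJ : IsLabG M π G x L J) (hK : IsLabG M π G x L' K) (hJK : J ⊆ K) :
    IsLabG M π G (x * π (lw M J)) L' K := by
  have hw : lw M J ∈ par M K :=
    par_mono M hJK (lw_spec M (h.quot.fin J (h.bld.proper J hJ.1))).1
  refine ⟨hK.1, (blow_lbl (K := K) fun t => ⟨fun ht => ht.conj hw, fun ht => ?_⟩).trans hK.2⟩
  have h1 := ht.conj (inv_mem hw)
  have h2 : (lw M J)⁻¹ * (lw M J * t * (lw M J)⁻¹) * (lw M J)⁻¹⁻¹ = t := by group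
  rwa [h2] at h1

theorem IsLabG.sep (h : IsBlow M π G) {x : Q} {L L' : Finset Q} {J K : Finset S}
    (hJ : IsLabG M π G x L J) (hK : IsLabG M π G x L' K) (hs : Sep M J K) :
    IsLabG M π G (x * π (lw M J)) L' K := by
  have hw : lw M J ∈ par M J := (lw_spec M (h.quot.fin J (h.bld.proper J hJ.1))).1
  refine ⟨hK.1, (blow_lbl (K := K) fun t => ⟨fun ht => ?_, fun ht => ?_⟩).trans hK.2⟩
  · rw [sep_comm M hs hw (blow_mem ht), mul_inv_cancel_right]
    exact ht
  · have h2 := sep_comm M hs hw (blow_mem ht)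
    have h3 : lw M J * t * (lw M J)⁻¹ = t := by
      have h4 : lw M J * (lw M J * t * (lw M J)⁻¹) = lw M J * t := by
        rw [h2]
        group
      exact mul_left_cancel h4
    rwa [h3] at ht

/-- the square of nested faces -/
private theorem blowB_nest (h : IsBlow M π G) {x : Q} {L L' : Finset Q} {J K : Finset S}
    (hJ : IsLabG M π G x L J) (hK : IsLabG M π G x L' K) (hJK : J ⊆ K) :
    nbFG M π G L (nbFG M π G L' x) = nbFG M π G L' (nbFG M π G L x) := by
  obtain ⟨K', h1, h2⟩ := hK.opp h hJ hJK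
  have h3 : lw M K * (lw M K * lw M J * lw M K) = lw M J * lw M K := by
    rw [mul_assoc (lw M K) (lw M J) (lw M K), ← mul_assoc (lw M K) (lw M K),
      lw_mul_self M (h.quot.fin K (h.bld.proper K hK.1)), one_mul]
  rw [nbFG_eq h hK, nbFG_eq h h1, nbFG_eq h hJ, nbFG_eq h (hJ.up h hK hJK), h2,
    mul_assoc x (π (lw M K)), mul_assoc x (π (lw M J)), ← map_mul, h3, ← map_mul]

/-- the square of orthogonal faces -/
private theorem blowB_orth (h : IsBlow M π G) {x : Q} {L L' : Finset Q} {J K : Finset S}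
    (hJ : IsLabG M π G x L J) (hK : IsLabG M π G x L' K) (hs : Sep M J K) :
    nbFG M π G L (nbFG M π G L' x) = nbFG M π G L' (nbFG M π G L x) := by
  rw [nbFG_eq h hK, nbFG_eq h (hK.sep h hJ (blow_sepsymm hs)), nbFG_eq h hJ,
    nbFG_eq h (hJ.sep h hK hs), mul_assoc x (π (lw M K)), mul_assoc x (π (lw M J)), ← map_mul,
    ← map_mul,
    sep_comm M hs (lw_spec M (h.quot.fin J (h.bld.proper J hJ.1))).1
      (lw_spec M (h.quot.fin K (h.bld.proper K hK.1))).1]

/-- **The blow-up for a building set.** `M` is the Coxeter matrix of an irreducible finite or affine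
reflection group `W`, `π : W → Q` the identity (`W` finite, `|S| = n + 1`) or the reduction modulo a lattice of
translations (`W` affine), `G` the set of the faces of the chamber which are blown up. The cube complex is dual
to the tiling of the blow-up of the sphere `S^n` resp. of the torus `ℝ^n / ker π` along the flats of the
reflection arrangement in the building set (De Concini-Procesi, Davis-Januszkiewicz-Scott) by the blow-ups of
the chambers. The vertices are the chambers `x ∈ Q`, the labels at `x` are the faces `J` with `G J`, and the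
chamber on the other side of the facet `J` is `x w_J` with the longest element `w_J` of `W_J`. The label is
given as the set of the reflections which fix the face. -/
noncomputable def blowupG [DecidableEq Q] (M : CoxeterMatrix S) (π : M.Group →* Q)
    (G : Finset S → Prop) (h : IsBlow M π G) : CubeComplex (Finset Q) Q where
  graph := labGG M π G
  lab := labFG M π G
  nb := nbFG M π G
  lab_nb v x hv := by
    obtain ⟨J, hJ⟩ := mem_labFG.1 hv
    rw [nbFG_eq h hJ]
    exact mem_labFG.2 ⟨J, hJ.self h⟩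
  nb_nb v x hv := by
    obtain ⟨J, hJ⟩ := mem_labFG.1 hv
    rw [nbFG_eq h hJ, nbFG_eq h (hJ.self h), mul_assoc, ← map_mul,
      lw_mul_self M (h.quot.fin J (h.bld.proper J hJ.1)), map_one, mul_one]
  lab_adj u v x huv hu hv := by
    obtain ⟨J, hJ⟩ := mem_labFG.1 hu
    obtain ⟨K, hK⟩ := mem_labFG.1 hv
    rw [nbFG_eq h hK]
    rcases ((adj_iffG h hJ hK).1 huv).2 with h1 | h1 | h1
    · obtain ⟨K', h2, -⟩ := hK.opp h hJ h1
      exact mem_labFG.2 ⟨K', h2⟩
    · exact mem_labFG.2 ⟨J, hK.up h hJ h1⟩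
    · exact mem_labFG.2 ⟨J, hK.sep h hJ (blow_sepsymm h1.1)⟩
  nb_comm u v x huv hu hv := by
    obtain ⟨J, hJ⟩ := mem_labFG.1 hu
    obtain ⟨K, hK⟩ := mem_labFG.1 hv
    rcases ((adj_iffG h hJ hK).1 huv).2 with h1 | h1 | h1
    · exact blowB_nest h hJ hK h1
    · exact (blowB_nest h hK hJ h1).symm
    · exact blowB_orth h hJ hK h1.1

end Pool.Agent.H78.RD
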