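import Pool.Agent.H78.RC.Blow

/-!
# Project RC2: blow-ups for flag building sets, definitions
-/

set_option autoImplicit false

open Finset

namespace Pool.Agent.H78.RD

open Pool.Agent.H4.FC Pool.Agent.H19.Cub Pool.Agent.H78.RC

section

variable {S : Type} [Fintype S] [DecidableEq S]

/-- `G` is a flag building set of faces of the chamber which is invariant under the Coxeter group: it contains
the irreducible proper faces, the union of two members which are not orthogonal, all members are irreducible or
the union of two disjoint members, and with `J` it contains all `K` for which `W_K` is conjugate to `W_J`. -/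
structure IsBld (M : CoxeterMatrix S) (G : Finset S → Prop) : Prop where
  proper : ∀ J, G J → J ≠ univ
  ne : ∀ J, G J → J.Nonempty
  con : ∀ J, J ≠ univ → Con (diag M) J → G J
  join : ∀ J K, G J → G K → ¬ Sep M J K → J ∪ K ≠ univ → G (J ∪ K)
  flag : ∀ J, G J → ¬ Con (diag M) J → ∃ J1 J2, G J1 ∧ G J2 ∧ Disjoint J1 J2 ∧ J1 ∪ J2 = J
  inv : ∀ J K w, G J → K ≠ univ → (∀ t, IsRf M K t ↔ IsRf M J (w * t * w⁻¹)) → G K

variable {Q : Type} [Group Q]

/-- The data of a blow-up: `π` is the identity (`W` finite) or the reduction modulo a lattice of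
translations (`W` affine), `G` is a flag invariant building set, arbitrary if `W` is finite, and the minimal or
the maximal one if `W` is affine. -/
structure IsBlow (M : CoxeterMatrix S) (π : M.Group →* Q) (G : Finset S → Prop) : Prop where
  quot : IsQuot M π
  bld : IsBld M G
  fin : Function.Injective π ∨ (∀ J, G J → Con (diag M) J) ∨
    (∀ J : Finset S, J.Nonempty → J ≠ univ → G J)

variable [Fintype Q]

/-- `L` is the label of the face `J` of the chamber `x`, which is blown up -/
def IsLabG (M : CoxeterMatrix S) (π : M.Group →* Q) (G : Finset S → Prop) (x : Q) (L : Finset Q)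
    (J : Finset S) : Prop := G J ∧ lbl M π x J = L

/-- labels are adjacent if they are nested, or orthogonal faces of a chamber whose join is not blown up -/
def labGG (M : CoxeterMatrix S) (π : M.Group →* Q) (G : Finset S → Prop) :
    SimpleGraph (Finset Q) where
  Adj L L' := L ≠ L' ∧ (L ⊆ L' ∨ L' ⊆ L ∨
    ∃ x J K, IsLabG M π G x L J ∧ IsLabG M π G x L' K ∧ Sep M J K ∧ ¬ G (J ∪ K))
  symm := ⟨fun L L' h => ⟨h.1.symm, by
    rcases h.2 with h1 | h1 | ⟨x, J, K, h1, h2, h3, h4⟩
    · exact Or.inr (Or.inl h1)
    · exact Or.inl h1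
    · exact Or.inr (Or.inr ⟨x, K, J, h2, h1, fun k hk j hj => by
        rw [M.symmetric k j]
        exact h3 j hj k hk, by rw [union_comm]; exact h4⟩)⟩⟩
  loopless := ⟨fun _ h => h.1 rfl⟩

open Classical in
/-- the labels of the edges at the chamber `x` -/
noncomputable def labFG (M : CoxeterMatrix S) (π : M.Group →* Q) (G : Finset S → Prop) (x : Q) :
    Finset (Finset Q) :=
  univ.filter fun L => ∃ J, IsLabG M π G x L J

open Classical in
/-- the other end of the edge: the chamber `x w_J` -/
noncomputable def nbFG (M : CoxeterMatrix S) (π : M.Group →* Q) (G : Finset S → Prop)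
    (L : Finset Q) (x : Q) : Q :=
  if h : ∃ J, IsLabG M π G x L J then x * π (lw M h.choose) else x

omit [DecidableEq S] in
theorem mem_labFG {M : CoxeterMatrix S} {π : M.Group →* Q} {G : Finset S → Prop} {x : Q}
    {L : Finset Q} : L ∈ labFG M π G x ↔ ∃ J, IsLabG M π G x L J := by
  classical
  unfold labFG
  rw [mem_filter]
  exact ⟨fun h => h.2, fun h => ⟨mem_univ _, h⟩⟩

/-! ### The correction terms -/

/-- pairs of labels of faces of rank at most `k` of a chamber whose join is blown up -/
def ck (M : CoxeterMatrix S) (π : M.Group →* Q) (G : Finset S → Prop) (k : ℕ)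
    (p : Finset Q × Finset Q) : Prop :=
  ∃ y A B, A.card ≤ k ∧ B.card ≤ k ∧ IsLabG M π G y p.1 A ∧ IsLabG M π G y p.2 B ∧ G (A ∪ B)

open Classical in
/-- the correction terms -/
noncomputable def tk (M : CoxeterMatrix S) (π : M.Group →* Q) (G : Finset S → Prop) (k : ℕ)
    (L L' : Finset Q) : ℝ :=
  -((univ.filter fun p : Finset Q × Finset Q => ck M π G k p ∧ p.1 ⊆ L ∧ ¬ p.1 ⊆ L' ∧
    p.2 ⊆ L' ∧ ¬ p.2 ⊆ L).card : ℝ)

open Classical in
/-- the sum over the labels which contain `U` -/
noncomputable def yk (g : Finset Q → ℝ) (U : Finset Q) : ℝ :=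
  ∑ L ∈ univ.filter fun L => U ⊆ L, g L

end

end Pool.Agent.H78.RD
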