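import Pool.Agent.H78.RD.ParB

/-!
# Project RC2: the minimal and the maximal blow-up
-/

set_option autoImplicit false

open Finset

namespace Pool.Agent.H78.RD

open Pool.Agent.H4.FC Pool.Agent.H78.RC

variable {S : Type} [Fintype S] [DecidableEq S] {Q : Type} [Group Q] {M : CoxeterMatrix S}
  {π : M.Group →* Q}

/-- the minimal blow-up -/
theorem isBlow_min (h : IsQuot M π) : IsBlow M π (fun J => J ≠ univ ∧ Con (diag M) J) :=
  ⟨h, isBld_min M h.fin, Or.inr (Or.inl fun _ hJ => hJ.2)⟩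

/-- the maximal blow-up -/
theorem isBlow_max (h : IsQuot M π) : IsBlow M π (fun J => J.Nonempty ∧ J ≠ univ) :=
  ⟨h, isBld_max M, Or.inr (Or.inr fun _ h1 h2 => ⟨h1, h2⟩)⟩

end Pool.Agent.H78.RD
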