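import Pool.Agent.H78.RC.Nest

/-!
# Project RC2: nested sets of flag building sets

`FB.inPart`: if pairwise unions of the members of a family of sets in the building set are not in the building
set, then every set of the building set which is covered by the family is contained in one member.

`step2`: if `B0 ⊆ B` are flag building sets such that all sets in `B`, not in `B0` are unions of two disjoint sets
in `B0`, then the nested set complex of `B` is obtained from the one of `B0` by edge subdivisions: the new sets
are added in the order of decreasing size.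

`grow`: between two flag building sets there is a chain of flag building sets of this kind (Volodin).
-/

set_option autoImplicit false

open Finset

namespace Pool.Agent.H78.RD

open Pool.Agent.H85.Fold Pool.Agent.H85.Fold3 Pool.Agent.H19.Cub Pool.Agent.H78.RC

variable {S : Type} [DecidableEq S]

/-- flag building sets on `U` -/
structure FB (B : Finset S → Prop) (U : Finset S) : Prop where
  ne : ∀ J, B J → J.Nonempty
  sub : ∀ J, B J → J ⊆ U
  single : ∀ s ∈ U, B {s}
  top : B U
  join : ∀ J K, B J → B K → (J ∩ K).Nonempty → B (J ∪ K)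
  flag : ∀ J, B J → 2 ≤ J.card → ∃ J1 J2, B J1 ∧ B J2 ∧ Disjoint J1 J2 ∧ J1 ∪ J2 = J

theorem FB.inPart {B : Finset S → Prop} {U : Finset S} (h : FB B U) (R : Finset (Finset S))
    (hR : ∀ P ∈ R, B P) (hno : ∀ P ∈ R, ∀ P' ∈ R, P ≠ P' → ¬ B (P ∪ P')) {J : Finset S}
    (hJ : B J) (hsub : ∀ x ∈ J, ∃ P ∈ R, x ∈ P) : ∃ P ∈ R, J ⊆ P := by
  obtain ⟨m, hm⟩ : ∃ m, m = J.card := ⟨_, rfl⟩
  induction m using Nat.strong_induction_on generalizing J with
  | _ m ih =>
  obtain ⟨x, hx⟩ := h.ne J hJ
  have hpos : 0 < J.card := card_pos.2 ⟨x, hx⟩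
  by_cases h1 : J.card = 1
  · obtain ⟨y, rfl⟩ := card_eq_one.1 h1
    obtain ⟨P, hP, hyP⟩ := hsub y (mem_singleton_self y)
    exact ⟨P, hP, singleton_subset_iff.2 hyP⟩
  · obtain ⟨J1, J2, hJ1, hJ2, hd, hJJ⟩ := h.flag J hJ (by omega)
    have hs1 : J1 ⊆ J := hJJ ▸ subset_union_left
    have hs2 : J2 ⊆ J := hJJ ▸ subset_union_right
    have hc : J1.card + J2.card = J.card := by rw [← card_union_of_disjoint hd, hJJ]
    have hp1 : 0 < J1.card := card_pos.2 (h.ne _ hJ1)
    have hp2 : 0 < J2.card := card_pos.2 (h.ne _ hJ2)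
    obtain ⟨P1, hP1, h2⟩ := ih J1.card (by omega) hJ1 (fun z hz => hsub z (hs1 hz)) rfl
    obtain ⟨P2, hP2, h3⟩ := ih J2.card (by omega) hJ2 (fun z hz => hsub z (hs2 hz)) rfl
    by_cases h4 : P1 = P2
    · exact ⟨P1, hP1, hJJ ▸ union_subset h2 (h4 ▸ h3)⟩
    · exfalso
      obtain ⟨y, hy⟩ := h.ne _ hJ1
      obtain ⟨z, hz⟩ := h.ne _ hJ2
      have h5 : B (P1 ∪ J) := h.join _ _ (hR _ hP1) hJ ⟨y, mem_inter.2 ⟨h2 hy, hs1 hy⟩⟩
      have h6 : B (P2 ∪ (P1 ∪ J)) := h.join _ _ (hR _ hP2) h5
        ⟨z, mem_inter.2 ⟨h3 hz, mem_union_right _ (hs2 hz)⟩⟩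
      have h7 : P2 ∪ (P1 ∪ J) = P1 ∪ P2 := by
        rw [← hJJ]
        ext w
        simp only [mem_union]
        constructor
        · rintro (h8 | h8 | h8 | h8)
          · exact Or.inr h8
          · exact Or.inl h8
          · exact Or.inl (h2 h8)
          · exact Or.inr (h3 h8)
        · rintro (h8 | h8)
          · exact Or.inr (Or.inl h8)
          · exact Or.inl h8
      exact hno P1 hP1 P2 hP2 h4 (h7 ▸ h6)

/-- a set of `B` is not the union of three parts without unions in `B0` -/
theorem FB.not_three {B0 B : Finset S → Prop} {U : Finset S} (h0 : FB B0 U)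
    (hsplit : ∀ K, B K → ¬ B0 K → ∃ K1 K2, B0 K1 ∧ B0 K2 ∧ Disjoint K1 K2 ∧ K1 ∪ K2 = K)
    (R : Finset (Finset S)) (hR : ∀ P ∈ R, B0 P)
    (hno : ∀ P ∈ R, ∀ P' ∈ R, P ≠ P' → ¬ B0 (P ∪ P'))
    (hd : ∀ P ∈ R, ∀ P' ∈ R, P ≠ P' → Disjoint P P') (h3 : 3 ≤ R.card) {L : Finset S}
    (hL : B L) (hcov : ∀ P ∈ R, P ⊆ L) (hsub : ∀ x ∈ L, ∃ P ∈ R, x ∈ P) : False := by
  obtain ⟨P, hP, P', hP', h1⟩ : ∃ P ∈ R, ∃ P' ∈ R, L ⊆ P ∪ P' := by
    by_cases hL0 : B0 L
    · obtain ⟨P, hP, h1⟩ := h0.inPart R hR hno hL0 hsub
      exact ⟨P, hP, P, hP, h1.trans subset_union_left⟩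
    · obtain ⟨L1, L2, hL1, hL2, -, hLL⟩ := hsplit L hL hL0
      obtain ⟨P, hP, h1⟩ := h0.inPart R hR hno hL1
        (fun x hx => hsub x (hLL ▸ mem_union_left _ hx))
      obtain ⟨P', hP', h2⟩ := h0.inPart R hR hno hL2
        (fun x hx => hsub x (hLL ▸ mem_union_right _ hx))
      exact ⟨P, hP, P', hP', hLL ▸ union_subset_union h1 h2⟩
  have hc : ({P, P'} : Finset (Finset S)).card < R.card :=
    lt_of_le_of_lt (card_le_two) (by omega)
  obtain ⟨P3, hP3, h4⟩ := exists_mem_notMem_of_card_lt_card hc
  rw [mem_insert, mem_singleton] at h4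
  push Not at h4
  obtain ⟨x, hx⟩ := h0.ne _ (hR _ hP3)
  rcases mem_union.1 (h1 (hcov _ hP3 hx)) with h5 | h5
  · exact Finset.disjoint_left.1 (hd _ hP3 _ hP h4.1) hx h5
  · exact Finset.disjoint_left.1 (hd _ hP3 _ hP' h4.2) hx h5

/-- **One subdivision.** -/
theorem step2 {B0 B : Finset S → Prop} {U : Finset S} (h0 : FB B0 U) (h : FB B U)
    (hle : ∀ J, B0 J → B J)
    (hsplit : ∀ K, B K → ¬ B0 K → ∃ K1 K2, B0 K1 ∧ B0 K2 ∧ Disjoint K1 K2 ∧ K1 ∪ K2 = K)
    {N : Finset (Finset S)} {K : Finset S}
    (hN : ∀ J ∈ N, B J ∧ ¬ B0 J ∧ K.card ≤ J.card)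
    (hmax : ∀ J, B J → ¬ B0 J → J ∉ N → J.card ≤ K.card)
    (hK : B K) (hK0 : ¬ B0 K) (hKN : K ∉ N) {n : ℕ}
    (hs : SphOn (fun J => B0 J ∨ J ∈ N) (fun J => B0 J ∨ J ∈ N) U n) :
    SphOn (fun J => B0 J ∨ J ∈ insert K N) (fun J => B0 J ∨ J ∈ insert K N) U n := by
  obtain ⟨K1, K2, hc1, hc2, hd, hKK⟩ := hsplit K hK hK0
  obtain ⟨a, ha⟩ := h0.ne _ hc1
  obtain ⟨b, hb⟩ := h0.ne _ hc2
  have hKU : K ⊆ U := h.sub _ hK
  have hKU' : K ≠ U := fun h1 => hK0 (h1 ▸ h0.top)
  have hK1K : K1 ⊆ K := hKK ▸ subset_union_left
  have hK2K : K2 ⊆ K := hKK ▸ subset_union_right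
  have hK1ne : K1 ≠ K := fun h1 => Finset.disjoint_left.1 hd ((h1 ▸ hK2K) hb) hb
  have hK2ne : K2 ≠ K := fun h1 => Finset.disjoint_left.1 hd ha ((h1 ▸ hK1K) ha)
  have hK12 : K1 ≠ K2 := fun h1 => Finset.disjoint_left.1 hd ha (h1 ▸ ha)
  have hcard : K1.card + K2.card = K.card := by rw [← card_union_of_disjoint hd, hKK]
  have hcard1 : 0 < K1.card := card_pos.2 ⟨a, ha⟩
  have hcard2 : 0 < K2.card := card_pos.2 ⟨b, hb⟩
  -- sets of B0 in K lie in one half
  have sub_or : ∀ J, B0 J → J ⊆ K → J ⊆ K1 ∨ J ⊆ K2 := by
    intro J hJ hJK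
    obtain ⟨P, hP, h1⟩ := h0.inPart {K1, K2} (by
      intro P hP
      rcases mem_insert.1 hP with rfl | hP
      · exact hc1
      · rw [mem_singleton.1 hP]
        exact hc2) (by
      intro P hP P' hP' hne hB
      rw [mem_insert, mem_singleton] at hP hP'
      rcases hP with rfl | rfl <;> rcases hP' with rfl | rfl
      · exact hne rfl
      · rw [hKK] at hB
        exact hK0 hB
      · rw [union_comm, hKK] at hB
        exact hK0 hB
      · exact hne rfl) hJ (by
      intro x hx
      have h2 := hJK hx
      rw [← hKK, mem_union] at h2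
      rcases h2 with h2 | h2
      · exact ⟨K1, mem_insert_self _ _, h2⟩
      · exact ⟨K2, mem_insert_of_mem (mem_singleton_self _), h2⟩)
    rw [mem_insert, mem_singleton] at hP
    rcases hP with rfl | rfl
    · exact Or.inl h1
    · exact Or.inr h1
  have hsub : ∀ J, (B0 J ∨ J ∈ N) → J.card < K.card → B0 J := by
    rintro J (h1 | h1) h2
    · exact h1
    · have := (hN J h1).2.2
      omega
  have hconD : ∀ J, (B0 J ∨ J ∈ N) → B J := by
    rintro J (h1 | h1)
    · exact hle _ h1
    · exact (hN J h1).1
  have hfam : ∀ J, B J → K.card < J.card → B0 J ∨ J ∈ N := by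
    intro J hJc hlt
    by_contra hcon
    push Not at hcon
    have := hmax J hJc hcon.1 hcon.2
    omega
  have hCS : CS (fun J => B0 J ∨ J ∈ insert K N) U =
      insert K (CS (fun J => B0 J ∨ J ∈ N) U) := by
    ext J
    rw [mem_insert, mem_CS, mem_CS, mem_insert]
    constructor
    · rintro ⟨h1, h2, h3 | h3 | h3⟩
      · exact Or.inr ⟨h1, h2, Or.inl h3⟩
      · exact Or.inl h3
      · exact Or.inr ⟨h1, h2, Or.inr h3⟩
    · rintro (rfl | ⟨h1, h2, h3 | h3⟩)
      · exact ⟨hKU, hKU', Or.inr (Or.inl rfl)⟩
      · exact ⟨h1, h2, Or.inl h3⟩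
      · exact ⟨h1, h2, Or.inr (Or.inr h3)⟩
  unfold SphOn
  rw [hCS]
  refine sphere_subdiv (u := K1) (w := K2) (G := NG (fun J => B0 J ∨ J ∈ N))
    ?_ ?_ ?_ ?_ ?_ ?_ hs
  · rw [mem_CS]
    rintro ⟨-, -, h1 | h1⟩
    · exact hK0 h1
    · exact hKN h1
  · rw [mem_CS]
    refine ⟨hK1K.trans hKU, ?_, Or.inl hc1⟩
    intro h1
    exact hK1ne (Subset.antisymm hK1K (h1 ▸ hKU))
  · rw [mem_CS]
    refine ⟨hK2K.trans hKU, ?_, Or.inl hc2⟩
    intro h1
    exact hK2ne (Subset.antisymm hK2K (h1 ▸ hKU))
  · refine ⟨hK12, Or.inr (Or.inr ⟨hd, ?_⟩)⟩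
    rw [hKK]
    rintro (h1 | h1)
    · exact hK0 h1
    · exact hKN h1
  · intro I hI J hJ
    rw [mem_CS] at hI hJ
    -- disjoint sets with union K are the two halves
    have key : Disjoint I J → I ∪ J = K → (I = K1 ∧ J = K2) ∨ (I = K2 ∧ J = K1) := by
      intro hIJ hun
      have hIne := h.ne _ (hconD I hI.2.2)
      have hJne := h.ne _ (hconD J hJ.2.2)
      have hcIJ : I.card + J.card = K.card := by rw [← card_union_of_disjoint hIJ, hun]
      have hIp : 0 < I.card := card_pos.2 hIne
      have hJp : 0 < J.card := card_pos.2 hJne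
      have hI0 : B0 I := hsub I hI.2.2 (by omega)
      have hJ0 : B0 J := hsub J hJ.2.2 (by omega)
      have hIK : I ⊆ K := hun ▸ subset_union_left
      have hJK : J ⊆ K := hun ▸ subset_union_right
      have haK : a ∈ I ∪ J := by rw [hun]; exact hK1K ha
      have hbK : b ∈ I ∪ J := by rw [hun]; exact hK2K hb
      have fin : ∀ I J : Finset S, I.card + J.card = K.card → I ⊆ K1 → J ⊆ K2 →
          I = K1 ∧ J = K2 := by
        intro I J h1 h2 h3
        have h4 := card_le_card h2
        have h5 := card_le_card h3
        exact ⟨eq_of_subset_of_card_le h2 (by omega), eq_of_subset_of_card_le h3 (by omega)⟩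
      rcases sub_or I hI0 hIK with h1 | h1 <;> rcases sub_or J hJ0 hJK with h2 | h2
      · exfalso
        rcases mem_union.1 hbK with h3 | h3
        · exact Finset.disjoint_left.1 hd (h1 h3) hb
        · exact Finset.disjoint_left.1 hd (h2 h3) hb
      · exact Or.inl (fin I J hcIJ h1 h2)
      · obtain ⟨h3, h4⟩ := fin J I (by omega) h2 h1
        exact Or.inr ⟨h4, h3⟩
      · exfalso
        rcases mem_union.1 haK with h3 | h3
        · exact Finset.disjoint_left.1 hd ha (h1 h3)
        · exact Finset.disjoint_left.1 hd ha (h2 h3)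
    constructor
    · rintro ⟨hne, hor⟩
      have hIJK : Disjoint I J → I ∪ J = K → False := by
        intro h1 h2
        rcases hor with h3 | h3 | h3
        · obtain ⟨x, hx⟩ := h.ne _ (hconD I hI.2.2)
          exact Finset.disjoint_left.1 h1 hx (h3 hx)
        · obtain ⟨x, hx⟩ := h.ne _ (hconD J hJ.2.2)
          exact Finset.disjoint_left.1 h1 (h3 hx) hx
        · exact h3.2 (Or.inr (by rw [h2]; exact mem_insert_self _ _))
      refine ⟨⟨hne, ?_⟩, ?_, ?_⟩
      · rcases hor with h3 | h3 | h3
        · exact Or.inl h3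
        · exact Or.inr (Or.inl h3)
        · refine Or.inr (Or.inr ⟨h3.1, fun h4 => h3.2 ?_⟩)
          rcases h4 with h4 | h4
          · exact Or.inl h4
          · exact Or.inr (mem_insert_of_mem h4)
      · rintro ⟨rfl, rfl⟩
        exact hIJK hd hKK
      · rintro ⟨rfl, rfl⟩
        exact hIJK hd.symm (by rw [union_comm]; exact hKK)
    · rintro ⟨⟨hne, hor⟩, h1, h2⟩
      refine ⟨hne, ?_⟩
      rcases hor with h3 | h3 | h3
      · exact Or.inl h3
      · exact Or.inr (Or.inl h3)
      · refine Or.inr (Or.inr ⟨h3.1, ?_⟩)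
        rintro (h4 | h4)
        · exact h3.2 (Or.inl h4)
        · rcases mem_insert.1 h4 with h5 | h5
          · rcases key h3.1 h5 with h6 | h6
            · exact h1 h6
            · exact h2 h6
          · exact h3.2 (Or.inr h5)
  · intro J hJ
    rw [mem_CS] at hJ
    obtain ⟨hJU, hJU', hJf⟩ := hJ
    have hJD := hconD J hJf
    have hJK : J ≠ K := by
      rintro rfl
      rcases hJf with h1 | h1
      · exact hK0 h1
      · exact hKN h1
    obtain ⟨z, hz⟩ := h.ne _ hJD
    have hzc : 0 < J.card := card_pos.2 ⟨z, hz⟩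
    constructor
    · rintro ⟨-, h1 | h1 | h1⟩
      · -- K ⊆ J
        right; right
        refine ⟨⟨?_, Or.inl (hK1K.trans h1)⟩, ⟨?_, Or.inl (hK2K.trans h1)⟩⟩
        · intro h2
          exact hK1ne (Subset.antisymm hK1K (h2 ▸ h1))
        · intro h2
          exact hK2ne (Subset.antisymm hK2K (h2 ▸ h1))
      · -- J ⊆ K
        have hlt : J.card < K.card := by
          rcases lt_or_eq_of_le (card_le_card h1) with h2 | h2
          · exact h2
          · exact absurd (eq_of_subset_of_card_le h1 h2.ge) hJK
        have hJ0 : B0 J := hsub J hJf hlt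
        -- a subset of one half is not adjacent to the other half
        have side : ∀ A B : Finset S, A ⊆ K → B ⊆ K → (A ∪ B).card < K.card →
            ¬ A ∪ B ⊆ K1 → ¬ A ∪ B ⊆ K2 → ¬ (B0 (A ∪ B) ∨ A ∪ B ∈ N) := by
          intro A B hA hB hcAB h3 h4
          rintro (h2 | h2)
          · rcases sub_or _ h2 (union_subset hA hB) with h5 | h5
            · exact h3 h5
            · exact h4 h5
          · have := (hN _ h2).2.2
            omega
        rcases sub_or J hJ0 h1 with h2 | h2
        · by_cases h3 : J = K1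
          · exact Or.inl h3
          · right; right
            have hltJ : J.card < K1.card := by
              rcases lt_or_eq_of_le (card_le_card h2) with h4 | h4
              · exact h4
              · exact absurd (eq_of_subset_of_card_le h2 h4.ge) h3
            have hdJ : Disjoint K2 J := (hd.mono_left h2).symm
            refine ⟨⟨fun h4 => h3 h4.symm, Or.inr (Or.inl h2)⟩, ⟨?_, Or.inr (Or.inr ⟨hdJ, ?_⟩)⟩⟩
            · intro h4
              exact Finset.disjoint_left.1 hd (h2 (h4 ▸ hb)) hb
            · refine side K2 J hK2K h1 ?_ ?_ ?_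
              · rw [card_union_of_disjoint hdJ]
                omega
              · intro h4
                exact Finset.disjoint_left.1 hd (h4 (mem_union_left _ hb)) hb
              · intro h4
                exact Finset.disjoint_left.1 hd (h2 hz) (h4 (mem_union_right _ hz))
        · by_cases h3 : J = K2
          · exact Or.inr (Or.inl h3)
          · right; right
            have hltJ : J.card < K2.card := by
              rcases lt_or_eq_of_le (card_le_card h2) with h4 | h4
              · exact h4
              · exact absurd (eq_of_subset_of_card_le h2 h4.ge) h3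
            have hdJ : Disjoint K1 J := hd.mono_right h2
            refine ⟨⟨?_, Or.inr (Or.inr ⟨hdJ, ?_⟩)⟩, ⟨fun h4 => h3 h4.symm, Or.inr (Or.inl h2)⟩⟩
            · intro h4
              exact Finset.disjoint_left.1 hd ha (h2 (h4 ▸ ha))
            · refine side K1 J hK1K h1 ?_ ?_ ?_
              · rw [card_union_of_disjoint hdJ]
                omega
              · intro h4
                exact Finset.disjoint_left.1 hd (h4 (mem_union_right _ hz)) (h2 hz)
              · intro h4
                exact Finset.disjoint_left.1 hd ha (h4 (mem_union_left _ ha))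
      · -- disjoint
        obtain ⟨hdis, hnB⟩ := h1
        have half : ∀ A : Finset S, A ⊆ K → A.Nonempty → ¬ (B0 (A ∪ J) ∨ A ∪ J ∈ N) := by
          intro A hA hAne h2
          apply hnB
          obtain ⟨y, hy⟩ := hAne
          have h3 : B (A ∪ J) := hconD _ h2
          have h5 : B (K ∪ (A ∪ J)) :=
            h.join _ _ hK h3 ⟨y, mem_inter.2 ⟨hA hy, mem_union_left _ hy⟩⟩
          have h6 : K ∪ (A ∪ J) = K ∪ J := by
            rw [← union_assoc, union_eq_left.2 hA]
          rw [h6] at h5
          have h8 : K.card < (K ∪ J).card := by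
            rw [card_union_of_disjoint hdis]
            omega
          rcases hfam _ h5 h8 with h9 | h9
          · exact Or.inl h9
          · exact Or.inr (mem_insert_of_mem h9)
        right; right
        refine ⟨⟨?_, Or.inr (Or.inr ⟨hdis.mono_left hK1K, half K1 hK1K ⟨a, ha⟩⟩)⟩,
          ⟨?_, Or.inr (Or.inr ⟨hdis.mono_left hK2K, half K2 hK2K ⟨b, hb⟩⟩)⟩⟩
        · intro h2
          exact Finset.disjoint_left.1 hdis (hK1K ha) (h2 ▸ ha)
        · intro h2
          exact Finset.disjoint_left.1 hdis (hK2K hb) (h2 ▸ hb)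
    · -- the converse
      -- a member containing one half and disjoint to the other one
      have hov : ∀ A C : Finset S, A ∪ C = K → A.Nonempty → A ⊆ J →
          ¬ (B0 (C ∪ J) ∨ C ∪ J ∈ N) → J ⊆ K := by
        intro A C hAC hAne hAJ hnB
        obtain ⟨y, hy⟩ := hAne
        have hyK : y ∈ K := hAC ▸ mem_union_left _ hy
        have h1 : B (K ∪ J) := h.join _ _ hK hJD ⟨y, mem_inter.2 ⟨hyK, hAJ hy⟩⟩
        have h2 : K ∪ J = C ∪ J := by
          rw [← hAC]
          ext w
          simp only [mem_union]
          constructor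
          · rintro ((h3 | h3) | h3)
            · exact Or.inr (hAJ h3)
            · exact Or.inl h3
            · exact Or.inr h3
          · rintro (h3 | h3)
            · exact Or.inl (Or.inr h3)
            · exact Or.inr h3
        rw [← h2] at hnB
        push Not at hnB
        have h3 := hmax (K ∪ J) h1 hnB.1 hnB.2
        have h4 : K = K ∪ J := eq_of_subset_of_card_le subset_union_left h3
        rw [h4]
        exact subset_union_right
      rintro (rfl | rfl | ⟨⟨h1n, h1⟩, ⟨h2n, h2⟩⟩)
      · exact ⟨hK1ne.symm, Or.inr (Or.inl hK1K)⟩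
      · exact ⟨hK2ne.symm, Or.inr (Or.inl hK2K)⟩
      · refine ⟨hJK.symm, ?_⟩
        rcases h1 with h1 | h1 | h1 <;> rcases h2 with h2 | h2 | h2
        · left
          rw [← hKK]
          exact union_subset h1 h2
        · exact Or.inr (Or.inl (h2.trans hK2K))
        · exact Or.inr (Or.inl (hov K1 K2 hKK ⟨a, ha⟩ h1 h2.2))
        · exact Or.inr (Or.inl (h1.trans hK1K))
        · exact Or.inr (Or.inl (h1.trans hK1K))
        · exact Or.inr (Or.inl (h1.trans hK1K))
        · exact Or.inr (Or.inl (hov K2 K1 (by rw [union_comm]; exact hKK) ⟨b, hb⟩ h2 h1.2))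
        · exact Or.inr (Or.inl (h2.trans hK2K))
        · -- disjoint to both halves
          have hdis : Disjoint K J := by
            rw [← hKK, disjoint_union_left]
            exact ⟨h1.1, h2.1⟩
          refine Or.inr (Or.inr ⟨hdis, ?_⟩)
          intro h3
          have h4 : B (K ∪ J) := by
            rcases h3 with h3 | h3
            · exact hle _ h3
            · rcases mem_insert.1 h3 with h5 | h5
              · rw [h5]; exact hK
              · exact (hN _ h5).1
          by_cases hJ0 : B0 J
          · -- three parts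
            have hJ1 : K1 ≠ J := h1n
            have hJ2 : K2 ≠ J := h2n
            refine h0.not_three hsplit {K1, K2, J} ?_ ?_ ?_ ?_ h4 ?_ ?_
            · intro P hP
              rw [mem_insert, mem_insert, mem_singleton] at hP
              rcases hP with rfl | rfl | rfl
              · exact hc1
              · exact hc2
              · exact hJ0
            · intro P hP P' hP' hne hB
              rw [mem_insert, mem_insert, mem_singleton] at hP hP'
              rcases hP with rfl | rfl | rfl <;> rcases hP' with rfl | rfl | rfl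
              · exact hne rfl
              · rw [hKK] at hB
                exact hK0 hB
              · exact h1.2 (Or.inl hB)
              · rw [union_comm, hKK] at hB
                exact hK0 hB
              · exact hne rfl
              · exact h2.2 (Or.inl hB)
              · rw [union_comm] at hB
                exact h1.2 (Or.inl hB)
              · rw [union_comm] at hB
                exact h2.2 (Or.inl hB)
              · exact hne rfl
            · intro P hP P' hP' hne
              rw [mem_insert, mem_insert, mem_singleton] at hP hP'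
              rcases hP with rfl | rfl | rfl <;> rcases hP' with rfl | rfl | rfl
              · exact absurd rfl hne
              · exact hd
              · exact h1.1
              · exact hd.symm
              · exact absurd rfl hne
              · exact h2.1
              · exact h1.1.symm
              · exact h2.1.symm
              · exact absurd rfl hne
            · rw [card_insert_of_notMem, card_insert_of_notMem, card_singleton]
              · rw [mem_singleton]
                exact hJ2
              · rw [mem_insert, mem_singleton]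
                push Not
                exact ⟨hK12, hJ1⟩
            · intro P hP
              rw [mem_insert, mem_insert, mem_singleton] at hP
              rcases hP with rfl | rfl | rfl
              · exact hK1K.trans subset_union_left
              · exact hK2K.trans subset_union_left
              · exact subset_union_right
            · intro x hx
              rw [← hKK, mem_union, mem_union] at hx
              rcases hx with (hx | hx) | hx
              · exact ⟨K1, mem_insert_self _ _, hx⟩
              · exact ⟨K2, mem_insert_of_mem (mem_insert_self _ _), hx⟩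
              · exact ⟨J, mem_insert_of_mem (mem_insert_of_mem (mem_singleton_self _)), hx⟩
          · -- four parts
            have hJN : J ∈ N := hJf.resolve_left hJ0
            have hJc := (hN J hJN).2.2
            obtain ⟨J1, J2, hj1, hj2, hjd, hJJ⟩ := hsplit J hJD hJ0
            have hJ1J : J1 ⊆ J := hJJ ▸ subset_union_left
            have hJ2J : J2 ⊆ J := hJJ ▸ subset_union_right
            obtain ⟨c, hc⟩ := h0.ne _ hj1
            obtain ⟨e, he⟩ := h0.ne _ hj2
            -- unions of a half of K and a part of J are not in B0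
            have hmix : ∀ A C : Finset S, B0 A → A.Nonempty → Disjoint A J →
                ¬ (B0 (A ∪ J) ∨ A ∪ J ∈ N) → C ⊆ J → C.Nonempty → ¬ B0 (A ∪ C) := by
              intro A C hA hAne hAJ hn hC hCne hB
              apply hn
              obtain ⟨w, hw⟩ := hCne
              have h5 : B ((A ∪ C) ∪ J) := h.join _ _ (hle _ hB) hJD
                ⟨w, mem_inter.2 ⟨mem_union_right _ hw, hC hw⟩⟩
              have h6 : (A ∪ C) ∪ J = A ∪ J := by
                rw [union_assoc, union_eq_right.2 hC]
              rw [h6] at h5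
              refine hfam _ h5 ?_
              rw [card_union_of_disjoint hAJ]
              have : 0 < A.card := card_pos.2 hAne
              omega
            have m11 := hmix K1 J1 hc1 ⟨a, ha⟩ h1.1 h1.2 hJ1J ⟨c, hc⟩
            have m12 := hmix K1 J2 hc1 ⟨a, ha⟩ h1.1 h1.2 hJ2J ⟨e, he⟩
            have m21 := hmix K2 J1 hc2 ⟨b, hb⟩ h2.1 h2.2 hJ1J ⟨c, hc⟩
            have m22 := hmix K2 J2 hc2 ⟨b, hb⟩ h2.1 h2.2 hJ2J ⟨e, he⟩
            have d11 : Disjoint K1 J1 := h1.1.mono_right hJ1J
            have d12 : Disjoint K1 J2 := h1.1.mono_right hJ2J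
            have d21 : Disjoint K2 J1 := h2.1.mono_right hJ1J
            have d22 : Disjoint K2 J2 := h2.1.mono_right hJ2J
            refine h0.not_three hsplit {K1, K2, J1, J2} ?_ ?_ ?_ ?_ h4 ?_ ?_
            · intro P hP
              rw [mem_insert, mem_insert, mem_insert, mem_singleton] at hP
              rcases hP with rfl | rfl | rfl | rfl
              · exact hc1
              · exact hc2
              · exact hj1
              · exact hj2
            · intro P hP P' hP' hne hB
              rw [mem_insert, mem_insert, mem_insert, mem_singleton] at hP hP'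
              rcases hP with rfl | rfl | rfl | rfl <;> rcases hP' with rfl | rfl | rfl | rfl
              · exact hne rfl
              · rw [hKK] at hB
                exact hK0 hB
              · exact m11 hB
              · exact m12 hB
              · rw [union_comm, hKK] at hB
                exact hK0 hB
              · exact hne rfl
              · exact m21 hB
              · exact m22 hB
              · rw [union_comm] at hB
                exact m11 hB
              · rw [union_comm] at hB
                exact m21 hB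
              · exact hne rfl
              · rw [hJJ] at hB
                exact hJ0 hB
              · rw [union_comm] at hB
                exact m12 hB
              · rw [union_comm] at hB
                exact m22 hB
              · rw [union_comm, hJJ] at hB
                exact hJ0 hB
              · exact hne rfl
            · intro P hP P' hP' hne
              rw [mem_insert, mem_insert, mem_insert, mem_singleton] at hP hP'
              rcases hP with rfl | rfl | rfl | rfl <;> rcases hP' with rfl | rfl | rfl | rfl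
              · exact absurd rfl hne
              · exact hd
              · exact d11
              · exact d12
              · exact hd.symm
              · exact absurd rfl hne
              · exact d21
              · exact d22
              · exact d11.symm
              · exact d21.symm
              · exact absurd rfl hne
              · exact hjd
              · exact d12.symm
              · exact d22.symm
              · exact hjd.symm
              · exact absurd rfl hne
            · have hsub3 : ({K1, K2, J1} : Finset (Finset S)) ⊆ {K1, K2, J1, J2} := by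
                intro P hP
                rw [mem_insert, mem_insert, mem_singleton] at hP
                rw [mem_insert, mem_insert, mem_insert]
                rcases hP with hP | hP | hP
                · exact Or.inl hP
                · exact Or.inr (Or.inl hP)
                · exact Or.inr (Or.inr (Or.inl hP))
              refine le_trans (le_of_eq ?_) (card_le_card hsub3)
              rw [card_insert_of_notMem, card_insert_of_notMem, card_singleton]
              · rw [mem_singleton]
                intro h5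
                exact Finset.disjoint_left.1 d21 hb (h5 ▸ hb)
              · rw [mem_insert, mem_singleton]
                push Not
                exact ⟨hK12, fun h5 => Finset.disjoint_left.1 d11 ha (h5 ▸ ha)⟩
            · intro P hP
              rw [mem_insert, mem_insert, mem_insert, mem_singleton] at hP
              rcases hP with rfl | rfl | rfl | rfl
              · exact hK1K.trans subset_union_left
              · exact hK2K.trans subset_union_left
              · exact hJ1J.trans subset_union_right
              · exact hJ2J.trans subset_union_right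
            · intro x hx
              rw [← hKK, ← hJJ, mem_union, mem_union, mem_union] at hx
              rcases hx with (hx | hx) | (hx | hx)
              · exact ⟨K1, mem_insert_self _ _, hx⟩
              · exact ⟨K2, mem_insert_of_mem (mem_insert_self _ _), hx⟩
              · exact ⟨J1, mem_insert_of_mem (mem_insert_of_mem (mem_insert_self _ _)), hx⟩
              · exact ⟨J2, mem_insert_of_mem (mem_insert_of_mem (mem_insert_of_mem
                  (mem_singleton_self _))), hx⟩

/-- **Adding sets with two parts.** -/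
theorem add2 {B0 B : Finset S → Prop} {U : Finset S} (h0 : FB B0 U) (h : FB B U)
    (hle : ∀ J, B0 J → B J)
    (hsplit : ∀ K, B K → ¬ B0 K → ∃ K1 K2, B0 K1 ∧ B0 K2 ∧ Disjoint K1 K2 ∧ K1 ∪ K2 = K)
    {n : ℕ} (hs : SphOn B0 B0 U n) : SphOn B B U n := by
  classical
  obtain ⟨T, hT⟩ : ∃ T : Finset (Finset S), ∀ J, J ∈ T ↔ B J ∧ ¬ B0 J := by
    refine ⟨(U.powerset).filter fun J => B J ∧ ¬ B0 J, fun J => ?_⟩
    rw [mem_filter, mem_powerset]
    exact ⟨fun h1 => h1.2, fun h1 => ⟨h.sub _ h1.1, h1⟩⟩
  have key : ∀ m : ℕ, ∀ N : Finset (Finset S), N.card = m → N ⊆ T →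
      (∀ J ∈ N, ∀ K ∈ T, K ∉ N → K.card ≤ J.card) →
      SphOn (fun J => B0 J ∨ J ∈ N) (fun J => B0 J ∨ J ∈ N) U n := by
    intro m
    induction m with
    | zero =>
      intro N hN _ _
      rw [card_eq_zero] at hN
      subst hN
      refine hs.congr (fun J _ _ => ?_) (fun J _ => ?_)
      · simp
      · simp
    | succ m ih =>
      intro N hN hNT hdown
      have hne : N.Nonempty := by
        rw [← card_pos]
        omega
      obtain ⟨K, hK, hmin⟩ := exists_min_image N (fun J => J.card) hne
      have hKT := (hT K).1 (hNT hK)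
      have h1 := ih (N.erase K) (by rw [card_erase_of_mem hK]; omega)
        ((erase_subset _ _).trans hNT) (by
          intro J hJ K' hK' hK'N
          rw [mem_erase] at hJ
          by_cases h2 : K' = K
          · rw [h2]
            exact hmin J hJ.2
          · exact hdown J hJ.2 K' hK' fun h3 => hK'N (mem_erase.2 ⟨h2, h3⟩))
      have h2 := step2 h0 h hle hsplit (N := N.erase K) (K := K) (by
          intro J hJ
          rw [mem_erase] at hJ
          have h3 := (hT J).1 (hNT hJ.2)
          exact ⟨h3.1, h3.2, hmin J hJ.2⟩) (by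
          intro J hJc hJ0 hJN
          have hJT : J ∈ T := (hT J).2 ⟨hJc, hJ0⟩
          by_cases h3 : J = K
          · rw [h3]
          · exact hdown K hK J hJT fun h4 => hJN (mem_erase.2 ⟨h3, h4⟩))
        hKT.1 hKT.2 (notMem_erase K N) h1
      rw [insert_erase hK] at h2
      exact h2
  have h1 := key T.card T rfl (Subset.refl _) (fun J _ K hK hKT => absurd hK hKT)
  have h2 : ∀ J, (B0 J ∨ J ∈ T) ↔ B J := by
    intro J
    rw [hT]
    constructor
    · rintro (h3 | h3)
      · exact hle _ h3
      · exact h3.1
    · intro h3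
      by_cases h4 : B0 J
      · exact Or.inl h4
      · exact Or.inr ⟨h3, h4⟩
  exact h1.congr (fun J _ _ => h2 J) (fun J _ => h2 J)

/-- **Flag building sets.** -/
theorem grow {U : Finset S} {n : ℕ} {B1 B2 : Finset S → Prop} (h1 : FB B1 U) (h2 : FB B2 U)
    (hle : ∀ J, B1 J → B2 J) (hs : SphOn B1 B1 U n) : SphOn B2 B2 U n := by
  classical
  obtain ⟨m, hm⟩ : ∃ m, m = ((U.powerset).filter fun J => B2 J ∧ ¬ B1 J).card := ⟨_, rfl⟩
  induction m using Nat.strong_induction_on generalizing B1 with
  | _ m ih =>
  by_cases hne : ((U.powerset).filter fun J => B2 J ∧ ¬ B1 J).Nonempty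
  · obtain ⟨K, hK, hmin⟩ := exists_min_image _ (fun J => J.card) hne
    rw [mem_filter, mem_powerset] at hK
    obtain ⟨hKU, hK2, hK1⟩ := hK
    have hKc : 2 ≤ K.card := by
      have hpos : 0 < K.card := card_pos.2 (h2.ne _ hK2)
      by_contra hcon
      have h3 : K.card = 1 := by omega
      obtain ⟨s, rfl⟩ := card_eq_one.1 h3
      exact hK1 (h1.single s (singleton_subset_iff.1 hKU))
    obtain ⟨K1, K2, hk1, hk2, hd, hKK⟩ := h2.flag K hK2 hKc
    have hK1K : K1 ⊆ K := hKK ▸ subset_union_left
    have hK2K : K2 ⊆ K := hKK ▸ subset_union_right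
    have hcc : K1.card + K2.card = K.card := by rw [← card_union_of_disjoint hd, hKK]
    have hp1 : 0 < K1.card := card_pos.2 (h2.ne _ hk1)
    have hp2 : 0 < K2.card := card_pos.2 (h2.ne _ hk2)
    have small : ∀ J, B2 J → J.card < K.card → B1 J := by
      intro J hJ hlt
      by_contra hcon
      have := hmin J (mem_filter.2 ⟨mem_powerset.2 (h2.sub _ hJ), hJ, hcon⟩)
      omega
    have hb1 := small K1 hk1 (by omega)
    have hb2 := small K2 hk2 (by omega)
    obtain ⟨x1, hx1⟩ := h1.ne _ hb1
    obtain ⟨x2, hx2⟩ := h1.ne _ hb2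
    -- the building set generated by `B1` and `K`
    obtain ⟨B', hB'⟩ : ∃ B' : Finset S → Prop, ∀ J, B' J ↔ (B1 J ∨ ∃ J1 J2, B1 J1 ∧ B1 J2 ∧
        K1 ⊆ J1 ∧ K2 ⊆ J2 ∧ J = J1 ∪ J2) := ⟨_, fun J => Iff.rfl⟩
    have hle1 : ∀ J, B1 J → B' J := fun J hJ => (hB' J).2 (Or.inl hJ)
    have hle2 : ∀ J, B' J → B2 J := by
      intro J hJ
      rcases (hB' J).1 hJ with h3 | ⟨J1, J2, h3, h4, h5, h6, rfl⟩
      · exact hle _ h3
      · have h7 : B2 (J1 ∪ K) := h2.join _ _ (hle _ h3) hK2
          ⟨x1, mem_inter.2 ⟨h5 hx1, hK1K hx1⟩⟩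
        have h8 : B2 ((J1 ∪ K) ∪ J2) := h2.join _ _ h7 (hle _ h4)
          ⟨x2, mem_inter.2 ⟨mem_union_right _ (hK2K hx2), h6 hx2⟩⟩
        have h9 : (J1 ∪ K) ∪ J2 = J1 ∪ J2 := by
          rw [← hKK]
          ext w
          simp only [mem_union]
          constructor
          · rintro ((h10 | h10 | h10) | h10)
            · exact Or.inl h10
            · exact Or.inl (h5 h10)
            · exact Or.inr (h6 h10)
            · exact Or.inr h10
          · rintro (h10 | h10)
            · exact Or.inl (Or.inl h10)
            · exact Or.inr h10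
        rw [h9] at h8
        exact h8
    have hdisj : ∀ J1 J2, B1 J1 → B1 J2 → ¬ B1 (J1 ∪ J2) → Disjoint J1 J2 := by
      intro J1 J2 h3 h4 h5
      rw [disjoint_iff_inter_eq_empty]
      by_contra h6
      exact h5 (h1.join _ _ h3 h4 (nonempty_iff_ne_empty.2 h6))
    have hFB : FB B' U := by
      refine ⟨fun J hJ => h2.ne _ (hle2 _ hJ), fun J hJ => h2.sub _ (hle2 _ hJ),
        fun s hs => hle1 _ (h1.single s hs), hle1 _ h1.top, ?_, ?_⟩
      · intro J J' hJ hJ' hJJ'
        rcases (hB' J).1 hJ with h3 | ⟨J1, J2, h3, h4, h5, h6, rfl⟩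
        · rcases (hB' J').1 hJ' with h7 | ⟨L1, L2, h7, h8, h9, h10, rfl⟩
          · exact hle1 _ (h1.join _ _ h3 h7 hJJ')
          · obtain ⟨x, hx⟩ := hJJ'
            rw [mem_inter, mem_union] at hx
            rcases hx.2 with h11 | h11
            · refine (hB' _).2 (Or.inr ⟨J ∪ L1, L2, h1.join _ _ h3 h7
                ⟨x, mem_inter.2 ⟨hx.1, h11⟩⟩, h8, h9.trans subset_union_right, h10, ?_⟩)
              rw [union_assoc]
            · refine (hB' _).2 (Or.inr ⟨L1, J ∪ L2, h7, h1.join _ _ h3 h8
                ⟨x, mem_inter.2 ⟨hx.1, h11⟩⟩, h9, h10.trans subset_union_right, ?_⟩)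
              rw [← union_assoc, ← union_assoc, union_comm J L1]
        · rcases (hB' J').1 hJ' with h7 | ⟨L1, L2, h7, h8, h9, h10, rfl⟩
          · obtain ⟨x, hx⟩ := hJJ'
            rw [mem_inter, mem_union] at hx
            rcases hx.1 with h11 | h11
            · refine (hB' _).2 (Or.inr ⟨J1 ∪ J', J2, h1.join _ _ h3 h7
                ⟨x, mem_inter.2 ⟨h11, hx.2⟩⟩, h4, h5.trans subset_union_left, h6, ?_⟩)
              rw [union_assoc, union_assoc, union_comm J2 J']
            · refine (hB' _).2 (Or.inr ⟨J1, J2 ∪ J', h3, h1.join _ _ h4 h7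
                ⟨x, mem_inter.2 ⟨h11, hx.2⟩⟩, h5, h6.trans subset_union_left, ?_⟩)
              rw [union_assoc]
          · refine (hB' _).2 (Or.inr ⟨J1 ∪ L1, J2 ∪ L2, h1.join _ _ h3 h7
              ⟨x1, mem_inter.2 ⟨h5 hx1, h9 hx1⟩⟩, h1.join _ _ h4 h8
              ⟨x2, mem_inter.2 ⟨h6 hx2, h10 hx2⟩⟩, h5.trans subset_union_left,
              h6.trans subset_union_left, ?_⟩)
            ext w
            simp only [mem_union]
            tauto
      · intro J hJ hc
        by_cases h3 : B1 J
        · obtain ⟨J1, J2, h4, h5, h6⟩ := h1.flag J h3 hc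
          exact ⟨J1, J2, hle1 _ h4, hle1 _ h5, h6⟩
        · rcases (hB' J).1 hJ with h4 | ⟨J1, J2, h4, h5, -, -, rfl⟩
          · exact absurd h4 h3
          · exact ⟨J1, J2, hle1 _ h4, hle1 _ h5, hdisj _ _ h4 h5 h3, rfl⟩
    have hs' : SphOn B' B' U n := by
      refine add2 h1 hFB hle1 ?_ hs
      intro J hJ h3
      rcases (hB' J).1 hJ with h4 | ⟨J1, J2, h4, h5, -, -, rfl⟩
      · exact absurd h4 h3
      · exact ⟨J1, J2, h4, h5, hdisj _ _ h4 h5 h3, rfl⟩
    refine ih _ ?_ hFB hle2 hs' rfl
    rw [hm]
    refine card_lt_card ⟨?_, ?_⟩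
    · intro J hJ
      rw [mem_filter] at hJ ⊢
      exact ⟨hJ.1, hJ.2.1, fun h3 => hJ.2.2 (hle1 _ h3)⟩
    · intro hsub
      have h3 := hsub (mem_filter.2 ⟨mem_powerset.2 hKU, hK2, hK1⟩)
      rw [mem_filter] at h3
      exact h3.2.2 ((hB' K).2 (Or.inr ⟨K1, K2, hb1, hb2, Subset.refl _, Subset.refl _, hKK.symm⟩))
  · rw [not_nonempty_iff_eq_empty] at hne
    have h3 : ∀ J, B1 J ↔ B2 J := by
      intro J
      refine ⟨hle J, fun hJ => ?_⟩
      by_contra hcon
      have h4 : J ∈ (U.powerset).filter fun J => B2 J ∧ ¬ B1 J :=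
        mem_filter.2 ⟨mem_powerset.2 (h2.sub _ hJ), hJ, hcon⟩
      rw [hne] at h4
      exact notMem_empty _ h4
    exact hs.congr (fun J _ _ => h3 J) (fun J _ => h3 J)

/-- **The nested sets of a flag building set which contains the connected sets form a sphere.** -/
theorem flag_sphere (D : SimpleGraph S) (U : Finset S) (hU : Con D U) {B : Finset S → Prop}
    (hB : FB B U) (hD : ∀ J ⊆ U, Con D J → B J) : SphOn B B U (U.card - 1) := by
  have h1 : FB (fun J => J ⊆ U ∧ Con D J) U := by
    refine ⟨fun J hJ => hJ.2.1, fun J hJ => hJ.1,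
      fun s hs => ⟨singleton_subset_iff.2 hs, con_single D s⟩, ⟨Subset.refl _, hU⟩, ?_, ?_⟩
    · intro J K hJ hK hJK
      exact ⟨union_subset hJ.1 hK.1, hJ.2.union hK.2 hJK⟩
    · intro J hJ hc
      obtain ⟨s, hs, h2⟩ := hJ.2.exists_erase hc
      refine ⟨J.erase s, {s}, ⟨(erase_subset _ _).trans hJ.1, h2⟩,
        ⟨singleton_subset_iff.2 (hJ.1 hs), con_single D s⟩, ?_, ?_⟩
      · rw [disjoint_singleton_right]
        exact notMem_erase s J
      · ext x
        rw [mem_union, mem_singleton, mem_erase]
        constructor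
        · rintro (h5 | rfl)
          · exact h5.2
          · exact hs
        · intro hx
          by_cases h5 : x = s
          · exact Or.inr h5
          · exact Or.inl ⟨h5, hx⟩
  refine grow h1 hB (fun J hJ => hD J hJ.1 hJ.2) ?_
  refine (nested_sphere D U hU).congr (fun J hJ _ => ?_) (fun J hJ => ?_)
  · exact ⟨fun h2 => ⟨hJ, h2⟩, fun h2 => h2.2⟩
  · exact ⟨fun h2 => ⟨hJ, h2⟩, fun h2 => h2.2⟩

end Pool.Agent.H78.RD
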