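import Mathlib

/-!
# Project RC2: a hierarchy of quadratic forms

`q_k f = ∑ u v, f u f v T k u v`. By induction on `j` (from `j = n` down to `0`) there are positive `ε_j, …, ε_{n-1}` such
that `∑_{j ≤ k < n} ε_k q_k < 0` on `E a j \ {0}` for all `a`. `j = n`: `E a n = 0`. Step from `j + 1` to `j`: let
`q' = ∑_{k > j} ε_k q_k`, `q = q_j`. On `E a j` `q ≤ 0`, and if `q f = 0`, `f ∈ E a j`, `f ≠ 0`, then `f ∈ E a (j + 1)` and
`q' f < 0`. The set `K_a = {f ∈ E a j, ∑ f u ^ 2 = 1}` is compact. On the closed subset where `q' ≥ 0` `q` is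
negative, so `q ≤ -c` there for some `c > 0` and `q' ≤ C` on `K_a`. With `ε > 0`, `ε C < c`: `q + ε q' < 0` on `K_a`
(if `q' f < 0` clear as `q ≤ 0`; if `q' f ≥ 0`: `≤ -c + ε C < 0`). By homogeneity on `E a j \ {0}`. Take the minimum
of the `ε` over the finitely many `a`; the new coefficients are `1` for `q_j` and `ε ε_k` for `k > j` (state the
induction with general positive coefficients). In the final statement `ε : ℕ → ℝ` is positive everywhere
(arbitrary for `k ≥ n`).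
-/

set_option autoImplicit false

open Finset

namespace Pool.Agent.H78.RD

/-- The quadratic form. -/
def hier_q {V : Type} [Fintype V] (T : ℕ → V → V → ℝ) (k : ℕ) (f : V → ℝ) : ℝ :=
  ∑ u, ∑ v, f u * f v * T k u v

theorem hier_cont {V : Type} [Fintype V] (T : ℕ → V → V → ℝ) (k : ℕ) :
    Continuous (hier_q T k) := by
  unfold hier_q
  fun_prop

theorem hier_smul {V : Type} [Fintype V] (T : ℕ → V → V → ℝ) (k : ℕ) (c : ℝ) (f : V → ℝ) :
    hier_q T k (c • f) = c ^ 2 * hier_q T k f := by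
  unfold hier_q
  rw [mul_sum]
  refine sum_congr rfl fun u _ => ?_
  rw [mul_sum]
  refine sum_congr rfl fun v _ => ?_
  simp only [Pi.smul_apply, smul_eq_mul]
  ring

theorem hier_step {V : Type} [Fintype V] (q q' : (V → ℝ) → ℝ) (hq : Continuous q)
    (hq' : Continuous q') (hs : ∀ (c : ℝ) f, q (c • f) = c ^ 2 * q f)
    (hs' : ∀ (c : ℝ) f, q' (c • f) = c ^ 2 * q' f) (E : Submodule ℝ (V → ℝ))
    (h0 : ∀ f ∈ E, q f ≤ 0) (h1 : ∀ f ∈ E, f ≠ 0 → q f = 0 → q' f < 0) :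
    ∀ᶠ ε in nhds (0 : ℝ), 0 < ε → ∀ f ∈ E, f ≠ 0 → q f + ε * q' f < 0 := by
  have hK : IsCompact (Metric.sphere (0 : V → ℝ) 1 ∩ (E : Set (V → ℝ))) :=
    (isCompact_sphere _ _).inter_right E.closed_of_finiteDimensional
  have h2 : ∀ᶠ ε in nhds (0 : ℝ), ∀ f ∈ Metric.sphere (0 : V → ℝ) 1 ∩ (E : Set (V → ℝ)),
      (0 < ε → f ∈ E → q f + ε * q' f < 0) := by
    refine hK.eventually_forall_of_forall_eventually (x₀ := (0 : ℝ))
      (P := fun ε f => 0 < ε → f ∈ E → q f + ε * q' f < 0) ?_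
    rintro f ⟨hf1, hf2⟩
    have hf0 : f ≠ 0 := by
      rintro rfl
      simp at hf1
    rcases lt_or_eq_of_le (h0 f hf2) with h | h
    · have hc : Continuous fun z : ℝ × (V → ℝ) => q z.2 + z.1 * q' z.2 := by fun_prop
      have h3 : (fun z : ℝ × (V → ℝ) => q z.2 + z.1 * q' z.2) (0, f) < 0 := by simpa using h
      filter_upwards [hc.continuousAt.eventually_lt continuousAt_const h3] with z hz _ _
      exact hz
    · have hc : Continuous fun z : ℝ × (V → ℝ) => q' z.2 := by fun_prop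
      have h3 : (fun z : ℝ × (V → ℝ) => q' z.2) (0, f) < 0 := h1 f hf2 hf0 h
      filter_upwards [hc.continuousAt.eventually_lt continuousAt_const h3] with z hz hz0 hzE
      have h4 := h0 _ hzE
      have h5 : z.1 * q' z.2 < 0 := mul_neg_of_pos_of_neg hz0 hz
      linarith
  filter_upwards [h2] with ε hε hε0 f hf hf0
  have hn : 0 < ‖f‖ := norm_pos_iff.2 hf0
  have h3 := hε (‖f‖⁻¹ • f) ⟨by simp [norm_smul, hn.ne'], E.smul_mem _ hf⟩ hε0 (E.smul_mem _ hf)
  rw [hs, hs'] at h3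
  have h4 : q f + ε * q' f = ‖f‖ ^ 2 * (‖f‖⁻¹ ^ 2 * q f + ε * (‖f‖⁻¹ ^ 2 * q' f)) := by
    field_simp
  rw [h4]
  exact mul_neg_of_pos_of_neg (by positivity) h3

theorem hier_main {V ι : Type} [Fintype V] [Finite ι] (n : ℕ) (T : ℕ → V → V → ℝ)
    (E : ι → ℕ → Submodule ℝ (V → ℝ))
    (h0 : ∀ a k, k < n → ∀ f ∈ E a k, hier_q T k f ≤ 0)
    (h1 : ∀ a k, k < n → ∀ f ∈ E a k, hier_q T k f = 0 → f ∈ E a (k + 1))
    (hn : ∀ a, ∀ f ∈ E a n, f = 0) (m : ℕ) (hm : m ≤ n) :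
    ∃ ε : ℕ → ℝ, (∀ k, 0 < ε k) ∧ ∀ a, ∀ f ∈ E a (n - m), f ≠ 0 →
      ∑ k ∈ Ico (n - m) n, ε k * hier_q T k f < 0 := by
  induction m with
  | zero => exact ⟨fun _ => 1, fun _ => one_pos, fun a f hf hf0 => absurd (hn a f hf) hf0⟩
  | succ m ih =>
    obtain ⟨ε, hε, hE⟩ := ih (by omega)
    obtain ⟨j, hj1, hj2⟩ : ∃ j, n - (m + 1) = j ∧ n - m = j + 1 := ⟨n - (m + 1), rfl, by omega⟩
    rw [hj1]
    rw [hj2] at hE
    have hjn : j < n := by omega
    have hstep : ∀ a, ∀ᶠ e in nhds (0 : ℝ), 0 < e → ∀ f ∈ E a j, f ≠ 0 →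
        hier_q T j f + e * (∑ k ∈ Ico (j + 1) n, ε k * hier_q T k f) < 0 := by
      intro a
      refine hier_step (hier_q T j) (fun f => ∑ k ∈ Ico (j + 1) n, ε k * hier_q T k f) (hier_cont T j)
        ?_ (hier_smul T j) ?_ (E a j) (h0 a j hjn) ?_
      · exact continuous_finsetSum _ fun k _ => continuous_const.mul (hier_cont T k)
      · intro c f
        rw [mul_sum]
        refine sum_congr rfl fun k _ => ?_
        rw [hier_smul]
        ring
      · intro f hf hf0 hq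
        exact hE a f (h1 a j hjn f hf hq) hf0
    have h2 : ∀ᶠ e in nhdsWithin (0 : ℝ) (Set.Ioi 0), 0 < e ∧ ∀ a, (0 < e → ∀ f ∈ E a j, f ≠ 0 →
        hier_q T j f + e * (∑ k ∈ Ico (j + 1) n, ε k * hier_q T k f) < 0) := by
      filter_upwards [self_mem_nhdsWithin, nhdsWithin_le_nhds (Filter.eventually_all.2 hstep)] with e he1 he2
      exact ⟨he1, he2⟩
    obtain ⟨e, he0, he⟩ := h2.exists
    refine ⟨fun k => if k = j then 1 else e * ε k, ?_, ?_⟩
    · intro k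
      dsimp only
      split_ifs
      · exact one_pos
      · exact mul_pos he0 (hε k)
    · intro a f hf hf0
      have h3 := he a he0 f hf hf0
      rw [sum_eq_sum_Ico_succ_bot hjn]
      dsimp only
      rw [if_pos rfl, one_mul]
      have h4 : ∑ k ∈ Ico (j + 1) n, (if k = j then 1 else e * ε k) * hier_q T k f =
          e * (∑ k ∈ Ico (j + 1) n, ε k * hier_q T k f) := by
        rw [mul_sum]
        refine sum_congr rfl fun k hk => ?_
        rw [if_neg (by rw [mem_Ico] at hk; omega)]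
        ring
      rw [h4]
      exact h3

theorem hier {V ι : Type} [Fintype V] [Finite ι] (n : ℕ) (T : ℕ → V → V → ℝ)
    (E : ι → ℕ → Submodule ℝ (V → ℝ))
    (h0 : ∀ a k, k < n → ∀ f ∈ E a k, ∑ u, ∑ v, f u * f v * T k u v ≤ 0)
    (h1 : ∀ a k, k < n → ∀ f ∈ E a k, ∑ u, ∑ v, f u * f v * T k u v = 0 → f ∈ E a (k + 1))
    (hn : ∀ a, ∀ f ∈ E a n, f = 0) :
    ∃ ε : ℕ → ℝ, (∀ k, 0 < ε k) ∧ ∀ a, ∀ f ∈ E a 0, f ≠ 0 →
      ∑ u, ∑ v, f u * f v * (∑ k ∈ range n, ε k * T k u v) < 0 := by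
  obtain ⟨ε, hε, h⟩ := hier_main n T E h0 h1 hn n le_rfl
  rw [Nat.sub_self] at h
  refine ⟨ε, hε, fun a f hf hf0 => ?_⟩
  have h2 := h a f hf hf0
  have h3 : ∑ u, ∑ v, f u * f v * (∑ k ∈ range n, ε k * T k u v) =
      ∑ k ∈ Ico 0 n, ε k * hier_q T k f := by
    rw [← range_eq_Ico]
    unfold hier_q
    simp only [mul_sum]
    rw [sum_comm]
    refine (sum_congr rfl fun v _ => sum_comm).trans ?_
    rw [sum_comm]
    refine sum_congr rfl fun k _ => ?_
    rw [sum_comm]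
    refine sum_congr rfl fun u _ => sum_congr rfl fun v _ => ?_
    ring
  rw [h3]
  exact h2

end Pool.Agent.H78.RD
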