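import Pool.Agent.H78.RD.LblA

/-!
# Project RC2: adjacency of labels

* `no_pair`: assume `G (A ∪ B)`. By `sep_of_sub` `Sep M A B`. By the cases of `h.fin`:
  (2) `A ∪ B` is connected, contradiction to `Sep M A B` (`Con.exists_adj`).
  (3) `J ∪ K ≠ univ` (`sep_ne`), so `G (J ∪ K)`, contradiction.
  (1) `π` is injective. Let `π z = x⁻¹ y` (`surj`). For `a ∈ A` `π (z a z⁻¹) = x⁻¹ (y π(a) y⁻¹) x = π t`,
  `IsRf M J t`, so `z a z⁻¹ = t ∈ W_J ⊆ W_{J ∪ K}`, `IsRf M J (z a z⁻¹)`; similarly for `b ∈ B`. `loc_par` for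
  `J ∪ K`, `C = A ∪ B` (`J ∪ K ≠ univ`): `u`, `τ`; `m = u⁻¹ z`. For `a ∈ A` `τ a = m a m⁻¹ = u⁻¹ (z a z⁻¹) u` is a
  reflection in `W_J` (`conj_sep` with `u⁻¹`), so `τ a ∈ J` (`mem_of_isRf`); for `b ∈ B` `τ b ∈ K` (with
  `J`, `K` exchanged). Let `C' = (A ∪ B).image τ ⊆ J ∪ K`; `G C'` by `inv` (`rf_image`; `w = m⁻¹`). `C'` meets `J` and
  `K`, so `¬ Sep M J C'` (`M a a = 1`), `G (J ∪ C')` (`J ∪ C' ⊆ J ∪ K ≠ univ`), and `¬ Sep M K (J ∪ C')`,
  `G (K ∪ (J ∪ C')) = G (J ∪ K)`, contradiction.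
* `isLabG_unique`: `lbl_sub_iff`.
* `adj_iffG`: `←` definition, `lbl_sub_iff`. `→`: nested: `lbl_sub_iff`; otherwise the labels are those of
  orthogonal `J'`, `K'` at a chamber `y` with `¬ G (J' ∪ K')`: `Sep M J K` by `sep_of_sub`, and `¬ G (J ∪ K)` by
  `no_pair` for `y, J', K'` and `x, J, K`.
-/

set_option autoImplicit false

open Finset

namespace Pool.Agent.H78.RD

open Pool.Agent.H4.FC Pool.Agent.H78.RC

variable {S : Type} [Fintype S] [DecidableEq S] {Q : Type} [Group Q] [Fintype Q]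
  {M : CoxeterMatrix S} {π : M.Group →* Q} {G : Finset S → Prop}

omit [Fintype S] [DecidableEq S] in
private theorem Lbl_diag (M : CoxeterMatrix S) {J K : Finset S} {s : S} (hs : Sep M J K)
    (h1 : s ∈ J) (h2 : s ∈ K) : False := by
  have h3 := hs s h1 s h2
  rw [M.diagonal] at h3
  omega

omit [Fintype S] [DecidableEq S] in
private theorem Lbl_conj (hinj : Function.Injective π) {x y : Q}
    {z : M.Group} (hz : π z = x⁻¹ * y) {A J : Finset S}
    (h1 : lbl M π y A ⊆ lbl M π x J) {a : S} (ha : a ∈ A) :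
    IsRf M J (z * M.simple a * z⁻¹) := by
  have h2 : IsRf M A (M.simple a) := ⟨1, Subgroup.one_mem _, a, ha, by simp⟩
  obtain ⟨t, ht, he⟩ := mem_lbl.mp (h1 (mem_lbl.mpr ⟨M.simple a, h2, rfl⟩))
  have h3 : π (z * M.simple a * z⁻¹) = π t := by
    rw [map_mul, map_mul, map_inv, hz]
    calc x⁻¹ * y * π (M.simple a) * (x⁻¹ * y)⁻¹
        = x⁻¹ * (y * π (M.simple a) * y⁻¹) * x := by group
      _ = x⁻¹ * (x * π t * x⁻¹) * x := by rw [he]
      _ = π t := by group
  rw [hinj h3]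
  exact ht

theorem no_pair (h : IsBlow M π G) {x : Q} {J K : Finset S} (hJ : G J) (hK : G K)
    (hs : Sep M J K) (hn : ¬ G (J ∪ K)) {y : Q} {A B : Finset S} (hA : G A) (hB : G B)
    (h1 : lbl M π y A ⊆ lbl M π x J) (h2 : lbl M π y B ⊆ lbl M π x K) : ¬ G (A ∪ B) := by
  intro hg
  have pJ := h.bld.proper J hJ
  have pK := h.bld.proper K hK
  have pA := h.bld.proper A hA
  have pB := h.bld.proper B hB
  have nA := h.bld.ne A hA
  have nB := h.bld.ne B hB
  have nJ := h.bld.ne J hJ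
  have nK := h.bld.ne K hK
  have sAB : Sep M A B := sep_of_sub h.quot pA pB pJ pK hs h1 h2
  have hJK : J ∪ K ≠ univ := sep_ne h.quot nJ nK hs
  rcases h.fin with hinj | hcon | hmax
  · obtain ⟨z, hz⟩ := h.quot.surj (x⁻¹ * y)
    have hsym : Sep M K J := blow_sepsymm hs
    have hrA : ∀ a ∈ A, IsRf M J (z * M.simple a * z⁻¹) := fun a ha =>
      Lbl_conj hinj hz h1 ha
    have hrB : ∀ b ∈ B, IsRf M K (z * M.simple b * z⁻¹) := fun b hb =>
      Lbl_conj hinj hz h2 hb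
    obtain ⟨u, hu, τ, hτ⟩ := loc_par M (J := J ∪ K) (C := A ∪ B) (h.quot.fin _ hJK) z
      (fun a ha => by
        rcases mem_union.1 ha with ha | ha
        · exact blow_mem ((hrA a ha).mono subset_union_left)
        · exact blow_mem ((hrB a ha).mono subset_union_right))
    have hconj : ∀ t : M.Group, (u⁻¹ * z) * t * (u⁻¹ * z)⁻¹ = u⁻¹ * (z * t * z⁻¹) * u⁻¹⁻¹ := by
      intro t
      group
    have hτA : ∀ a ∈ A, τ a ∈ J := by
      intro a ha
      have h3 := conj_sep M hs (inv_mem hu) (hrA a ha)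
      rw [← hconj, (hτ a (mem_union_left _ ha)).2] at h3
      exact mem_of_isRf M (h.quot.fin J pJ) h3
    have hτB : ∀ b ∈ B, τ b ∈ K := by
      intro b hb
      have hu' : u ∈ par M (K ∪ J) := by
        rw [union_comm]
        exact hu
      have h3 := conj_sep M hsym (inv_mem hu') (hrB b hb)
      rw [← hconj, (hτ b (mem_union_right _ hb)).2] at h3
      exact mem_of_isRf M (h.quot.fin K pK) h3
    obtain ⟨C, hC⟩ : ∃ C, C = (A ∪ B).image τ := ⟨_, rfl⟩
    have hCsub : C ⊆ J ∪ K := by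
      intro c hc
      rw [hC] at hc
      obtain ⟨a, ha, rfl⟩ := mem_image.1 hc
      exact (hτ a ha).1
    have hCne : C ≠ univ := fun hc => hJK (univ_subset_iff.1 (hc ▸ hCsub))
    have hgC : G C := by
      refine h.bld.inv (A ∪ B) C (u⁻¹ * z)⁻¹ hg hCne fun t => ?_
      rw [inv_inv, hC]
      exact rf_image M (u⁻¹ * z) τ (fun a ha => (hτ a ha).2) t
    obtain ⟨a0, ha0⟩ := nA
    obtain ⟨b0, hb0⟩ := nB
    have hcA : τ a0 ∈ C := by
      rw [hC]
      exact mem_image_of_mem τ (mem_union_left _ ha0)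
    have hcB : τ b0 ∈ C := by
      rw [hC]
      exact mem_image_of_mem τ (mem_union_right _ hb0)
    have hsub1 : J ∪ C ⊆ J ∪ K := union_subset subset_union_left hCsub
    have hg1 : G (J ∪ C) := h.bld.join J C hJ hgC
      (fun hsp => Lbl_diag M hsp (hτA a0 ha0) hcA)
      (fun hc => hJK (univ_subset_iff.1 (hc ▸ hsub1)))
    have heq : K ∪ (J ∪ C) = J ∪ K := by
      apply Subset.antisymm
      · exact union_subset subset_union_right hsub1
      · exact union_subset (subset_union_left.trans subset_union_right) subset_union_left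
    have hg2 : G (K ∪ (J ∪ C)) := h.bld.join K (J ∪ C) hK hg1
      (fun hsp => Lbl_diag M hsp (hτB b0 hb0) (mem_union_right _ hcB))
      (by rw [heq]; exact hJK)
    rw [heq] at hg2
    exact hn hg2
  · have h3 := (hcon _ hg).2 A subset_union_left nA (fun a ha b hb hab => by
      rw [mem_sdiff, mem_union] at hb
      exact hab.2 (sAB a ha b (hb.1.resolve_left hb.2)))
    obtain ⟨b, hb⟩ := nB
    have h4 : b ∈ A ∪ B := mem_union_right _ hb
    rw [← h3] at h4
    exact Lbl_diag M sAB h4 hb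
  · exact hn (hmax (J ∪ K) (nJ.mono subset_union_left) hJK)

theorem isLabG_unique (h : IsBlow M π G) {x : Q} {L : Finset Q} {J K : Finset S}
    (hJ : IsLabG M π G x L J) (hK : IsLabG M π G x L K) : J = K := by
  have pJ := h.bld.proper J hJ.1
  have pK := h.bld.proper K hK.1
  apply Subset.antisymm
  · refine (lbl_sub_iff h.quot x pJ pK).1 ?_
    rw [hJ.2, hK.2]
  · refine (lbl_sub_iff h.quot x pK pJ).1 ?_
    rw [hJ.2, hK.2]

theorem adj_iffG (h : IsBlow M π G) {x : Q} {L L' : Finset Q} {J K : Finset S}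
    (hJ : IsLabG M π G x L J) (hK : IsLabG M π G x L' K) :
    (labGG M π G).Adj L L' ↔ J ≠ K ∧ (J ⊆ K ∨ K ⊆ J ∨ (Sep M J K ∧ ¬ G (J ∪ K))) := by
  have pJ := h.bld.proper J hJ.1
  have pK := h.bld.proper K hK.1
  constructor
  · rintro ⟨hne, hc⟩
    refine ⟨fun hJK => hne (by rw [← hJ.2, ← hK.2, hJK]), ?_⟩
    rcases hc with hc | hc | ⟨y, J', K', h1, h2, h3, h4⟩
    · left
      refine (lbl_sub_iff h.quot x pJ pK).1 ?_
      rw [hJ.2, hK.2]
      exact hc
    · right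
      left
      refine (lbl_sub_iff h.quot x pK pJ).1 ?_
      rw [hJ.2, hK.2]
      exact hc
    · right
      right
      have s1 : lbl M π x J ⊆ lbl M π y J' := by rw [hJ.2, h1.2]
      have s2 : lbl M π x K ⊆ lbl M π y K' := by rw [hK.2, h2.2]
      exact ⟨sep_of_sub h.quot pJ pK (h.bld.proper J' h1.1) (h.bld.proper K' h2.1) h3 s1 s2,
        no_pair h h1.1 h2.1 h3 h4 hJ.1 hK.1 s1 s2⟩
  · rintro ⟨hne, hc⟩
    refine ⟨fun hL => hne (isLabG_unique h hJ (hL ▸ hK)), ?_⟩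
    rcases hc with hc | hc | ⟨h1, h2⟩
    · left
      rw [← hJ.2, ← hK.2]
      exact (lbl_sub_iff h.quot x pJ pK).2 hc
    · right
      left
      rw [← hJ.2, ← hK.2]
      exact (lbl_sub_iff h.quot x pK pJ).2 hc
    · right
      right
      exact ⟨x, J, K, hJ, hK, h1, h2⟩

end Pool.Agent.H78.RD
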