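import Pool.Agent.H78.RD.ParB
import Pool.Agent.H78.RC.Inv

/-!
# Project RC2: labels

* `lbl_union_sub`: for `a ∈ A ∪ B` there is `t_a`, `IsRf M J t_a`, with `y π(a) y⁻¹ = x π(t_a) x⁻¹` (`mem_lbl`;
  `IsRf M A (M.simple a)` for `a ∈ A`: `w = 1`). By `par_induction`: for all `w ∈ par M (A ∪ B)` there is
  `w' ∈ par M J` with `y π(w) y⁻¹ = x π(w') x⁻¹`. So for `t = w s w⁻¹`: `y π(t) y⁻¹ = x π(w' t_s w'⁻¹) x⁻¹`,
  `IsRf.conj`.
* `lbl_disj`: `loc`, `rf_disj`.
* `sep_of_sub`: let `a ∈ A`, `b ∈ B`, `q = y π(a) y⁻¹ ∈ lbl x J`, `q' = y π(b) y⁻¹ ∈ lbl x K`. `a ≠ b` by `lbl_disj`.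
  `q = x π(t) x⁻¹` with root `r ∈ posR M J`, `q' = x π(t') x⁻¹` with root `r' ∈ posR M K` (`exists_root`); `B r r' = 0`
  since the supports are orthogonal (`kR_zero`). By `cQ_conj` (for `x` and for `y`; `IsVec` of `e a`, `e b`:
  `bf_single`, `titsHom_simple`, `refl_mulVec`) `|B (e a) (e b)| = cQ q q' = |B r r'| = 0`, so `kR M a b = 0`, `M a b = 2`
  (`kR_zero`).
* `sep_ne`: if `J ∪ K = univ` then `univ` is not connected (`Con.exists_adj`; the sets are disjoint because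
  `M a a = 1`).
-/

set_option autoImplicit false

open Finset

namespace Pool.Agent.H78.RD

open Pool.Agent.H4.FC Pool.Agent.H78.RC

variable {S : Type} [Fintype S] [DecidableEq S] {Q : Type} [Group Q] [Fintype Q]
  {M : CoxeterMatrix S} {π : M.Group →* Q}

/-- the images of the simple reflections of a face whose label is in the label of `J` -/
private theorem lblA_simple (M : CoxeterMatrix S) (π : M.Group →* Q) (x y : Q) {C J : Finset S}
    (hC : lbl M π y C ⊆ lbl M π x J) {a : S} (ha : a ∈ C) :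
    ∃ t, IsRf M J t ∧ y * π (M.simple a) * y⁻¹ = x * π t * x⁻¹ := by
  have h1 : IsRf M C (M.simple a) := ⟨1, one_mem _, a, ha, by simp⟩
  obtain ⟨t, ht, he⟩ := mem_lbl.1 (hC (mem_lbl.2 ⟨_, h1, rfl⟩))
  exact ⟨t, ht, he⟩

theorem lbl_union_sub (M : CoxeterMatrix S) (π : M.Group →* Q) (x y : Q) {A B J : Finset S}
    (hA : lbl M π y A ⊆ lbl M π x J) (hB : lbl M π y B ⊆ lbl M π x J) :
    lbl M π y (A ∪ B) ⊆ lbl M π x J := by
  have h1 : ∀ a ∈ A ∪ B, ∃ t, IsRf M J t ∧ y * π (M.simple a) * y⁻¹ = x * π t * x⁻¹ := by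
    intro a ha
    rcases mem_union.1 ha with ha | ha
    · exact lblA_simple M π x y hA ha
    · exact lblA_simple M π x y hB ha
  have h2 : ∀ w ∈ par M (A ∪ B), ∃ w' ∈ par M J, y * π w * y⁻¹ = x * π w' * x⁻¹ := by
    refine par_induction M (A ∪ B) ?_ ?_
    · exact ⟨1, one_mem _, by simp⟩
    · rintro v hv w ⟨w', hw', he⟩
      obtain ⟨t, ht, he'⟩ := h1 v hv
      refine ⟨t * w', mul_mem (blow_mem ht) hw', ?_⟩
      rw [map_mul, map_mul]
      calc y * (π (M.simple v) * π w) * y⁻¹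
          = (y * π (M.simple v) * y⁻¹) * (y * π w * y⁻¹) := by group
        _ = (x * π t * x⁻¹) * (x * π w' * x⁻¹) := by rw [he, he']
        _ = x * (π t * π w') * x⁻¹ := by group
  intro q hq
  obtain ⟨t', ⟨w, hw, s, hs, rfl⟩, rfl⟩ := mem_lbl.1 hq
  obtain ⟨w', hw', he⟩ := h2 w hw
  obtain ⟨t, ht, he'⟩ := h1 s hs
  refine mem_lbl.2 ⟨w' * t * w'⁻¹, ht.conj hw', ?_⟩
  rw [map_mul, map_mul, map_inv, map_mul, map_mul, map_inv]
  calc y * (π w * π (M.simple s) * (π w)⁻¹) * y⁻¹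
      = (y * π w * y⁻¹) * (y * π (M.simple s) * y⁻¹) * (y * π w * y⁻¹)⁻¹ := by group
    _ = (x * π w' * x⁻¹) * (x * π t * x⁻¹) * (x * π w' * x⁻¹)⁻¹ := by rw [he, he']
    _ = x * (π w' * π t * (π w')⁻¹) * x⁻¹ := by group

theorem lbl_mono (M : CoxeterMatrix S) (π : M.Group →* Q) (x : Q) {A J : Finset S}
    (h : A ⊆ J) : lbl M π x A ⊆ lbl M π x J := by
  intro q hq
  obtain ⟨t, ht, he⟩ := mem_lbl.1 hq
  exact mem_lbl.2 ⟨t, ht.mono h, he⟩

theorem lbl_disj (h : IsQuot M π) (x : Q) {J K : Finset S} (hJ : J ≠ univ) (hK : K ≠ univ)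
    (hs : Sep M J K) : Disjoint (lbl M π x J) (lbl M π x K) := by
  rw [Finset.disjoint_left]
  intro q h1 h2
  obtain ⟨t, ht, he⟩ := mem_lbl.1 h1
  obtain ⟨t', ht', he'⟩ := mem_lbl.1 h2
  have h3 : π t = π t' := mul_left_cancel (mul_right_cancel (he.symm.trans he'))
  have h4 := h.loc J K hJ hK t t' ht ht' h3
  subst h4
  exact rf_disj M (h.fin J hJ) (h.fin K hK) hs ht ht'

/-- root vectors with orthogonal supports are orthogonal -/
private theorem lblA_orth {J K : Finset S} (hs : Sep M J K) {r r' : S → ℝ}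
    (hr : ∀ i, i ∉ J → r i = 0) (hr' : ∀ i, i ∉ K → r' i = 0) : bf (kR M) r r' = 0 := by
  unfold bf
  refine sum_eq_zero fun u _ => sum_eq_zero fun v _ => ?_
  by_cases hu : u ∈ J
  · by_cases hv : v ∈ K
    · have h1 := hs u hu v hv
      have h2 : u ≠ v := by
        rintro rfl
        rw [M.diagonal u] at h1
        exact absurd h1 (by norm_num)
      rw [(kR_zero M h2).2 h1]
      ring
    · rw [hr' v hv]
      ring
  · rw [hr u hu]
    ring

/-- the simple root is a root vector of the simple reflection -/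
private theorem lblA_vec (M : CoxeterMatrix S) (π : M.Group →* Q) (a : S) :
    IsVec M π (π (M.simple a)) (Pi.single a 1) := by
  refine ⟨by rw [bf_single, kR_self], M.simple a, rfl, fun x => ?_⟩
  have h1 := tits_conj M 1 a x
  rw [one_mul, inv_one, mul_one, map_one, Matrix.one_mulVec] at h1
  exact h1

theorem sep_of_sub (h : IsQuot M π) {x y : Q} {A B J K : Finset S} (hA : A ≠ univ)
    (hB : B ≠ univ) (hJ : J ≠ univ) (hK : K ≠ univ) (hs : Sep M J K)
    (h1 : lbl M π y A ⊆ lbl M π x J) (h2 : lbl M π y B ⊆ lbl M π x K) : Sep M A B := by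
  intro a ha b hb
  obtain ⟨t, ht, he⟩ := lblA_simple M π x y h1 ha
  obtain ⟨t', ht', he'⟩ := lblA_simple M π x y h2 hb
  have hab : a ≠ b := by
    rintro rfl
    have h3 := lbl_disj h x hJ hK hs
    rw [Finset.disjoint_left] at h3
    exact h3 (mem_lbl.2 ⟨t, ht, he⟩) (mem_lbl.2 ⟨t', ht', he'⟩)
  obtain ⟨r, hr, hx⟩ := exists_root M (h.fin J hJ) ht
  obtain ⟨r', hr', hx'⟩ := exists_root M (h.fin K hK) ht'
  have hL : LR (kR M) (fun J => J ≠ univ) (posR M) := LR_posR M (fun J => J ≠ univ) h.fin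
  have hv : IsVec M π (π t) r := ⟨hL.norm J hJ r hr, t, rfl, hx⟩
  have hv' : IsVec M π (π t') r' := ⟨hL.norm K hK r' hr', t', rfl, hx'⟩
  have h3 := cQ_conj h hv hv' x
  rw [lblA_orth hs (hL.supp J hJ r hr) (hL.supp K hK r' hr'), abs_zero, ← he, ← he',
    cQ_conj h (lblA_vec M π a) (lblA_vec M π b) y, bf_single, abs_eq_zero] at h3
  exact (kR_zero M hab).1 h3

theorem sep_ne (h : IsQuot M π) {J K : Finset S} (hJ : J.Nonempty) (hK : K.Nonempty)
    (hs : Sep M J K) : J ∪ K ≠ univ := by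
  intro hu
  have h1 : J = univ := by
    refine h.irr.2 J (subset_univ J) hJ fun a ha b hb hadj => ?_
    have hbK : b ∈ K := by
      have h2 : b ∈ J ∪ K := by rw [hu]; exact mem_univ b
      rcases mem_union.1 h2 with h2 | h2
      · exact absurd h2 (mem_sdiff.1 hb).2
      · exact h2
    exact hadj.2 (hs a ha b hbK)
  obtain ⟨k, hk⟩ := hK
  have h2 := hs k (by rw [h1]; exact mem_univ k) k hk
  rw [M.diagonal k] at h2
  exact absurd h2 (by norm_num)

end Pool.Agent.H78.RD
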