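import Pool.Agent.H78.RD.TK
import Pool.Agent.H78.RC.Nest

/-!
# Project RC2: the levels

* `lev_semi`: by `tk_form`; for `p` with `ck k p` `yk g p.1 = yk g p.2 = 0` (definition of `ek`), so the form is
  `- ∑_p (yk g (p.1 ∪ p.2))²`.
* `lev_next`: so `yk g (p.1 ∪ p.2) = 0` for all `p` with `ck k p`. Let `G C`, `C.card ≤ k + 1`, `y` a chamber.
  If `C.card ≤ k` done. Otherwise `C.card = k + 1 ≥ 2` and `C = A ∪ B` with `G A`, `G B`, `A`, `B` of at most `k`
  elements: if `C` is connected then `A = C.erase s` connected (`Con.exists_erase`), `B = {s}`; otherwise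
  `h.bld.flag` (`A`, `B` disjoint and nonempty). So with `p = (lbl y A, lbl y B)`: `yk g (lbl y A ∪ lbl y B) = 0`. For
  the labels `L = lbl x J` at `x`: `lbl y A ∪ lbl y B ⊆ L ↔ lbl y C ⊆ L` (`lbl_union_sub`, `lbl_mono`), and
  `g L = 0` for all other `L`. So `yk g (lbl y C) = 0`.
* `lev_top`: if `g ≠ 0` let `g L ≠ 0`, `L` the label of the face `J` of `x` with the maximal number of elements.
  If `L ⊆ L'`, `g L' ≠ 0`, `L'` the label of `K`, then `J ⊆ K` (`lbl_sub_iff`), so `J = K` by maximality. So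
  `yk g L = g L ≠ 0`, but `J.card ≤ card S` and `g ∈ ek (card S)`.
-/

set_option autoImplicit false

open Finset

namespace Pool.Agent.H78.RD

open Pool.Agent.H4.FC Pool.Agent.H78.RC

variable {S : Type} [Fintype S] [DecidableEq S] {Q : Type} [Group Q] [Fintype Q]
  {M : CoxeterMatrix S} {π : M.Group →* Q} {G : Finset S → Prop}

/-- functions on the labels of `x` for which the sums `yk` over all labels of rank at most `k` vanish -/
def ek (M : CoxeterMatrix S) (π : M.Group →* Q) (G : Finset S → Prop) (x : Q) (k : ℕ) :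
    Submodule ℝ (Finset Q → ℝ) where
  carrier := {g | (∀ L, L ∉ labFG M π G x → g L = 0) ∧
    ∀ (y : Q) (A : Finset S), G A → A.card ≤ k → yk g (lbl M π y A) = 0}
  add_mem' := by
    rintro f g ⟨h1, h2⟩ ⟨h3, h4⟩
    refine ⟨fun L hL => ?_, fun y A hA hk => ?_⟩
    · rw [Pi.add_apply, h1 L hL, h3 L hL, add_zero]
    · have h5 : yk (f + g) (lbl M π y A) = yk f (lbl M π y A) + yk g (lbl M π y A) := by
        unfold yk
        rw [← Finset.sum_add_distrib]
        rfl
      rw [h5, h2 y A hA hk, h4 y A hA hk, add_zero]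
  zero_mem' := ⟨fun L _ => rfl, fun y A _ _ => by
    unfold yk
    exact Finset.sum_eq_zero fun L _ => rfl⟩
  smul_mem' := by
    rintro c f ⟨h1, h2⟩
    refine ⟨fun L hL => ?_, fun y A hA hk => ?_⟩
    · rw [Pi.smul_apply, h1 L hL, smul_zero]
    · have h5 : yk (c • f) (lbl M π y A) = c * yk f (lbl M π y A) := by
        unfold yk
        rw [Finset.mul_sum]
        rfl
      rw [h5, h2 y A hA hk, mul_zero]

theorem lev_aux1 {x : Q} {k : ℕ} {g : Finset Q → ℝ} (hg : g ∈ ek M π G x k)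
    {p : Finset Q × Finset Q} (hp : ck M π G k p) : yk g p.1 = 0 ∧ yk g p.2 = 0 := by
  obtain ⟨y, A, B, hA, hB, h1, h2, _⟩ := hp
  constructor
  · rw [← h1.2]
    exact hg.2 y A h1.1 hA
  · rw [← h2.2]
    exact hg.2 y B h2.1 hB

theorem lev_semi {x : Q} {k : ℕ} {g : Finset Q → ℝ} (hg : g ∈ ek M π G x k) :
    ∑ u, ∑ v, g u * g v * tk M π G k u v ≤ 0 := by
  classical
  rw [tk_form]
  refine neg_nonpos.2 (Finset.sum_nonneg fun p hp => ?_)
  have h1 := lev_aux1 hg (mem_filter.1 hp).2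
  rw [h1.1, h1.2]
  exact mul_self_nonneg _

open Classical in
theorem lev_aux2 {x : Q} {k : ℕ} {g : Finset Q → ℝ} (hg : g ∈ ek M π G x k)
    (h0 : ∑ u, ∑ v, g u * g v * tk M π G k u v = 0) {p : Finset Q × Finset Q}
    (hp : ck M π G k p) : yk g (p.1 ∪ p.2) = 0 := by
  rw [tk_form, neg_eq_zero, Finset.sum_eq_zero_iff_of_nonneg] at h0
  · have h1 := h0 p (mem_filter.2 ⟨mem_univ _, hp⟩)
    have h2 := lev_aux1 hg hp
    rw [h2.1, h2.2] at h1
    have h3 := mul_self_eq_zero.1 h1
    linarith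
  · intro q hq
    have h1 := lev_aux1 hg (mem_filter.1 hq).2
    rw [h1.1, h1.2]
    exact mul_self_nonneg _

omit [DecidableEq S] in
theorem lev_aux3 {x : Q} {g : Finset Q → ℝ} (hg : ∀ L, L ∉ labFG M π G x → g L = 0)
    {U V : Finset Q} (h : ∀ J, G J → (U ⊆ lbl M π x J ↔ V ⊆ lbl M π x J)) :
    yk g U = yk g V := by
  classical
  unfold yk
  rw [Finset.sum_filter, Finset.sum_filter]
  refine Finset.sum_congr rfl fun L _ => ?_
  by_cases hL : L ∈ labFG M π G x
  · obtain ⟨J, hJ⟩ := mem_labFG.1 hL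
    have h1 := h J hJ.1
    rw [hJ.2] at h1
    by_cases h2 : U ⊆ L
    · rw [if_pos h2, if_pos (h1.1 h2)]
    · rw [if_neg h2, if_neg (fun h3 => h2 (h1.2 h3))]
  · rw [hg L hL, ite_self, ite_self]

omit [Fintype Q] in
theorem lev_aux4 (h : IsBlow M π G) {k : ℕ} (hk : 1 ≤ k) {C : Finset S} (hC : G C)
    (hc : C.card = k + 1) : ∃ A B, G A ∧ G B ∧ A.card ≤ k ∧ B.card ≤ k ∧ A ∪ B = C := by
  by_cases hcon : Con (diag M) C
  · obtain ⟨s, hs, hA⟩ := hcon.exists_erase (by omega)
    refine ⟨C.erase s, {s}, h.bld.con _ (fun h1 => ?_) hA,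
      h.bld.con _ (fun h1 => ?_) (con_single (diag M) s), ?_, ?_, ?_⟩
    · have h2 : s ∈ C.erase s := by
        rw [h1]
        exact mem_univ s
      exact notMem_erase s C h2
    · have h2 : C ⊆ {s} := by
        rw [h1]
        exact subset_univ C
      have h3 := card_le_card h2
      rw [card_singleton] at h3
      omega
    · rw [card_erase_of_mem hs]
      omega
    · rw [card_singleton]
      exact hk
    · rw [union_comm, ← insert_eq, insert_erase hs]
  · obtain ⟨A, B, hA, hB, hd, hu⟩ := h.bld.flag C hC hcon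
    have h1 := card_union_of_disjoint hd
    rw [hu, hc] at h1
    have h2 := card_pos.2 (h.bld.ne A hA)
    have h3 := card_pos.2 (h.bld.ne B hB)
    exact ⟨A, B, hA, hB, by omega, by omega, hu⟩

theorem lev_next (h : IsBlow M π G) {x : Q} {k : ℕ} (hk : 1 ≤ k) {g : Finset Q → ℝ}
    (hg : g ∈ ek M π G x k) (h0 : ∑ u, ∑ v, g u * g v * tk M π G k u v = 0) :
    g ∈ ek M π G x (k + 1) := by
  classical
  refine ⟨hg.1, fun y C hC hck => ?_⟩
  rcases Nat.lt_or_ge k C.card with hlt | hle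
  · obtain ⟨A, B, hA, hB, h1, h2, hu⟩ := lev_aux4 h hk hC (by omega)
    have h3 : ck M π G k (lbl M π y A, lbl M π y B) :=
      ⟨y, A, B, h1, h2, ⟨hA, rfl⟩, ⟨hB, rfl⟩, by rw [hu]; exact hC⟩
    have h4 := lev_aux2 hg h0 h3
    dsimp only at h4
    rw [← h4]
    refine lev_aux3 hg.1 fun J _ => ?_
    constructor
    · intro h5
      refine union_subset ((lbl_mono M π y ?_).trans h5) ((lbl_mono M π y ?_).trans h5)
      · rw [← hu]
        exact subset_union_left
      · rw [← hu]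
        exact subset_union_right
    · intro h5
      rw [← hu]
      exact lbl_union_sub M π x y (subset_union_left.trans h5) (subset_union_right.trans h5)
  · exact hg.2 y C hC hle

theorem lev_top (h : IsBlow M π G) {x : Q} {g : Finset Q → ℝ}
    (hg : g ∈ ek M π G x (Fintype.card S)) : g = 0 := by
  classical
  by_contra hne
  obtain ⟨L, hL⟩ : ∃ L, g L ≠ 0 := by
    by_contra h1
    push Not at h1
    exact hne (funext h1)
  have hlab : ∀ L, g L ≠ 0 → ∃ J, IsLabG M π G x L J := by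
    intro L hL
    by_contra h1
    exact hL (hg.1 L fun h2 => h1 (mem_labFG.1 h2))
  have hset : ((univ : Finset (Finset S)).filter fun J =>
      G J ∧ g (lbl M π x J) ≠ 0).Nonempty := by
    obtain ⟨J, hJ⟩ := hlab L hL
    refine ⟨J, mem_filter.2 ⟨mem_univ _, hJ.1, ?_⟩⟩
    rw [hJ.2]
    exact hL
  obtain ⟨J, hJ, hmax⟩ := exists_max_image _ (fun J => J.card) hset
  have hJ' := (mem_filter.1 hJ).2
  have h1 := hg.2 x J hJ'.1 (card_le_univ J)
  unfold yk at h1
  rw [Finset.sum_eq_single (lbl M π x J)] at h1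
  · exact hJ'.2 h1
  · intro L' hL' hLne
    by_contra h2
    obtain ⟨K, hK⟩ := hlab L' h2
    have h3 : J ⊆ K := by
      refine (lbl_sub_iff h.quot x (h.bld.proper J hJ'.1) (h.bld.proper K hK.1)).1 ?_
      rw [hK.2]
      exact (mem_filter.1 hL').2
    have h4 : K ∈ (univ : Finset (Finset S)).filter fun J => G J ∧ g (lbl M π x J) ≠ 0 := by
      refine mem_filter.2 ⟨mem_univ _, hK.1, ?_⟩
      rw [hK.2]
      exact h2
    have h5 := Finset.eq_of_subset_of_card_le h3 (hmax K h4)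
    apply hLne
    rw [h5, hK.2]
  · intro h2
    exact absurd (mem_filter.2 ⟨mem_univ _, Subset.refl _⟩) h2

end Pool.Agent.H78.RD
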