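import Pool.Agent.H78.RD.Semi
import Pool.Agent.H78.RD.Lev
import Pool.Agent.H78.RC.Main

/-!
# Project RC2: the first level

The model is `Pool/Agent/H78/RC/Main.lean` (`mainPhi`, `main_phi_sum`, `main_sum`, `main_quad`, `main_neg`).

* `sumG`: as `main_sum` (`isLabG_unique`). `quadG`: as `main_quad` (`tQ_lbl` needs only `J ≠ univ`).
* `one_of_yf`: let `G A`, `A.card ≤ 1`, so `A = {a}` and `lbl y A = {q}`, `q = y π(a) y⁻¹` (the only reflection of
  `W_{a}` is `a`: `par M {a} = {1, a}`). If `q` is in no label of `x` then `yk g {q} = 0` (all terms vanish); otherwise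
  `q = x π(t) x⁻¹`, `IsRf M J t`, `G J`, `r ∈ posR M J` the root of `t` (`exists_root`); for all `K` with `G K`:
  `q ∈ lbl x K ↔ IsRf M K t ↔ r ∈ posR M K` (`loc`, `isRf_iff`), so with `sumG`
  `yk g {q} = yf (posR M) F (fun K => g (lbl x K)) r = 0`.
* `tQ_zeroG`: equal or nested: empty sums (unfold `tQ`); orthogonal: `tQ_lbl`, `tl_sepM`.
* `neg_adjG`: let `u`, `v` be the labels of `J`, `K` at `x`; `J`, `K` are not nested (`adj_iffG`); if `J ∪ K = univ`
  then `tQ < 0` by `tl_cover` (with `LR_posR`, `ok J = (J ≠ univ)`, `tQ_lbl`, `kR_zero`); otherwise `G (J ∪ K)`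
  (`adj_iffG`, `join`) and `tk_neg` with `k = card S - 1` (`J.card ≤ card S - 1` since `J ≠ univ`; `card S ≥ 2` as
  `J` is nonempty and proper).
* `tQ_nonposG`: `tQ_lbl`, `tl_nonpos`; or from `tQ` directly if `cQ ≥ 0` (unfold).
-/

set_option autoImplicit false

open Finset

namespace Pool.Agent.H78.RD

open Pool.Agent.H4.FC Pool.Agent.H19.Cub Pool.Agent.H85.Fold Pool.Agent.H78.RC

variable {S : Type} [Fintype S] [DecidableEq S] {Q : Type} [Group Q] [Fintype Q] [DecidableEq Q]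
  {M : CoxeterMatrix S} {π : M.Group →* Q} {G : Finset S → Prop}

/-- the subspace of level zero -/
def e0 (M : CoxeterMatrix S) (π : M.Group →* Q) (G : Finset S → Prop) (F : Finset (Finset S))
    (δ : S → ℝ) (s0 : S) (x : Q) : Submodule ℝ (Finset Q → ℝ) where
  carrier := {f | (∀ L, L ∉ labFG M π G x → f L = 0) ∧
    ∀ i, ∑ L, mainPhi M π F δ s0 x i L * f L = 0}
  add_mem' := by
    rintro f g ⟨h1, h2⟩ ⟨h3, h4⟩
    refine ⟨fun L hL => ?_, fun i => ?_⟩
    · rw [Pi.add_apply, h1 L hL, h3 L hL, add_zero]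
    · have h5 : ∑ L, mainPhi M π F δ s0 x i L * (f + g) L =
          ∑ L, mainPhi M π F δ s0 x i L * f L + ∑ L, mainPhi M π F δ s0 x i L * g L := by
        rw [← Finset.sum_add_distrib]
        exact Finset.sum_congr rfl fun L _ => by rw [Pi.add_apply]; ring
      rw [h5, h2 i, h4 i, add_zero]
  zero_mem' := ⟨fun L _ => rfl, fun i => Finset.sum_eq_zero fun L _ => by
    rw [Pi.zero_apply, mul_zero]⟩
  smul_mem' := by
    rintro c f ⟨h1, h2⟩
    refine ⟨fun L hL => ?_, fun i => ?_⟩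
    · rw [Pi.smul_apply, h1 L hL, smul_zero]
    · have h5 : ∑ L, mainPhi M π F δ s0 x i L * (c • f) L =
          c * ∑ L, mainPhi M π F δ s0 x i L * f L := by
        rw [Finset.mul_sum]
        exact Finset.sum_congr rfl fun L _ => by rw [Pi.smul_apply, smul_eq_mul]; ring
      rw [h5, h2 i, mul_zero]

theorem sumG (h : IsBlow M π G) (F : Finset (Finset S)) (hF : ∀ J, J ∈ F ↔ G J) (x : Q)
    (g : Finset Q → ℝ) (hg : ∀ L, L ∉ labFG M π G x → g L = 0) :
    ∑ L, g L = ∑ J ∈ F, g (lbl M π x J) := by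
  have e1 : ∑ L, g L = ∑ L ∈ labFG M π G x, g L :=
    (Finset.sum_subset (Finset.subset_univ _) fun L _ hL => hg L hL).symm
  have e2 : labFG M π G x = F.image (lbl M π x) := by
    ext L
    rw [mem_labFG, Finset.mem_image]
    constructor
    · rintro ⟨J, h1, h2⟩
      exact ⟨J, (hF J).2 h1, h2⟩
    · rintro ⟨J, h1, h2⟩
      exact ⟨J, (hF J).1 h1, h2⟩
  rw [e1, e2, Finset.sum_image]
  intro J hJ K hK hJK
  exact isLabG_unique h (x := x) (L := lbl M π x K) ⟨(hF J).1 hJ, hJK⟩ ⟨(hF K).1 hK, rfl⟩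

theorem quadG (h : IsBlow M π G) (F : Finset (Finset S)) (hF : ∀ J, J ∈ F ↔ G J) (x : Q)
    (f : Finset Q → ℝ) (hf : ∀ L, L ∉ labFG M π G x → f L = 0) :
    ∑ u, ∑ v, f u * f v * tQ M π u v =
      ∑ J ∈ F, ∑ K ∈ F, f (lbl M π x J) * f (lbl M π x K) * tl (kR M) (posR M) J K := by
  rw [sumG h F hF x (fun u => ∑ v, f u * f v * tQ M π u v)]
  · refine Finset.sum_congr rfl fun J hJ => ?_
    rw [sumG h F hF x (fun v => f (lbl M π x J) * f v * tQ M π (lbl M π x J) v)]
    · refine Finset.sum_congr rfl fun K hK => ?_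
      rw [tQ_lbl h.quot x (h.bld.proper J ((hF J).1 hJ)) (h.bld.proper K ((hF K).1 hK))]
    · intro L hL
      beta_reduce
      rw [hf L hL]
      ring
  · intro L hL
    beta_reduce
    exact Finset.sum_eq_zero fun v _ => by rw [hf L hL]; ring

theorem mainA_par_single (M : CoxeterMatrix S) (a : S) {w : M.Group} (hw : w ∈ par M {a}) :
    w = 1 ∨ w = M.simple a := by
  refine par_induction M {a} (p := fun w => w = 1 ∨ w = M.simple a) (Or.inl rfl) ?_ w hw
  intro v hv w hw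
  rw [Finset.mem_singleton] at hv
  subst hv
  rcases hw with rfl | rfl
  · exact Or.inr (mul_one _)
  · exact Or.inl (simple_sq M v)

theorem mainA_lbl_single (M : CoxeterMatrix S) (π : M.Group →* Q) (y : Q) (a : S) :
    lbl M π y {a} = {y * π (M.simple a) * y⁻¹} := by
  ext q
  rw [mem_lbl, Finset.mem_singleton]
  constructor
  · rintro ⟨t, ⟨w, hw, s, hs, rfl⟩, rfl⟩
    rw [Finset.mem_singleton] at hs
    subst hs
    rcases mainA_par_single M s hw with rfl | rfl
    · rw [one_mul, inv_one, mul_one]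
    · rw [simple_inv, simple_sq, one_mul]
  · rintro rfl
    exact ⟨M.simple a, ⟨1, Subgroup.one_mem _, a, Finset.mem_singleton_self a, by simp⟩, rfl⟩

theorem one_of_yf (h : IsBlow M π G) (F : Finset (Finset S)) (hF : ∀ J, J ∈ F ↔ G J) (x : Q)
    (g : Finset Q → ℝ) (hg : ∀ L, L ∉ labFG M π G x → g L = 0)
    (h0 : ∀ J ∈ F, ∀ r ∈ posR M J, yf (posR M) F (fun K => g (lbl M π x K)) r = 0) :
    g ∈ ek M π G x 1 := by
  classical
  refine ⟨hg, fun y A hA hk => ?_⟩
  obtain ⟨a, rfl⟩ : ∃ a, A = {a} :=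
    Finset.card_eq_one.1 (le_antisymm hk (Finset.card_pos.2 (h.bld.ne A hA)))
  unfold yk
  rw [mainA_lbl_single, Finset.sum_filter]
  set q : Q := y * π (M.simple a) * y⁻¹ with hq
  have e1 : (∑ L : Finset Q, if ({q} : Finset Q) ⊆ L then g L else 0) =
      ∑ J ∈ F, if q ∈ lbl M π x J then g (lbl M π x J) else 0 := by
    have e2 := sumG h F hF x (fun L => if ({q} : Finset Q) ⊆ L then g L else 0) (fun L hL => by
      beta_reduce
      rw [hg L hL, ite_self])
    beta_reduce at e2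
    rw [e2]
    refine Finset.sum_congr rfl fun J _ => ?_
    simp only [Finset.singleton_subset_iff]
  refine Eq.trans (Finset.sum_congr rfl fun L _ => ?_) (e1.trans ?_)
  · by_cases hL : ({q} : Finset Q) ⊆ L
    · rw [if_pos hL, if_pos hL]
    · rw [if_neg hL, if_neg hL]
  by_cases hex : ∃ J ∈ F, q ∈ lbl M π x J
  · obtain ⟨J, hJ, hqJ⟩ := hex
    obtain ⟨t, ht, hqt⟩ := mem_lbl.1 hqJ
    have hJu := h.bld.proper J ((hF J).1 hJ)
    obtain ⟨r, hr, hx⟩ := exists_root M (h.quot.fin J hJu) ht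
    have h1 := h0 J hJ r hr
    unfold yf at h1
    rw [Finset.sum_filter] at h1
    refine Eq.trans (Finset.sum_congr rfl fun K hK => ?_) h1
    have hKu := h.bld.proper K ((hF K).1 hK)
    have h2 : q ∈ lbl M π x K ↔ r ∈ posR M K := by
      rw [← isRf_iff M (h.quot.fin J hJu) (h.quot.fin K hKu) ht hr hx, mem_lbl]
      constructor
      · rintro ⟨t', ht', hqt'⟩
        have h3 : π t = π t' := by
          rw [hqt] at hqt'
          exact mul_left_cancel (mul_right_cancel hqt')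
        rw [h.quot.loc J K hJu hKu t t' ht ht' h3]
        exact ht'
      · intro ht'
        exact ⟨t, ht', hqt⟩
    simp only [h2]
  · refine Finset.sum_eq_zero fun J hJ => ?_
    rw [if_neg fun hq' => hex ⟨J, hJ, hq'⟩]

omit [DecidableEq Q] in
theorem mainA_tQ_sub (M : CoxeterMatrix S) (π : M.Group →* Q) {A B : Finset Q} (hAB : A ⊆ B) :
    tQ M π A B = 0 := by
  classical
  unfold tQ
  rw [Finset.sdiff_eq_empty_iff_subset.mpr hAB, Finset.sum_empty, neg_zero]

theorem tQ_zeroG (h : IsBlow M π G) {L L' : Finset Q}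
    (hL : L = L' ∨ (labGG M π G).Adj L L') : tQ M π L L' = 0 := by
  rcases hL with rfl | ⟨-, h1 | h1 | ⟨x, J, K, hJ, hK, hs, -⟩⟩
  · exact mainA_tQ_sub M π (Finset.Subset.refl L)
  · exact mainA_tQ_sub M π h1
  · rw [tQ_symm h.quot]
    exact mainA_tQ_sub M π h1
  · rw [← hJ.2, ← hK.2, tQ_lbl h.quot x (h.bld.proper J hJ.1) (h.bld.proper K hK.1)]
    exact tl_sepM h.quot (h.bld.proper J hJ.1) (h.bld.proper K hK.1) hs

theorem tQ_nonposG (h : IsBlow M π G) {x : Q} {u v : Finset Q} (hu : u ∈ labFG M π G x)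
    (hv : v ∈ labFG M π G x) : tQ M π u v ≤ 0 := by
  obtain ⟨J, hJ⟩ := mem_labFG.1 hu
  obtain ⟨K, hK⟩ := mem_labFG.1 hv
  rw [← hJ.2, ← hK.2, tQ_lbl h.quot x (h.bld.proper J hJ.1) (h.bld.proper K hK.1)]
  exact tl_nonpos _ _ J K

theorem mainA_card {J : Finset S} (hJ : J ≠ univ) : J.card < Fintype.card S := by
  rw [← Finset.card_univ]
  exact Finset.card_lt_card ((Finset.subset_univ J).ssubset_of_ne hJ)

theorem neg_adjG (h : IsBlow M π G) {x : Q} {u v : Finset Q} (hu : u ∈ labFG M π G x)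
    (hv : v ∈ labFG M π G x) (huv : u ≠ v) (hn : ¬ (labGG M π G).Adj u v) :
    tQ M π u v < 0 ∨ (2 ≤ Fintype.card S ∧ tk M π G (Fintype.card S - 1) u v < 0) := by
  obtain ⟨J, hJ⟩ := mem_labFG.1 hu
  obtain ⟨K, hK⟩ := mem_labFG.1 hv
  have hJu := h.bld.proper J hJ.1
  have hKu := h.bld.proper K hK.1
  have hJK : J ≠ K := by
    rintro rfl
    exact huv (hJ.2.symm.trans hK.2)
  have h1 : ¬ (J ≠ K ∧ (J ⊆ K ∨ K ⊆ J ∨ (Sep M J K ∧ ¬ G (J ∪ K)))) := fun h2 =>
    hn ((adj_iffG h hJ hK).2 h2)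
  have h2 : ¬ J ⊆ K := fun h3 => h1 ⟨hJK, Or.inl h3⟩
  have h3 : ¬ K ⊆ J := fun h4 => h1 ⟨hJK, Or.inr (Or.inl h4)⟩
  by_cases hU : J ∪ K = univ
  · left
    rw [← hJ.2, ← hK.2, tQ_lbl h.quot x hJu hKu]
    refine tl_cover (ok := fun J => J ≠ univ) (D := diag M)
      (LR_posR M (fun J => J ≠ univ) h.quot.fin) ?_ ?_ h.quot.irr hJu hKu hU h2 h3
    · rintro A B hA hBA rfl
      exact hA (Finset.univ_subset_iff.1 hBA)
    · intro a b
      constructor
      · intro hab
        exact ⟨hab.1, fun h4 => hab.2 ((kR_zero M hab.1).mp h4)⟩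
      · intro hab
        exact ⟨hab.1, fun h4 => hab.2 ((kR_zero M hab.1).mpr h4)⟩
  · right
    have hG : G (J ∪ K) := by
      by_cases hs : Sep M J K
      · by_contra hG
        exact h1 ⟨hJK, Or.inr (Or.inr ⟨hs, hG⟩)⟩
      · exact h.bld.join J K hJ.1 hK.1 hs hU
    have c1 := mainA_card hJu
    have c2 := mainA_card hKu
    have c3 := Finset.card_pos.2 (h.bld.ne J hJ.1)
    refine ⟨by omega, tk_neg hJ hK hG (by omega) (by omega) ?_ ?_⟩
    · rw [← hJ.2, ← hK.2, lbl_sub_iff h.quot x hJu hKu]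
      exact h2
    · rw [← hJ.2, ← hK.2, lbl_sub_iff h.quot x hKu hJu]
      exact h3

end Pool.Agent.H78.RD
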