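import Pool.Agent.H78.RD.Sph
import Pool.Agent.H78.RD.MainA
import Pool.Agent.H78.RD.Hier
import Pool.Agent.H78.RD.Blow

/-!
# Project RC2: the main theorem

The model is `Pool/Agent/H78/RC/Main.lean`.

* `exists_foldG`: let `δ`, `s0` be as in `semi_loc`, `F = {J | G J}`, `T 0 = tQ M π`, `T k = tk M π G k` for
  `k ≥ 1`, `n = card S`, `E x 0 = e0 M π G F δ s0 x`, `E x k = ek M π G x k` for `k ≥ 1`. Hypotheses of `hier`:
  `k = 0`: `quadG`, `semi_loc` (with `main_phi_sum`), `one_of_yf`. `k ≥ 1`: `lev_semi`, `lev_next`. `hn`: `lev_top`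
  (`n = card S ≥ 1`, as `S` is nonempty by `irr`). Let `T = ∑_{k < n} ε_k T_k`; it is symmetric (`tQ_symm`, `tk_symm`),
  zero for equal or adjacent labels (`tQ_zeroG`, `tk_zero`), negative for labels of `x` which are not adjacent: all
  `T_k ≤ 0` (`tQ_nonposG`, `tk_nonpos`), and one is negative (`neg_adjG`; `k = 0` or `k = n - 1 ≥ 1`).
  `exists_int` with the subspaces `E x 0` gives `T'`. `IsFoldOn` as in `exists_fold` (sphere: `lab_sphereG`).
* `blowupG_over`: as `blowup_over`.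
-/

set_option autoImplicit false

open Finset

namespace Pool.Agent.H78.RD

open Pool.Agent.H4.FC Pool.Agent.H19.Cub Pool.Agent.H85.Fold Pool.Agent.H78.RC

variable {S : Type} [Fintype S] [DecidableEq S] {Q : Type} [Group Q] [Fintype Q] [DecidableEq Q]
  {M : CoxeterMatrix S} {π : M.Group →* Q} {G : Finset S → Prop}

/-- the matrices of the hierarchy -/
noncomputable def mainT (M : CoxeterMatrix S) (π : M.Group →* Q) (G : Finset S → Prop) :
    ℕ → Finset Q → Finset Q → ℝ
  | 0 => tQ M π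
  | k + 1 => tk M π G (k + 1)

/-- the subspaces of the hierarchy -/
def mainEG (M : CoxeterMatrix S) (π : M.Group →* Q) (G : Finset S → Prop)
    (F : Finset (Finset S)) (δ : S → ℝ) (s0 : S) (x : Q) : ℕ → Submodule ℝ (Finset Q → ℝ)
  | 0 => e0 M π G F δ s0 x
  | k + 1 => ek M π G x (k + 1)

theorem main_semiG (h : IsBlow M π G) (F : Finset (Finset S)) (hF : ∀ J, J ∈ F ↔ G J)
    {δ : S → ℝ} {s0 : S}
    (hloc : ∀ F : Finset (Finset S), (∀ J ∈ F, J ≠ univ) → ∀ f : Finset S → ℝ,
      (∀ i, zf (posR M) F f i * δ s0 = δ i * zf (posR M) F f s0) →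
      (∑ J ∈ F, ∑ K ∈ F, f J * f K * tl (kR M) (posR M) J K ≤ 0 ∧
        (∑ J ∈ F, ∑ K ∈ F, f J * f K * tl (kR M) (posR M) J K = 0 →
          ∀ J ∈ F, ∀ r ∈ posR M J, yf (posR M) F f r = 0)))
    (x : Q) {f : Finset Q → ℝ} (hf : f ∈ e0 M π G F δ s0 x) :
    ∑ u, ∑ v, f u * f v * tQ M π u v ≤ 0 ∧
      (∑ u, ∑ v, f u * f v * tQ M π u v = 0 → f ∈ ek M π G x 1) := by
  obtain ⟨hf1, hf2⟩ := hf
  have h1 := hloc F (fun J hJ => h.bld.proper J ((hF J).1 hJ)) (fun J => f (lbl M π x J)) (by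
    intro i
    have h5 := hf2 i
    rw [main_phi_sum] at h5
    exact sub_eq_zero.1 h5)
  rw [quadG h F hF x f hf1]
  exact ⟨h1.1, fun h2 => one_of_yf h F hF x f hf1 (h1.2 h2)⟩

theorem main_TzeroG (h : IsBlow M π G) (k : ℕ) {L L' : Finset Q}
    (hL : L = L' ∨ (labGG M π G).Adj L L') : mainT M π G k L L' = 0 := by
  cases k with
  | zero => exact tQ_zeroG h hL
  | succ k => exact tk_zero h (k + 1) hL

omit [DecidableEq Q] in
theorem main_TsymmG (h : IsBlow M π G) (k : ℕ) (L L' : Finset Q) :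
    mainT M π G k L L' = mainT M π G k L' L := by
  cases k with
  | zero => exact tQ_symm h.quot L L'
  | succ k => exact tk_symm M π G (k + 1) L L'

theorem main_TnonposG (h : IsBlow M π G) (k : ℕ) {x : Q} {u v : Finset Q}
    (hu : u ∈ labFG M π G x) (hv : v ∈ labFG M π G x) : mainT M π G k u v ≤ 0 := by
  cases k with
  | zero => exact tQ_nonposG h hu hv
  | succ k => exact tk_nonpos M π G (k + 1) u v

theorem exists_foldG (h : IsBlow M π G) : ∃ T' : Finset Q → Finset Q → ℤ,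
    IsT (labGG M π G) T' ∧
      ∀ x, IsFoldOn (labGG M π G) T' (Fintype.card S - 1) (labFG M π G x) := by
  classical
  obtain ⟨δ, s0, hδ, hloc⟩ := semi_loc M h.quot
  obtain ⟨F, hF⟩ : ∃ F : Finset (Finset S), ∀ J, J ∈ F ↔ G J :=
    ⟨univ.filter fun J => G J, fun J => by
      rw [Finset.mem_filter]
      exact ⟨fun h1 => h1.2, fun h1 => ⟨Finset.mem_univ _, h1⟩⟩⟩
  have hcard : 1 ≤ Fintype.card S := Fintype.card_pos_iff.2 ⟨s0⟩
  obtain ⟨ε, hε, hneg⟩ := hier (V := Finset Q) (ι := Q) (Fintype.card S) (mainT M π G)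
    (fun x => mainEG M π G F δ s0 x)
    (by
      intro x k _ f hf
      cases k with
      | zero => exact (main_semiG h F hF hloc x hf).1
      | succ k => exact lev_semi hf)
    (by
      intro x k _ f hf h0
      cases k with
      | zero => exact (main_semiG h F hF hloc x hf).2 h0
      | succ k => exact lev_next h (Nat.succ_le_succ (Nat.zero_le k)) hf h0)
    (by
      intro x f hf
      obtain ⟨m, hm⟩ : ∃ m, Fintype.card S = m + 1 := ⟨Fintype.card S - 1, by omega⟩
      have hf' : f ∈ mainEG M π G F δ s0 x (Fintype.card S) := hf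
      rw [hm] at hf'
      have hf2 : f ∈ ek M π G x (m + 1) := hf'
      rw [← hm] at hf2
      exact lev_top h hf2)
  obtain ⟨T', h1, h2, h3, h4⟩ := exists_int (V := Finset Q) (ι := Q)
    (fun u v => ∑ k ∈ range (Fintype.card S), ε k * mainT M π G k u v)
    (fun u v => Finset.sum_congr rfl fun k _ => by rw [main_TsymmG h k u v])
    (fun x => e0 M π G F δ s0 x) (fun x f hf hf0 => hneg x f hf hf0)
  refine ⟨T', ⟨h1, fun u v huv => h2 u v (Finset.sum_eq_zero fun k _ => by
    rw [main_TzeroG h k huv, mul_zero])⟩, fun x => ⟨lab_sphereG h x, ?_, ?_⟩⟩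
  · intro u hu v hv huv hn
    apply h3 u v
    have hle : ∀ k ∈ range (Fintype.card S), ε k * mainT M π G k u v ≤ 0 := fun k _ =>
      mul_nonpos_of_nonneg_of_nonpos (hε k).le (main_TnonposG h k hu hv)
    rcases neg_adjG h hu hv huv hn with h5 | ⟨h5, h6⟩
    · refine Finset.sum_neg' hle ⟨0, Finset.mem_range.2 (by omega), ?_⟩
      exact mul_neg_of_pos_of_neg (hε 0) h5
    · refine Finset.sum_neg' hle ⟨Fintype.card S - 1, Finset.mem_range.2 (by omega), ?_⟩
      obtain ⟨m, hm⟩ : ∃ m, Fintype.card S - 1 = m + 1 := ⟨Fintype.card S - 2, by omega⟩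
      rw [hm] at h6 ⊢
      exact mul_neg_of_pos_of_neg (hε _) h6
  · have hc : Fintype.card {i : S // i ≠ s0} = Fintype.card S - 1 := by
      rw [Fintype.card_subtype_compl, Fintype.card_subtype_eq]
    let e : Fin (Fintype.card S - 1) ≃ {i : S // i ≠ s0} :=
      (Fintype.equivFinOfCardEq hc).symm
    refine ⟨fun k => mainPhi M π F δ s0 x (e k).1, fun f hf hf0 hk => h4 x f ⟨?_, ?_⟩ hf0⟩
    · intro L hL
      by_contra hn
      exact hL (hf L hn)
    · intro i
      by_cases hi : i = s0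
      · rw [hi, main_phi_sum]
        ring
      · have h5 := hk (e.symm ⟨i, hi⟩)
        beta_reduce at h5
        rw [Equiv.apply_symm_apply] at h5
        exact h5

/-- **Singer's conjecture for the blow-ups of reflection arrangements.** -/
theorem blowupG_over (M : CoxeterMatrix S) (π : M.Group →* Q) (G : Finset S → Prop)
    (h : IsBlow M π G) {X : Type} [Fintype X] (C : CubeComplex (Finset Q) X)
    (hG : C.graph = (blowupG M π G h).graph) (r : X → Q)
    (hr : ∀ x, C.lab x ⊆ (blowupG M π G h).lab (r x)) (i : ℕ)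
    (hi : Fintype.card S - 1 < 2 * i ∨
      (∀ x, C.lab x = (blowupG M π G h).lab (r x)) ∧ 2 * i ≠ Fintype.card S - 1) (x : X) :
    Pool.Agent.H19.Cub.L2HomologyZero (C.cover x) i := by
  obtain ⟨T', h1, h2⟩ := exists_foldG h
  have hG' : C.graph = labGG M π G := hG
  refine CubeComplex.general C T' (hG' ▸ h1) i (fun y => ?_) x
  rw [hG']
  rcases hi with hi | ⟨hi, hi'⟩
  · exact ⟨Fintype.card S - 1, _, h2 (r y), Or.inl ⟨hr y, hi⟩⟩
  · exact ⟨Fintype.card S - 1, _, h2 (r y), Or.inr ⟨hi y, hi'⟩⟩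

end Pool.Agent.H78.RD
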