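import Pool.Agent.H78.RD.Defs

/-!
# Project RC2: parabolic subgroups inside parabolic subgroups

Notation: `T w x = (titsHom M w).mulVec x`, `e s = Pi.single s 1`, `B = bf (kR M)`.

* `isRf_of_mem`: `t = w s w⁻¹ ∈ W_J`. `T (t) x = x - B r x • r`, `r = T (w) (e s)` (`tits_conj`), `B r r = 2`, so
  `T (t) r = - r`; by `tits_par` `T (t) r` and `r` have the same coordinates outside `J`, so the support of `r` is
  in `J`. `tits_sign`: `r ≥ 0` or `r ≤ 0`, in the second case replace `w` by `w s` (`r` by `- r`, same `t`).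
  `root_par`: `r = T (w') (e s')`, `w' ∈ W_J`, `s' ∈ J`, so `t = w' s' w'⁻¹` (`tits_conj`, `rf_unique`).
* `loc_par`: among the elements `u⁻¹ z`, `u ∈ W_J`, let `m` have minimal length. For `j ∈ J` `ℓ (j m) > ℓ (m)`,
  so `j` is not a left descent of `m`, i.e. not a right descent of `m⁻¹`, and `T (m⁻¹) (e j) ≥ 0` (`tits_pos`);
  hence `T (m⁻¹) r ≥ 0` for all `r ≥ 0` with support in `J`. Let `a ∈ C`, `r = T (m) (e a)`. `m a m⁻¹ ∈ W_J` is a
  reflection with root `± r`, so the support of `r` is in `J` (as in `isRf_of_mem`), `r ≥ 0` or `r ≤ 0`. If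
  `r ≤ 0` then `T (m⁻¹) (- r) = - e a` would be `≥ 0`. So `r ≥ 0`, `r = ∑_{j ∈ J} r_j e_j`,
  `e a = T (m⁻¹) r = ∑ r_j T (m⁻¹) (e j)`, all terms `≥ 0`, so for `r_j > 0` `T (m⁻¹) (e j)` is a multiple of
  `e a`, hence equal to `e a` (norm `2`, `≥ 0`), so `r = T (m) (e a) = e j`: `τ a = j`, and
  `m a m⁻¹ = j` (`tits_conj`, `rf_unique`).
* `rf_image`: `v ↦ m v m⁻¹` maps `par M A` onto `par M (A.image τ)` (`par_induction` in both directions).
-/

set_option autoImplicit false

open Finset

namespace Pool.Agent.H78.RD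

open Pool.Agent.H4.FC Pool.Agent.H78.RC

variable {S : Type} [Fintype S] [DecidableEq S]

private theorem parA_mul (M : CoxeterMatrix S) (w v : M.Group) (x : S → ℝ) :
    (titsHom M (w * v)).mulVec x = (titsHom M w).mulVec ((titsHom M v).mulVec x) := by
  rw [map_mul, Matrix.mulVec_mulVec]

private theorem parA_simple (M : CoxeterMatrix S) (j : S) (x : S → ℝ) :
    (titsHom M (M.simple j)).mulVec x =
      x - bf (kR M) (Pi.single j 1) x • (Pi.single j 1 : S → ℝ) := by
  have h := titsHom_simple M j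
  rw [M.toCoxeterSystem_simple] at h
  rw [h, refl_mulVec, bf_single_left]

private theorem parA_norm (M : CoxeterMatrix S) (w : M.Group) (s : S) :
    bf (kR M) ((titsHom M w).mulVec (Pi.single s 1)) ((titsHom M w).mulVec (Pi.single s 1)) =
      2 := by
  rw [bf_tits, bf_single, kR_self]

/-- a nonnegative vector of norm `2` which vanishes outside of `s` is `e s` -/
private theorem parA_single (M : CoxeterMatrix S) {r : S → ℝ} (h0 : ∀ i, 0 ≤ r i)
    (hn : bf (kR M) r r = 2) {s : S} (h : ∀ i, i ≠ s → r i = 0) : r = Pi.single s 1 := by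
  have h1 : r = r s • (Pi.single s 1 : S → ℝ) := by
    funext i
    rw [Pi.smul_apply, smul_eq_mul]
    by_cases hi : i = s
    · rw [hi, Pi.single_eq_same, mul_one]
    · rw [Pi.single_eq_of_ne hi, mul_zero, h i hi]
  have h2 : r s = 1 := by
    have h3 := hn
    rw [h1, bf_smul_left, bf_smul_right, bf_single, kR_self] at h3
    nlinarith [h0 s]
  rw [h2, one_smul] at h1
  exact h1

/-- the support of the root of a reflection which lies in `W_J` is in `J` -/
private theorem parA_supp (M : CoxeterMatrix S) {J : Finset S} {w : M.Group} {s : S}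
    (h : w * M.simple s * w⁻¹ ∈ par M J) {i : S} (hi : i ∉ J) :
    (titsHom M w).mulVec (Pi.single s 1) i = 0 := by
  have h1 := tits_par M h ((titsHom M w).mulVec (Pi.single s 1)) hi
  rw [tits_conj, parA_norm, Pi.sub_apply, Pi.smul_apply, smul_eq_mul] at h1
  linarith

private theorem parA_pos (M : CoxeterMatrix S) {J : Finset S} {w : M.Group} {s : S}
    (h : w * M.simple s * w⁻¹ ∈ par M J)
    (h0 : ∀ i, 0 ≤ (titsHom M w).mulVec (Pi.single s 1) i) :
    IsRf M J (w * M.simple s * w⁻¹) := by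
  obtain ⟨w', hw', s', hs', he⟩ := root_par M w s _ rfl h0 (fun i hi => parA_supp M h hi)
  refine ⟨w', hw', s', hs', rf_unique M fun x => ?_⟩
  rw [tits_conj, tits_conj, he]

omit [Fintype S] [DecidableEq S] in
private theorem parA_flip (M : CoxeterMatrix S) (w : M.Group) (s : S) :
    w * M.simple s * M.simple s * (w * M.simple s)⁻¹ = w * M.simple s * w⁻¹ := by
  rw [mul_assoc w, simple_sq, mul_one, mul_inv_rev, simple_inv, mul_assoc]

theorem isRf_of_mem (M : CoxeterMatrix S) {J : Finset S} (hJ : Sph M J) {w : M.Group} {s : S}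
    (h : w * M.simple s * w⁻¹ ∈ par M J) : IsRf M J (w * M.simple s * w⁻¹) := by
  rcases tits_sign M w s with h0 | h0
  · exact parA_pos M h h0
  · rw [← parA_flip]
    refine parA_pos M ?_ fun i => ?_
    · rw [parA_flip]
      exact h
    · have h1 : (titsHom M (w * M.simple s)).mulVec (Pi.single s 1) =
          -(titsHom M w).mulVec (Pi.single s 1) := by
        rw [parA_mul, parA_simple, bf_single, kR_self, two_smul, sub_add_cancel_left,
          Matrix.mulVec_neg]
      rw [h1, Pi.neg_apply]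
      linarith [h0 i]

/-- the expansion of `T (v) r` in the images of the simple roots -/
private theorem parA_sum (M : CoxeterMatrix S) (v : M.Group) (r : S → ℝ) (i : S) :
    (titsHom M v).mulVec r i = ∑ j, r j * (titsHom M v).mulVec (Pi.single j 1) i := by
  rw [Matrix.mulVec_eq_sum]
  rw [Finset.sum_apply]
  refine sum_congr rfl fun j _ => ?_
  rw [Matrix.mulVec_single_one]
  simp [mul_comm]

private theorem parA_key (M : CoxeterMatrix S) {J : Finset S} {m : M.Group}
    (hm : ∀ j ∈ J, ∀ i, 0 ≤ (titsHom M m⁻¹).mulVec (Pi.single j 1) i) {a : S}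
    (ha : m * M.simple a * m⁻¹ ∈ par M J) : ∃ j ∈ J, m * M.simple a * m⁻¹ = M.simple j := by
  obtain ⟨r, hr⟩ : ∃ r, r = (titsHom M m).mulVec (Pi.single a (1 : ℝ)) := ⟨_, rfl⟩
  have hsupp : ∀ i, i ∉ J → r i = 0 := by
    intro i hi
    rw [hr]
    exact parA_supp M ha hi
  have hback : (titsHom M m⁻¹).mulVec r = Pi.single a 1 := by
    rw [hr, ← parA_mul, inv_mul_cancel, map_one, Matrix.one_mulVec]
  have hsum : ∀ i, ∑ j, r j * (titsHom M m⁻¹).mulVec (Pi.single j 1) i =
      (Pi.single a 1 : S → ℝ) i := by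
    intro i
    rw [← parA_sum, hback]
  have hr0 : ∀ i, 0 ≤ r i := by
    rcases tits_sign M m a with h | h
    · intro i
      rw [hr]
      exact h i
    · exfalso
      have h1 := hsum a
      rw [Pi.single_eq_same] at h1
      have h2 : ∑ j, r j * (titsHom M m⁻¹).mulVec (Pi.single j 1) a ≤ 0 := by
        refine sum_nonpos fun j _ => ?_
        by_cases hj : j ∈ J
        · refine mul_nonpos_of_nonpos_of_nonneg ?_ (hm j hj a)
          rw [hr]
          exact h j
        · rw [hsupp j hj, zero_mul]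
      linarith
  have hterm : ∀ i j, 0 ≤ r j * (titsHom M m⁻¹).mulVec (Pi.single j 1) i := by
    intro i j
    by_cases hj : j ∈ J
    · exact mul_nonneg (hr0 j) (hm j hj i)
    · rw [hsupp j hj, zero_mul]
  obtain ⟨j, hj⟩ : ∃ j, r j ≠ 0 := by
    by_contra hcon
    push Not at hcon
    have h1 := hsum a
    rw [Pi.single_eq_same] at h1
    have h2 : ∑ j, r j * (titsHom M m⁻¹).mulVec (Pi.single j 1) a = 0 :=
      sum_eq_zero fun j _ => by rw [hcon j, zero_mul]
    linarith
  have hjJ : j ∈ J := by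
    by_contra h
    exact hj (hsupp j h)
  have hTj : (titsHom M m⁻¹).mulVec (Pi.single j 1) = (Pi.single a 1 : S → ℝ) := by
    refine parA_single M (hm j hjJ) (parA_norm M m⁻¹ j) fun i hi => ?_
    have h1 := hsum i
    rw [Pi.single_eq_of_ne hi] at h1
    have h2 := (sum_eq_zero_iff_of_nonneg fun j _ => hterm i j).mp h1 j (mem_univ j)
    exact (mul_eq_zero.mp h2).resolve_left hj
  have hTa : (titsHom M m).mulVec (Pi.single a 1) = (Pi.single j 1 : S → ℝ) := by
    rw [← hTj, ← parA_mul, mul_inv_cancel, map_one, Matrix.one_mulVec]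
  refine ⟨j, hjJ, rf_unique M fun x => ?_⟩
  rw [tits_conj, hTa, parA_simple]

theorem loc_par (M : CoxeterMatrix S) {J C : Finset S} (hJ : Sph M J) (z : M.Group)
    (h : ∀ a ∈ C, z * M.simple a * z⁻¹ ∈ par M J) :
    ∃ u ∈ par M J, ∃ τ : S → S, ∀ a ∈ C, τ a ∈ J ∧
      (u⁻¹ * z) * M.simple a * (u⁻¹ * z)⁻¹ = M.simple (τ a) := by
  classical
  obtain ⟨u, hu, hmin⟩ := (measure fun u : M.Group =>
    M.toCoxeterSystem.length (u⁻¹ * z)).wf.has_min (par M J : Set M.Group) ⟨1, one_mem _⟩
  have hu' : u ∈ par M J := hu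
  have hm : ∀ j ∈ J, ∀ i, 0 ≤ (titsHom M (u⁻¹ * z)⁻¹).mulVec (Pi.single j 1) i := by
    intro j hj
    refine tits_pos M _ j ?_
    rw [M.toCoxeterSystem.isRightDescent_inv_iff]
    intro hd
    have hd' : M.toCoxeterSystem.length (M.simple j * (u⁻¹ * z)) <
        M.toCoxeterSystem.length (u⁻¹ * z) := hd
    refine hmin (u * M.simple j) (mul_mem hu' (simple_mem_par M hj)) ?_
    change M.toCoxeterSystem.length ((u * M.simple j)⁻¹ * z) <
        M.toCoxeterSystem.length (u⁻¹ * z)
    rw [mul_inv_rev, simple_inv, mul_assoc]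
    exact hd'
  have hC : ∀ a ∈ C, ∃ j ∈ J, (u⁻¹ * z) * M.simple a * (u⁻¹ * z)⁻¹ = M.simple j := by
    intro a ha
    refine parA_key M hm ?_
    have h1 : (u⁻¹ * z) * M.simple a * (u⁻¹ * z)⁻¹ = u⁻¹ * (z * M.simple a * z⁻¹) * u := by
      rw [mul_inv_rev, inv_inv]
      simp only [mul_assoc]
    rw [h1]
    exact mul_mem (mul_mem (inv_mem hu') (h a ha)) hu'
  choose f hf using hC
  refine ⟨u, hu', fun a => if ha : a ∈ C then f a ha else a, fun a ha => ?_⟩
  simp only [dif_pos ha]
  exact hf a ha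

theorem rf_image (M : CoxeterMatrix S) (m : M.Group) (τ : S → S) {A : Finset S}
    (h : ∀ a ∈ A, m * M.simple a * m⁻¹ = M.simple (τ a)) (t : M.Group) :
    IsRf M (A.image τ) t ↔ IsRf M A (m⁻¹ * t * m) := by
  have h1 : ∀ v ∈ par M A, m * v * m⁻¹ ∈ par M (A.image τ) := by
    refine par_induction M A ?_ fun a ha w hw => ?_
    · rw [mul_one, mul_inv_cancel]
      exact one_mem _
    · have h2 : m * (M.simple a * w) * m⁻¹ = m * M.simple a * m⁻¹ * (m * w * m⁻¹) := by group
      rw [h2, h a ha]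
      exact mul_mem (simple_mem_par M (mem_image_of_mem τ ha)) hw
  have h3 : ∀ a ∈ A, m⁻¹ * M.simple (τ a) * m = M.simple a := by
    intro a ha
    rw [← h a ha]
    group
  have h4 : ∀ v ∈ par M (A.image τ), m⁻¹ * v * m ∈ par M A := by
    refine par_induction M _ ?_ fun b hb w hw => ?_
    · rw [mul_one, inv_mul_cancel]
      exact one_mem _
    · obtain ⟨a, ha, rfl⟩ := mem_image.mp hb
      have h2 : m⁻¹ * (M.simple (τ a) * w) * m =
          m⁻¹ * M.simple (τ a) * m * (m⁻¹ * w * m) := by group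
      rw [h2, h3 a ha]
      exact mul_mem (simple_mem_par M ha) hw
  constructor
  · rintro ⟨w, hw, b, hb, rfl⟩
    obtain ⟨a, ha, rfl⟩ := mem_image.mp hb
    refine ⟨m⁻¹ * w * m, h4 w hw, a, ha, ?_⟩
    rw [← h3 a ha]
    group
  · rintro ⟨v, hv, a, ha, he⟩
    refine ⟨m * v * m⁻¹, h1 v hv, τ a, mem_image_of_mem τ ha, ?_⟩
    rw [← h a ha]
    have h5 : t = m * (m⁻¹ * t * m) * m⁻¹ := by group
    rw [h5, he]
    group

end Pool.Agent.H78.RD
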