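import Pool.Agent.H78.RD.ParA

/-!
# Project RC2: orthogonal parabolic subgroups, the minimal and the maximal building set

* `rf_sep`: `→`: `w ∈ par M (J ∪ K)` is a product `v v'`, `v ∈ par M J`, `v' ∈ par M K` (`par_induction`,
  `sep_comm`); if `s ∈ J` then `w s w⁻¹ = v s v⁻¹` since `v'` commutes with `s`. `←`: `IsRf.mono`.
* `rf_disj`: the root (`exists_root`, `root_unique`, `isRf_iff`) lies in `posR M J` and `posR M K`, so its support
  is in `J ∩ K = ∅` (`M a a = 1`), but it is not zero.
* `conj_sep`: `u = v v'` as above.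
* `con_inv`: let `J` be connected and `K` not connected. `K ≠ ∅` since otherwise there is no reflection, but
  `J ≠ ∅`. So `K = K1 ⊔ K2`, nonempty, without edges between them, `Sep M K1 K2`. Let `j, j' ∈ J` be adjacent; the
  reflections `w⁻¹ j w`, `w⁻¹ j' w` are in `W_K`, hence `IsRf` in `K1` or `K2` (`rf_sep`); if they were not in the
  same one they would commute (`sep_comm`), but `j`, `j'` do not commute: commuting gives
  `T (j) T (j') (e j') = T (j') T (j) (e j')`, i.e. `- e j' + k e j = T (j') (e j' - k e j) = - e j' - k e j + k^2 e j'`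
  with `k = kR M j j'`, so `k = 0`, `M j j' = 2` (`kR_zero`). So all `w⁻¹ j w`, `j ∈ J`, are in one of them, say `K1`
  (`Con` applied to the subset of the `j ∈ J` with `w⁻¹ j w` in `W_{K1}`); then `w⁻¹ W_J w ⊆ W_{K1}`
  (`par_induction`), but for `s ∈ K2` the simple reflection `s` is in `w⁻¹ W_J w` (the hypothesis), so it is in
  `W_{K1}`, `isRf_of_mem` (with `w = 1`), `mem_of_isRf`: `s ∈ K1`, contradiction (`M s s = 1`).
* `isBld_min`: `join`: if not `Sep` then `J`, `K` intersect or there is an edge (`Con.union`, `Con.union_adj`).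
  `flag`: vacuous. `inv`: `con_inv`.
* `isBld_max`: `flag`: `J` has at least two elements (`con_single`): `{s}` and `J.erase s`. `inv`: `K` is nonempty:
  otherwise `IsRf M K t` is false for all `t`.
-/

set_option autoImplicit false

open Finset

namespace Pool.Agent.H78.RD

open Pool.Agent.H4.FC Pool.Agent.H78.RC

variable {S : Type} [Fintype S] [DecidableEq S]

private theorem parB_simple (M : CoxeterMatrix S) (s : S) (x : S → ℝ) :
    (titsHom M (M.simple s)).mulVec x =
      x - bf (kR M) (Pi.single s 1) x • (Pi.single s 1 : S → ℝ) := by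
  have h := titsHom_simple M s
  rw [M.toCoxeterSystem_simple] at h
  rw [h, refl_mulVec, bf_single_left]

/-- simple reflections which commute -/
private theorem parB_comm (M : CoxeterMatrix S) {a b : S} (hab : a ≠ b)
    (h : M.simple a * M.simple b = M.simple b * M.simple a) : M a b = 2 := by
  have h1 : (titsHom M (M.simple a)).mulVec ((titsHom M (M.simple b)).mulVec (Pi.single b 1)) =
      (titsHom M (M.simple b)).mulVec ((titsHom M (M.simple a)).mulVec (Pi.single b 1)) := by
    rw [Matrix.mulVec_mulVec, Matrix.mulVec_mulVec, ← map_mul, ← map_mul, h]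
  simp only [parB_simple, bf_sub_right, bf_smul_right, bf_single, kR_self] at h1
  have h2 := congrFun h1 a
  simp only [Pi.sub_apply, Pi.smul_apply, smul_eq_mul, Pi.single_eq_same,
    Pi.single_eq_of_ne hab] at h2
  refine (kR_zero M hab).1 ?_
  linarith

omit [Fintype S] [DecidableEq S] in
private theorem parB_disj {M : CoxeterMatrix S} {J K : Finset S} (h : Sep M J K) {s : S}
    (h1 : s ∈ J) (h2 : s ∈ K) : False := by
  have h3 := h s h1 s h2
  rw [M.diagonal s] at h3
  omega

omit [Fintype S] [DecidableEq S] in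
private theorem parB_mem {M : CoxeterMatrix S} {J : Finset S} {t : M.Group} (h : IsRf M J t) :
    t ∈ par M J := by
  obtain ⟨w, hw, s, hs, rfl⟩ := h
  exact mul_mem (mul_mem hw (simple_mem_par M hs)) (inv_mem hw)

omit [Fintype S] [DecidableEq S] in
private theorem parB_self (M : CoxeterMatrix S) {J : Finset S} {s : S} (hs : s ∈ J) :
    IsRf M J (M.simple s) := ⟨1, one_mem _, s, hs, by rw [one_mul, inv_one, mul_one]⟩

/-- the parabolic subgroup of a disjoint union of orthogonal sets -/
private theorem parB_prod (M : CoxeterMatrix S) {J K : Finset S} (h : Sep M J K) :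
    ∀ w ∈ par M (J ∪ K), ∃ v ∈ par M J, ∃ v' ∈ par M K, w = v * v' := by
  refine par_induction M (J ∪ K) ⟨1, one_mem _, 1, one_mem _, (mul_one 1).symm⟩ ?_
  rintro s hs w ⟨v, hv, v', hv', rfl⟩
  rcases mem_union.1 hs with h1 | h1
  · exact ⟨M.simple s * v, mul_mem (simple_mem_par M h1) hv, v', hv', (mul_assoc _ _ _).symm⟩
  · refine ⟨v, hv, M.simple s * v', mul_mem (simple_mem_par M h1) hv', ?_⟩
    rw [← mul_assoc, ← sep_comm M h hv (simple_mem_par M h1), mul_assoc]

/-- if all conjugates of the elements of `J` are in `W_A` then `W_J` does not contain a conjugate of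
an element outside `A` -/
private theorem parB_aux (M : CoxeterMatrix S) {J A : Finset S} (hA : Sph M A) (w : M.Group)
    (h : ∀ j ∈ J, w⁻¹ * M.simple j * w ∈ par M A) {s : S}
    (hs : IsRf M J (w * M.simple s * w⁻¹)) : s ∈ A := by
  have h1 : ∀ v ∈ par M J, w⁻¹ * v * w ∈ par M A := by
    refine par_induction M J ?_ ?_
    · rw [mul_one, inv_mul_cancel]
      exact one_mem _
    · intro j hj v ih
      have h2 : w⁻¹ * (M.simple j * v) * w = (w⁻¹ * M.simple j * w) * (w⁻¹ * v * w) := by
        group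
      rw [h2]
      exact mul_mem (h j hj) ih
  have h2 := h1 _ (parB_mem hs)
  have h3 : w⁻¹ * (w * M.simple s * w⁻¹) * w = 1 * M.simple s * 1⁻¹ := by
    group
  rw [h3] at h2
  have h4 := isRf_of_mem M hA h2
  rw [one_mul, inv_one, mul_one] at h4
  exact mem_of_isRf M hA h4

omit [Fintype S] in
private theorem parB_single (D : SimpleGraph S) (s : S) : Con D {s} := by
  refine ⟨singleton_nonempty s, fun A hA hne _ => ?_⟩
  obtain ⟨x, hx⟩ := hne
  have hxs := mem_singleton.1 (hA hx)
  subst hxs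
  exact Subset.antisymm hA (singleton_subset_iff.2 hx)

omit [Fintype S] in
/-- a closed subset meets a connected set in nothing or everything -/
private theorem parB_closed {D : SimpleGraph S} {J A : Finset S} (hJ : Con D J)
    (h : ∀ a ∈ A ∩ J, ∀ b ∈ J, b ∉ A → ¬ D.Adj a b) : Disjoint A J ∨ J ⊆ A := by
  by_cases hne : (A ∩ J).Nonempty
  · right
    have h1 := hJ.2 (A ∩ J) inter_subset_right hne (fun a ha b hb => by
      rw [mem_sdiff, mem_inter] at hb
      exact h a ha b hb.1 (fun hbA => hb.2 ⟨hbA, hb.1⟩))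
    intro x hx
    rw [← h1] at hx
    exact (mem_inter.1 hx).1
  · left
    rw [not_nonempty_iff_eq_empty] at hne
    exact disjoint_iff_inter_eq_empty.2 hne

omit [Fintype S] in
/-- the union of two connected sets which intersect or are joined by an edge -/
private theorem parB_union {D : SimpleGraph S} {I J : Finset S} (hI : Con D I) (hJ : Con D J)
    {a b : S} (ha : a ∈ I) (hb : b ∈ J) (hab : a = b ∨ D.Adj a b) : Con D (I ∪ J) := by
  refine ⟨hI.1.mono subset_union_left, fun A hA hne hcl => ?_⟩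
  have h1 : Disjoint A I ∨ I ⊆ A := parB_closed hI fun a ha b hb hbA =>
    hcl a (mem_inter.1 ha).1 b (mem_sdiff.2 ⟨mem_union_left _ hb, hbA⟩)
  have h2 : Disjoint A J ∨ J ⊆ A := parB_closed hJ fun a ha b hb hbA =>
    hcl a (mem_inter.1 ha).1 b (mem_sdiff.2 ⟨mem_union_right _ hb, hbA⟩)
  obtain ⟨x, hx⟩ := hne
  refine Subset.antisymm hA ?_
  rcases h1 with h1 | h1 <;> rcases h2 with h2 | h2
  · exfalso
    rcases mem_union.1 (hA hx) with h3 | h3
    · exact Finset.disjoint_left.1 h1 hx h3
    · exact Finset.disjoint_left.1 h2 hx h3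
  · exfalso
    have h4 : a ∉ A := fun h3 => Finset.disjoint_left.1 h1 h3 ha
    rcases hab with rfl | hab
    · exact h4 (h2 hb)
    · exact hcl b (h2 hb) a (mem_sdiff.2 ⟨mem_union_left _ ha, h4⟩) hab.symm
  · exfalso
    have h4 : b ∉ A := fun h3 => Finset.disjoint_left.1 h2 h3 hb
    rcases hab with rfl | hab
    · exact h4 (h1 ha)
    · exact hcl a (h1 ha) b (mem_sdiff.2 ⟨mem_union_right _ hb, h4⟩) hab
  · exact union_subset h1 h2

theorem rf_sep (M : CoxeterMatrix S) {J K : Finset S} (h : Sep M J K) (t : M.Group) :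
    IsRf M (J ∪ K) t ↔ IsRf M J t ∨ IsRf M K t := by
  constructor
  · rintro ⟨w, hw, s, hs, rfl⟩
    obtain ⟨v, hv, v', hv', rfl⟩ := parB_prod M h w hw
    rcases mem_union.1 hs with h1 | h1
    · left
      refine ⟨v, hv, s, h1, ?_⟩
      have h2 : M.simple s * v' = v' * M.simple s := sep_comm M h (simple_mem_par M h1) hv'
      calc v * v' * M.simple s * (v * v')⁻¹ = v * (v' * M.simple s) * v'⁻¹ * v⁻¹ := by group
        _ = v * (M.simple s * v') * v'⁻¹ * v⁻¹ := by rw [h2]
        _ = _ := by group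
    · right
      refine ⟨v', hv', s, h1, ?_⟩
      have h2 : v * (v' * M.simple s * v'⁻¹) = (v' * M.simple s * v'⁻¹) * v :=
        sep_comm M h hv (mul_mem (mul_mem hv' (simple_mem_par M h1)) (inv_mem hv'))
      calc v * v' * M.simple s * (v * v')⁻¹ = v * (v' * M.simple s * v'⁻¹) * v⁻¹ := by group
        _ = (v' * M.simple s * v'⁻¹) * v * v⁻¹ := by rw [h2]
        _ = _ := by group
  · rintro (h1 | h1)
    · exact IsRf.mono subset_union_left h1
    · exact IsRf.mono subset_union_right h1

theorem rf_disj (M : CoxeterMatrix S) {J K : Finset S} (hJ : Sph M J) (hK : Sph M K)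
    (h : Sep M J K) {t : M.Group} (h1 : IsRf M J t) (h2 : IsRf M K t) : False := by
  obtain ⟨r, hr, hT⟩ := exists_root M hJ h1
  have hr' : r ∈ posR M K := (isRf_iff M hJ hK h1 hr hT).1 h2
  have hLR := LR_posR M (fun J => Sph M J) fun _ h => h
  have h0 : r = 0 := by
    funext i
    by_cases hi : i ∈ J
    · exact hLR.supp K hK r hr' i fun hi' => parB_disj h hi hi'
    · exact hLR.supp J hJ r hr i hi
  have h3 := hLR.norm J hJ r hr
  rw [h0] at h3
  have h4 : bf (kR M) (0 : S → ℝ) 0 = 0 := by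
    unfold bf
    simp
  rw [h4] at h3
  exact absurd h3 (by norm_num)

theorem conj_sep (M : CoxeterMatrix S) {J K : Finset S} (h : Sep M J K) {u t : M.Group}
    (hu : u ∈ par M (J ∪ K)) (ht : IsRf M J t) : IsRf M J (u * t * u⁻¹) := by
  obtain ⟨v, hv, v', hv', rfl⟩ := parB_prod M h u hu
  have h1 : t * v' = v' * t := sep_comm M h (parB_mem ht) hv'
  have h2 : v * v' * t * (v * v')⁻¹ = v * t * v⁻¹ := by
    calc v * v' * t * (v * v')⁻¹ = v * (v' * t) * v'⁻¹ * v⁻¹ := by group
      _ = v * (t * v') * v'⁻¹ * v⁻¹ := by rw [h1]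
      _ = _ := by group
  rw [h2]
  exact ht.conj hv

theorem con_inv (M : CoxeterMatrix S) {J K : Finset S} (hJ : Sph M J) (hK : Sph M K)
    (w : M.Group) (hc : Con (diag M) J) (h : ∀ t, IsRf M K t ↔ IsRf M J (w * t * w⁻¹)) :
    Con (diag M) K := by
  have hcj : ∀ j ∈ J, IsRf M K (w⁻¹ * M.simple j * w) := by
    intro j hj
    rw [h]
    have h1 : w * (w⁻¹ * M.simple j * w) * w⁻¹ = M.simple j := by group
    rw [h1]
    exact parB_self M hj
  have hcs : ∀ s ∈ K, IsRf M J (w * M.simple s * w⁻¹) := fun s hs => (h _).1 (parB_self M hs)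
  refine ⟨?_, fun A hA hne hcl => ?_⟩
  · obtain ⟨j, hj⟩ := hc.1
    obtain ⟨v, hv, s, hs, _⟩ := hcj j hj
    exact ⟨s, hs⟩
  by_contra hAK
  have hne2 : (K \ A).Nonempty := by
    rw [sdiff_nonempty]
    exact fun h1 => hAK (Subset.antisymm hA h1)
  have hsep : Sep M A (K \ A) := by
    intro a ha b hb
    by_contra h1
    refine hcl a ha b hb ⟨?_, h1⟩
    rintro rfl
    exact (mem_sdiff.1 hb).2 ha
  have hun : A ∪ (K \ A) = K := union_sdiff_of_subset hA
  have hor : ∀ j ∈ J, IsRf M A (w⁻¹ * M.simple j * w) ∨ IsRf M (K \ A) (w⁻¹ * M.simple j * w) := by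
    intro j hj
    rw [← rf_sep M hsep, hun]
    exact hcj j hj
  -- all conjugates are in one of them
  classical
  have hall : (∀ j ∈ J, IsRf M A (w⁻¹ * M.simple j * w)) ∨
      ∀ j ∈ J, IsRf M (K \ A) (w⁻¹ * M.simple j * w) := by
    by_cases h1 : (J.filter fun j => IsRf M A (w⁻¹ * M.simple j * w)).Nonempty
    · left
      have h2 := hc.2 (J.filter fun j => IsRf M A (w⁻¹ * M.simple j * w)) (filter_subset _ _) h1 ?_
      · intro j hj
        rw [← h2] at hj
        exact (mem_filter.1 hj).2
      · intro a ha b hb hab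
        rw [mem_filter] at ha
        rw [mem_sdiff, mem_filter] at hb
        have h3 : IsRf M (K \ A) (w⁻¹ * M.simple b * w) :=
          (hor b hb.1).resolve_left fun h3 => hb.2 ⟨hb.1, h3⟩
        have h4 := sep_comm M hsep (parB_mem ha.2) (parB_mem h3)
        refine hab.2 (parB_comm M hab.1 ?_)
        calc M.simple a * M.simple b
            = w * ((w⁻¹ * M.simple a * w) * (w⁻¹ * M.simple b * w)) * w⁻¹ := by group
          _ = w * ((w⁻¹ * M.simple b * w) * (w⁻¹ * M.simple a * w)) * w⁻¹ := by rw [h4]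
          _ = _ := by group
    · right
      intro j hj
      refine (hor j hj).resolve_left fun h2 => h1 ⟨j, mem_filter.2 ⟨hj, h2⟩⟩
  rcases hall with h1 | h1
  · obtain ⟨s, hs⟩ := hne2
    exact (mem_sdiff.1 hs).2 (parB_aux M (hK.mono hA) w (fun j hj => parB_mem (h1 j hj))
      (hcs s (mem_sdiff.1 hs).1))
  · obtain ⟨s, hs⟩ := hne
    have h2 := parB_aux M (hK.mono sdiff_subset) w (fun j hj => parB_mem (h1 j hj))
      (hcs s (hA hs))
    exact (mem_sdiff.1 h2).2 hs

/-- the minimal building set -/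
theorem isBld_min (M : CoxeterMatrix S)
    (hfin : ∀ J : Finset S, J ≠ univ → Sph M J) :
    IsBld M (fun J => J ≠ univ ∧ Con (diag M) J) := by
  refine ⟨fun J hJ => hJ.1, fun J hJ => hJ.2.1, fun J h1 h2 => ⟨h1, h2⟩, ?_, ?_, ?_⟩
  · intro J K hJ hK hns hne
    refine ⟨hne, ?_⟩
    unfold Pool.Agent.H78.RC.Sep at hns
    push Not at hns
    obtain ⟨j, hj, k, hk, hjk⟩ := hns
    refine parB_union hJ.2 hK.2 hj hk ?_
    by_cases h1 : j = k
    · exact Or.inl h1
    · exact Or.inr ⟨h1, hjk⟩
  · intro J hJ hnc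
    exact absurd hJ.2 hnc
  · intro J K w hJ hK h
    exact ⟨hK, con_inv M (hfin J hJ.1) (hfin K hK) w hJ.2 h⟩

/-- the maximal building set -/
theorem isBld_max (M : CoxeterMatrix S) :
    IsBld M (fun J => J.Nonempty ∧ J ≠ univ) := by
  refine ⟨fun J hJ => hJ.2, fun J hJ => hJ.1, fun J h1 h2 => ⟨h2.1, h1⟩, ?_, ?_, ?_⟩
  · intro J K hJ _ _ hne
    exact ⟨hJ.1.mono subset_union_left, hne⟩
  · intro J hJ hnc
    obtain ⟨s, hs⟩ := hJ.1
    have h1 : J ≠ {s} := by
      rintro rfl
      exact hnc (parB_single _ s)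
    refine ⟨{s}, J.erase s, ⟨singleton_nonempty s, fun h2 => ?_⟩, ⟨?_, fun h2 => ?_⟩, ?_, ?_⟩
    · have h3 : univ ⊆ J := by
        rw [← h2]
        exact singleton_subset_iff.2 hs
      exact hJ.2 (univ_subset_iff.1 h3)
    · rw [nonempty_iff_ne_empty]
      intro h2
      rw [erase_eq_empty_iff] at h2
      rcases h2 with h2 | h2
      · rw [h2] at hs
        exact absurd hs (notMem_empty s)
      · exact h1 h2
    · have h3 : s ∈ J.erase s := by
        rw [h2]
        exact mem_univ s
      exact absurd h3 (notMem_erase s J)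
    · rw [disjoint_singleton_left]
      exact notMem_erase s J
    · rw [← insert_eq, insert_erase hs]
  · intro J K w hJ hK h
    refine ⟨?_, hK⟩
    obtain ⟨j, hj⟩ := hJ.1
    have h1 : IsRf M K (w⁻¹ * M.simple j * w) := by
      rw [h]
      have h2 : w * (w⁻¹ * M.simple j * w) * w⁻¹ = M.simple j := by group
      rw [h2]
      exact parB_self M hj
    obtain ⟨v, hv, s, hs, _⟩ := h1
    exact ⟨s, hs⟩

end Pool.Agent.H78.RD
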