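import Pool.Agent.H78.RC.LocB
import Pool.Agent.H78.RC.LocC

/-!
# Project RC2: the local matrix is negative semidefinite on the subspace, for all sets of faces

The same proofs as in `Pool/Agent/H78/RC/LocB.lean`, `LocC.lean`, without the connectedness of the `J ∈ F`.
`B = bf k`, `z = zf P F f = ∑_r Y_r r` (`zf_eq`), `Y_r = yf P F f r`, `R = F.biUnion P`; by `quad` the form is
`B z z - 2 ∑_{r ∈ R} ht r Y_r²`; `ht r > 0` for `r ∈ P J` (`r ≥ 0`, `r ≠ 0` by the norm).

* `semi_rad`: `B z z = c² B δ δ = 0`; all terms are `≥ 0`.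
* `semi_fin`: as `neg_fin`: `c² H² ≤ H' Σ`, `H' < H`, `B z z = 2 c² H`. If `c = 0` as before. If `c ≠ 0` then
  `2 Σ > B z z`, so the form is negative (not zero).
* `semi_loc`: as `exists_loc`.
* `tl_cover`: `J ∪ K = univ`, not nested. Among the connected `C ⊆ J` with `¬ C ⊆ K` (for instance `{j}`,
  `j ∈ J \ K`) take one with the maximal number of elements. `C ≠ univ` (otherwise `K ⊆ univ = C ⊆ J`). As `univ` is
  connected there are adjacent `c ∈ C`, `b ∉ C`. If `b ∈ J` then `C ∪ {b}` is connected (`Con.union_adj`), in `J`, not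
  in `K`, contradiction. So `b ∈ K \ J`. Let `θ` be the full root of `C` (`exists_full`; `ok C` by `hdown`),
  `θ ∈ P C ⊆ P J` (`LR.mono`), `θ ∉ P K` (support), `e b ∈ P K \ P J`, `B θ (e b) ≤ θ_c k c b < 0` (`nonpos`, `b ∉ C`).
  So one term of `tl` is negative and all are `≤ 0`.
-/

set_option autoImplicit false

open Finset

namespace Pool.Agent.H78.RD

open Pool.Agent.H4.FC Pool.Agent.H78.RC

variable {S : Type} [Fintype S] [DecidableEq S] {k : S → S → ℝ} {ok : Finset S → Prop}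
  {P : Finset S → Finset (S → ℝ)}

omit [DecidableEq S] in
private theorem semi_ht_sum {ι : Type*} (s : Finset ι) (f : ι → S → ℝ) :
    ht (∑ i ∈ s, f i) = ∑ i ∈ s, ht (f i) := by
  unfold ht
  simp only [Finset.sum_apply]
  exact Finset.sum_comm

omit [DecidableEq S] in
private theorem semi_ht_smul (c : ℝ) (x : S → ℝ) : ht (c • x) = c * ht x := by
  unfold ht
  simp only [Pi.smul_apply, smul_eq_mul]
  rw [Finset.mul_sum]

omit [DecidableEq S] in
private theorem semi_ht_nonneg {x : S → ℝ} (hx : ∀ i, 0 ≤ x i) : 0 ≤ ht x :=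
  Finset.sum_nonneg fun i _ => hx i

/-- the height of a positive root is positive -/
private theorem semi_ht_pos (h : LR k ok P) {J : Finset S} (hJ : ok J) {r : S → ℝ}
    (hr : r ∈ P J) : 0 < ht r := by
  have h0 := h.nonneg J hJ r hr
  refine lt_of_le_of_ne (semi_ht_nonneg h0) fun h1 => ?_
  have h2 : ∀ i, r i = 0 := by
    intro i
    have h3 := (Finset.sum_eq_zero_iff_of_nonneg (fun i _ => h0 i)).1 h1.symm
    exact h3 i (mem_univ i)
  have h4 := h.norm J hJ r hr
  have h5 : bf k r r = 0 := by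
    unfold bf
    refine Finset.sum_eq_zero fun u _ => Finset.sum_eq_zero fun v _ => ?_
    rw [h2 v, mul_zero]
  rw [h5] at h4
  norm_num at h4

open Classical in
private theorem semi_nonneg (h : LR k ok P) {F : Finset (Finset S)} (hF : ∀ J ∈ F, ok J)
    (f : Finset S → ℝ) : 0 ≤ ∑ r ∈ F.biUnion P, ht r * yf P F f r ^ 2 := by
  refine Finset.sum_nonneg fun r hr => ?_
  rw [mem_biUnion] at hr
  obtain ⟨J, hJ, hr⟩ := hr
  exact mul_nonneg (semi_ht_pos h (hF J hJ) hr).le (sq_nonneg _)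

open Classical in
private theorem semi_zero (h : LR k ok P) {F : Finset (Finset S)} (hF : ∀ J ∈ F, ok J)
    {f : Finset S → ℝ} (h0 : ∑ r ∈ F.biUnion P, ht r * yf P F f r ^ 2 = 0) :
    ∀ J ∈ F, ∀ r ∈ P J, yf P F f r = 0 := by
  intro J hJ r hr
  have h1 : ∀ r ∈ F.biUnion P, 0 ≤ ht r * yf P F f r ^ 2 := by
    intro r hr
    rw [mem_biUnion] at hr
    obtain ⟨J, hJ, hr⟩ := hr
    exact mul_nonneg (semi_ht_pos h (hF J hJ) hr).le (sq_nonneg _)
  have h2 := (Finset.sum_eq_zero_iff_of_nonneg h1).1 h0 r (mem_biUnion.2 ⟨J, hJ, hr⟩)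
  have h3 := semi_ht_pos h (hF J hJ) hr
  rcases mul_eq_zero.1 h2 with h4 | h4
  · exact absurd h4 h3.ne'
  · exact pow_eq_zero_iff (two_ne_zero) |>.1 h4

theorem semi_rad (h : LR k ok P) (hdown : ∀ J K, ok J → K ⊆ J → ok K) {F : Finset (Finset S)}
    (hF : ∀ J ∈ F, ok J) {f : Finset S → ℝ} {δ : S → ℝ} (hδ : bf k δ δ = 0) {c : ℝ}
    (hz : zf P F f = c • δ) :
    ∑ J ∈ F, ∑ K ∈ F, f J * f K * tl k P J K ≤ 0 ∧
      (∑ J ∈ F, ∑ K ∈ F, f J * f K * tl k P J K = 0 → ∀ J ∈ F, ∀ r ∈ P J, yf P F f r = 0) := by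
  classical
  have h1 := semi_nonneg h hF f
  have h2 : ∑ J ∈ F, ∑ K ∈ F, f J * f K * tl k P J K =
      - (2 * ∑ r ∈ F.biUnion P, ht r * yf P F f r ^ 2) := by
    rw [quad h hdown F hF f, hz, bf_smul_left, bf_smul_right, hδ]
    simp only [mul_zero, zero_sub]
  rw [h2]
  refine ⟨by linarith, fun h3 => semi_zero h hF (by linarith)⟩

theorem semi_fin (h : LR k (fun _ => True) P) {D : SimpleGraph S}
    (hD : ∀ a b, D.Adj a b ↔ a ≠ b ∧ k a b ≠ 0) (hirr : Con D univ) {F : Finset (Finset S)}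
    (hF : ∀ J ∈ F, J ≠ univ) {f : Finset S → ℝ} {c : ℝ} (hz : zf P F f = c • rho P univ) :
    ∑ J ∈ F, ∑ K ∈ F, f J * f K * tl k P J K ≤ 0 ∧
      (∑ J ∈ F, ∑ K ∈ F, f J * f K * tl k P J K = 0 → ∀ J ∈ F, ∀ r ∈ P J, yf P F f r = 0) := by
  classical
  have hF' : ∀ J ∈ F, (fun _ => True : Finset S → Prop) J := fun _ _ => trivial
  have hQ0 := semi_nonneg h hF' f
  obtain ⟨θ, hθ, hθ0⟩ := exists_full h hD (J := univ) trivial hirr
  obtain ⟨i₀, -⟩ := hirr.1
  have hθpos : 0 < ht θ := semi_ht_pos h (J := univ) trivial hθ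
  have hnn : ∀ r ∈ P univ, 0 ≤ ht r := fun r hr => semi_ht_nonneg (h.nonneg univ trivial r hr)
  have hsub : F.biUnion P ⊆ P univ := by
    intro r hr
    rw [mem_biUnion] at hr
    obtain ⟨J, -, hr⟩ := hr
    exact h.mono trivial trivial (subset_univ J) hr
  have hθR : θ ∉ F.biUnion P := by
    intro hr
    rw [mem_biUnion] at hr
    obtain ⟨J, hJ, hr⟩ := hr
    apply hF J hJ
    rw [Finset.eq_univ_iff_forall]
    intro i
    by_contra hi
    have h2 := h.supp J trivial θ hr i hi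
    have h3 := hθ0 i (mem_univ _)
    rw [h2] at h3
    exact lt_irrefl _ h3
  obtain ⟨H, hH⟩ : ∃ H, H = ∑ r ∈ P univ, ht r := ⟨_, rfl⟩
  obtain ⟨H', hH'⟩ : ∃ H', H' = ∑ r ∈ F.biUnion P, ht r := ⟨_, rfl⟩
  obtain ⟨Q, hQ⟩ : ∃ Q, Q = ∑ r ∈ F.biUnion P, ht r * yf P F f r ^ 2 := ⟨_, rfl⟩
  have hlt : H' < H := by
    have h2 : ∑ r ∈ insert θ (F.biUnion P), ht r ≤ ∑ r ∈ P univ, ht r :=
      Finset.sum_le_sum_of_subset_of_nonneg (Finset.insert_subset hθ hsub) fun r hr _ => hnn r hr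
    rw [Finset.sum_insert hθR, ← hH, ← hH'] at h2
    linarith
  have hH'0 : 0 ≤ H' := by
    rw [hH']
    exact Finset.sum_nonneg fun r hr => hnn r (hsub hr)
  have hHt : ht (rho P univ) = H := by
    rw [hH]
    unfold rho
    exact semi_ht_sum _ _
  have hz1 : ht (zf P F f) = c * H := by rw [hz, semi_ht_smul, hHt]
  have hz2 : ht (zf P F f) = ∑ r ∈ F.biUnion P, ht r * yf P F f r := by
    rw [zf_eq, semi_ht_sum]
    refine Finset.sum_congr rfl fun r _ => ?_
    rw [semi_ht_smul, mul_comm]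
  have hCS : (c * H) ^ 2 ≤ H' * Q := by
    rw [← hz1, hz2, hH', hQ]
    refine Finset.sum_sq_le_sum_mul_sum_of_sq_le_mul _ (fun r hr => hnn r (hsub hr))
      (fun r hr => mul_nonneg (hnn r (hsub hr)) (sq_nonneg _)) fun r _ => le_of_eq ?_
    ring
  have hB : bf k (zf P F f) (zf P F f) = 2 * c ^ 2 * H := by
    have h2 : bf k (zf P F f) (zf P F f) = c * bf k (rho P univ) (zf P F f) := by
      conv_lhs => rw [hz, bf_smul_left]
      rw [hz]
    rw [h2, bf_rho h trivial (fun i hi => absurd (mem_univ i) hi), hz1]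
    ring
  have hq : ∑ J ∈ F, ∑ K ∈ F, f J * f K * tl k P J K = 2 * c ^ 2 * H - 2 * Q := by
    rw [quad h (fun _ _ _ _ => trivial) F hF' f, hB, ← hQ]
  rw [← hQ] at hQ0
  rw [hq]
  by_cases hc : c = 0
  · subst hc
    refine ⟨by nlinarith, fun h3 => semi_zero h hF' ?_⟩
    rw [← hQ]
    nlinarith
  · have hc2 : 0 < c ^ 2 := by positivity
    have hlt2 : c ^ 2 * H < Q := by
      by_contra hcon
      push Not at hcon
      have h3 : H' * Q ≤ H' * (c ^ 2 * H) := mul_le_mul_of_nonneg_left hcon hH'0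
      have hHpos : 0 < H := lt_of_le_of_lt hH'0 hlt
      have h4 : 0 < c ^ 2 * H * (H - H') := mul_pos (mul_pos hc2 hHpos) (sub_pos.mpr hlt)
      nlinarith [hCS, h3, h4]
    refine ⟨by nlinarith, fun h3 => ?_⟩
    exfalso
    nlinarith

private theorem semi_diag (M : CoxeterMatrix S) (a b : S) :
    (diag M).Adj a b ↔ a ≠ b ∧ kR M a b ≠ 0 := by
  constructor
  · rintro ⟨h1, h2⟩
    exact ⟨h1, fun h => h2 ((kR_zero M h1).1 h)⟩
  · rintro ⟨h1, h2⟩
    exact ⟨h1, fun h => h2 ((kR_zero M h1).2 h)⟩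

omit [Fintype S] [DecidableEq S] in
private theorem semi_smul {z δ : S → ℝ} {s0 : S} (h0 : δ s0 ≠ 0)
    (h : ∀ i, z i * δ s0 = δ i * z s0) : z = (z s0 / δ s0) • δ := by
  funext i
  rw [Pi.smul_apply, smul_eq_mul, div_mul_eq_mul_div, eq_div_iff h0, h i]
  ring

theorem semi_loc (M : CoxeterMatrix S) {Q : Type} [Group Q] [Finite Q] {π : M.Group →* Q}
    (h : IsQuot M π) : ∃ (δ : S → ℝ) (s0 : S), δ s0 ≠ 0 ∧ ∀ F : Finset (Finset S),
      (∀ J ∈ F, J ≠ univ) → ∀ f : Finset S → ℝ,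
      (∀ i, zf (posR M) F f i * δ s0 = δ i * zf (posR M) F f s0) →
      (∑ J ∈ F, ∑ K ∈ F, f J * f K * tl (kR M) (posR M) J K ≤ 0 ∧
        (∑ J ∈ F, ∑ K ∈ F, f J * f K * tl (kR M) (posR M) J K = 0 →
          ∀ J ∈ F, ∀ r ∈ posR M J, yf (posR M) F f r = 0)) := by
  by_cases hinj : Function.Injective π
  · have hfinG : Finite M.Group := Finite.of_injective π hinj
    have hSph : ∀ J : Finset S, Sph M J := fun J => by
      unfold Sph
      infer_instance
    have hL : LR (kR M) (fun _ => True) (posR M) := LR_posR M (fun _ => True) fun J _ => hSph J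
    obtain ⟨s0, -⟩ := h.irr.1
    have h1 : Pi.single s0 1 ∈ posR M univ := hL.single univ trivial s0 (mem_univ s0)
    have h2 : (1 : ℝ) ≤ rho (posR M) univ s0 := by
      unfold rho
      rw [Finset.sum_apply]
      have h3 : ∀ r ∈ posR M univ, 0 ≤ r s0 := fun r hr => hL.nonneg univ trivial r hr s0
      have h4 := Finset.single_le_sum h3 h1
      rwa [Pi.single_eq_same] at h4
    have h0 : rho (posR M) univ s0 ≠ 0 := by linarith
    refine ⟨rho (posR M) univ, s0, h0, fun F hF f hz => ?_⟩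
    exact semi_fin hL (semi_diag M) h.irr hF (semi_smul h0 hz)
  · rw [injective_iff_map_eq_one] at hinj
    push Not at hinj
    obtain ⟨g, hg, hg1⟩ := hinj
    have hne : titsHom M g ≠ 1 := by
      intro h1
      apply hg1
      apply tits_injective M
      rw [h1, map_one]
    obtain ⟨x, hx⟩ : ∃ x : S → ℝ, (titsHom M g).mulVec x ≠ x := by
      by_contra hcon
      push Not at hcon
      apply hne
      apply Matrix.ext_of_mulVec_single
      intro i
      rw [hcon, Matrix.one_mulVec]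
    have hδ : (titsHom M g).mulVec x - x ≠ 0 := sub_ne_zero.2 hx
    obtain ⟨s0, hs0⟩ := Function.ne_iff.1 hδ
    have h0 : ((titsHom M g).mulVec x - x) s0 ≠ 0 := hs0
    have hb : bf (kR M) ((titsHom M g).mulVec x - x) ((titsHom M g).mulVec x - x) = 0 := by
      unfold bf
      apply Finset.sum_eq_zero
      intro u _
      have h1 := h.act g hg x u
      have h2 : ∑ v, kR M u v * ((titsHom M g).mulVec x - x) u * ((titsHom M g).mulVec x - x) v =
          ((titsHom M g).mulVec x - x) u * ∑ v, kR M u v * ((titsHom M g).mulVec x v - x v) := by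
        rw [Finset.mul_sum]
        apply Finset.sum_congr rfl
        intro v _
        rw [Pi.sub_apply, Pi.sub_apply]
        ring
      rw [h2, h1, mul_zero]
    have hL : LR (kR M) (fun J => J ≠ univ) (posR M) := LR_posR M (fun J => J ≠ univ) h.fin
    have hdown : ∀ J K : Finset S, J ≠ univ → K ⊆ J → K ≠ univ := by
      intro J K hJ hKJ hK
      apply hJ
      rw [hK] at hKJ
      exact Finset.eq_univ_of_forall fun a => hKJ (mem_univ a)
    refine ⟨(titsHom M g).mulVec x - x, s0, h0, fun F hF f hz => ?_⟩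
    exact semi_rad hL hdown hF hb (semi_smul h0 hz)

omit [Fintype S] in
/-- a connected set and a neighbour -/
private theorem semi_insert {D : SimpleGraph S} {C : Finset S} (hC : Con D C) {c b : S}
    (hc : c ∈ C) (hcb : D.Adj c b) : Con D (insert b C) := by
  refine ⟨Finset.insert_nonempty _ _, fun A hA hne hcl => ?_⟩
  by_cases hI : (A ∩ C).Nonempty
  · have h1 : A ∩ C = C := by
      refine hC.2 (A ∩ C) inter_subset_right hI fun a ha d hd => ?_
      rw [mem_inter] at ha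
      rw [mem_sdiff, mem_inter] at hd
      exact hcl a ha.1 d (mem_sdiff.2 ⟨mem_insert_of_mem hd.1, fun h => hd.2 ⟨h, hd.1⟩⟩)
    have h2 : C ⊆ A := Finset.inter_eq_right.1 h1
    refine Subset.antisymm hA (Finset.insert_subset ?_ h2)
    by_contra hb
    exact hcl c (h2 hc) b (mem_sdiff.2 ⟨mem_insert_self _ _, hb⟩) hcb
  · exfalso
    obtain ⟨x, hx⟩ := hne
    have hxb : x = b := by
      rcases mem_insert.1 (hA hx) with h1 | h1
      · exact h1
      · exact absurd ⟨x, mem_inter.2 ⟨hx, h1⟩⟩ hI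
    rw [hxb] at hx
    have hcA : c ∉ A := fun h1 => hI ⟨c, mem_inter.2 ⟨h1, hc⟩⟩
    exact hcl b hx c (mem_sdiff.2 ⟨mem_insert_of_mem hc, hcA⟩) hcb.symm

theorem tl_cover (h : LR k ok P) (hdown : ∀ J K, ok J → K ⊆ J → ok K) {D : SimpleGraph S}
    (hD : ∀ a b, D.Adj a b ↔ a ≠ b ∧ k a b ≠ 0) (hirr : Con D univ) {J K : Finset S}
    (hJ : ok J) (hK : ok K) (hu : J ∪ K = univ) (h1 : ¬ J ⊆ K) (h2 : ¬ K ⊆ J) :
    tl k P J K < 0 := by
  classical
  obtain ⟨j, hj, hjK⟩ := Finset.not_subset.1 h1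
  have hsing : Con D {j} := by
    refine ⟨singleton_nonempty j, fun A hA hne _ => ?_⟩
    obtain ⟨x, hx⟩ := hne
    have hxj := mem_singleton.1 (hA hx)
    subst hxj
    exact Subset.antisymm hA (singleton_subset_iff.2 hx)
  obtain ⟨C, hC, hmax⟩ := Finset.exists_max_image
    (univ.filter fun C : Finset S => Con D C ∧ C ⊆ J ∧ j ∈ C) Finset.card
    ⟨{j}, by
      rw [mem_filter]
      exact ⟨mem_univ _, hsing, singleton_subset_iff.2 hj, mem_singleton_self j⟩⟩
  rw [mem_filter] at hC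
  obtain ⟨-, hCc, hCJ, hjC⟩ := hC
  have hne : C ≠ univ := by
    intro h3
    apply h2
    rw [h3] at hCJ
    exact (subset_univ K).trans hCJ
  obtain ⟨c, hc, b, hb, hcb⟩ : ∃ c ∈ C, ∃ b, b ∉ C ∧ D.Adj c b := by
    by_contra hcon
    push Not at hcon
    exact hne (hirr.2 C (subset_univ C) hCc.1 fun a ha b hb => hcon a ha b (mem_sdiff.1 hb).2)
  have hbJ : b ∉ J := by
    intro hbJ
    have h3 := hmax (insert b C) (by
      rw [mem_filter]
      exact ⟨mem_univ _, semi_insert hCc hc hcb, Finset.insert_subset hbJ hCJ,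
        mem_insert_of_mem hjC⟩)
    rw [Finset.card_insert_of_notMem hb] at h3
    omega
  have hbK : b ∈ K := by
    have h3 : b ∈ J ∪ K := by
      rw [hu]
      exact mem_univ b
    exact (mem_union.1 h3).resolve_left hbJ
  have hokC : ok C := hdown J C hJ hCJ
  obtain ⟨θ, hθ, hpos⟩ := exists_full h hD hokC hCc
  have hadj := (hD c b).1 hcb
  have hθb : θ b = 0 := h.supp C hokC θ hθ b hb
  have hneg := locA_neg h (h.nonneg C hokC θ hθ) hadj.1 hadj.2 (hpos c hc) hθb
  have hθJ : θ ∈ P J := h.mono hJ hokC hCJ hθ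
  have hθK : θ ∉ P K := fun h5 => by
    have h6 := hpos j hjC
    rw [h.supp K hK θ h5 j hjK] at h6
    exact lt_irrefl _ h6
  have hbP : (Pi.single b 1 : S → ℝ) ∉ P J := fun h5 => by
    have h6 := h.supp J hJ _ h5 b hbJ
    rw [Pi.single_eq_same] at h6
    norm_num at h6
  unfold tl
  rw [neg_lt_zero]
  have h7 : 0 < |bf k θ (Pi.single b 1)| := abs_pos.2 hneg.ne
  refine lt_of_lt_of_le h7 ?_
  refine le_trans ?_ (Finset.single_le_sum
    (f := fun r => ∑ r' ∈ P K \ P J, |bf k r r'|)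
    (fun r _ => Finset.sum_nonneg fun r' _ => abs_nonneg _) (Finset.mem_sdiff.2 ⟨hθJ, hθK⟩))
  exact Finset.single_le_sum (f := fun r' => |bf k θ r'|) (fun r' _ => abs_nonneg _)
    (Finset.mem_sdiff.2 ⟨h.single K hK b hbK, hbP⟩)

end Pool.Agent.H78.RD
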