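import Pool.Agent.H78.RD.Flag
import Pool.Agent.H78.RD.Lbl

/-!
# Project RC2: the labels of a chamber form a sphere

Let `B J = (G J ∨ J = univ)`. `isFB`: `FB B univ`: `single`: `con_single` and `con` if `{s} ≠ univ`; `join`: if
`J ∩ K ≠ ∅` then `¬ Sep` (`M a a = 1`). `flag`: if `J` is connected: `Con.exists_erase` (`J.erase s`, `{s}`; they
are proper); otherwise `flag`.

`lab_sphereG`: as `lab_sphere` in `Pool/Agent/H78/RC/Sph.lean`: `J ↦ lbl M π x J` is a bijection from
`CS B univ` (the `J` with `G J`) to `labFG M π G x`, and an isomorphism of graphs, by `adj_iffG` and: for `G J`,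
`G K`, not nested, `(Sep M J K ∧ ¬ G (J ∪ K)) ↔ (Disjoint J K ∧ ¬ B (J ∪ K))`: `→`: disjoint as `M a a = 1`,
`J ∪ K ≠ univ` (`sep_ne`); `←`: if not `Sep` then `G (J ∪ K)` by `join`. Then `flag_sphere` with `D = diag M`,
`U = univ`.
-/

set_option autoImplicit false

open Finset

namespace Pool.Agent.H78.RD

open Pool.Agent.H4.FC Pool.Agent.H19.Cub Pool.Agent.H85.Fold Pool.Agent.H78.RC

variable {S : Type} [Fintype S] [DecidableEq S] {Q : Type} [Group Q] [Fintype Q] [DecidableEq Q]
  {M : CoxeterMatrix S} {π : M.Group →* Q} {G : Finset S → Prop}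

omit [Fintype S] [DecidableEq S] in
theorem sph_disj {J K : Finset S} (h : Sep M J K) : Disjoint J K := by
  rw [Finset.disjoint_left]
  intro a ha haK
  have h1 := h a ha a haK
  rw [M.diagonal a] at h1
  omega

omit [Fintype S] in
theorem sph_not_sep {J K : Finset S} (h : (J ∩ K).Nonempty) : ¬ Sep M J K := by
  intro hs
  obtain ⟨a, ha⟩ := h
  rw [mem_inter] at ha
  exact Finset.disjoint_left.1 (sph_disj hs) ha.1 ha.2

omit [DecidableEq Q] in
theorem sph_sep_iff (h : IsBlow M π G) {J K : Finset S} (hJ : G J) (hK : G K) :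
    (Sep M J K ∧ ¬ G (J ∪ K)) ↔ (Disjoint J K ∧ ¬ (G (J ∪ K) ∨ J ∪ K = univ)) := by
  constructor
  · rintro ⟨h1, h2⟩
    refine ⟨sph_disj h1, ?_⟩
    rintro (h3 | h3)
    · exact h2 h3
    · exact sep_ne h.quot (h.bld.ne J hJ) (h.bld.ne K hK) h1 h3
  · rintro ⟨_, h2⟩
    refine ⟨?_, fun h3 => h2 (Or.inl h3)⟩
    by_contra h3
    exact h2 (Or.inl (h.bld.join J K hJ hK h3 fun h4 => h2 (Or.inr h4)))

omit [Fintype Q] [DecidableEq Q] in
theorem isFB (h : IsBlow M π G) : FB (fun J => G J ∨ J = univ) univ := by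
  have hnu : (univ : Finset S).Nonempty := h.quot.irr.1
  constructor
  · rintro J (hJ | rfl)
    · exact h.bld.ne J hJ
    · exact hnu
  · exact fun J _ => subset_univ J
  · intro s _
    by_cases hs : ({s} : Finset S) = univ
    · exact Or.inr hs
    · exact Or.inl (h.bld.con {s} hs (con_single _ s))
  · exact Or.inr rfl
  · rintro J K (hJ | rfl) (hK | rfl) hne
    · by_cases hu : J ∪ K = univ
      · exact Or.inr hu
      · exact Or.inl (h.bld.join J K hJ hK (sph_not_sep hne) hu)
    · exact Or.inr (union_eq_right.2 (subset_univ J))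
    · exact Or.inr (union_eq_left.2 (subset_univ K))
    · exact Or.inr (union_self _)
  · intro J hJ h2
    by_cases hc : Con (diag M) J
    · obtain ⟨s, hs, hcs⟩ := hc.exists_erase h2
      have h3 : J.erase s ≠ univ := fun he => by
        have h4 : s ∈ J.erase s := he ▸ mem_univ s
        exact (mem_erase.1 h4).1 rfl
      have h5 : ({s} : Finset S) ≠ univ := fun he => by
        have h6 : J.card ≤ ({s} : Finset S).card := he ▸ card_le_card (subset_univ J)
        rw [card_singleton] at h6
        omega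
      refine ⟨J.erase s, {s}, Or.inl (h.bld.con _ h3 hcs),
        Or.inl (h.bld.con _ h5 (con_single _ s)), ?_, ?_⟩
      · rw [disjoint_singleton_right]
        exact fun h4 => (mem_erase.1 h4).1 rfl
      · ext a
        rw [mem_union, mem_erase, mem_singleton]
        constructor
        · rintro (h4 | rfl)
          · exact h4.2
          · exact hs
        · intro ha
          by_cases has : a = s
          · exact Or.inr has
          · exact Or.inl ⟨has, ha⟩
    · rcases hJ with hJ | rfl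
      · obtain ⟨J1, J2, h3, h4, h5, h6⟩ := h.bld.flag J hJ hc
        exact ⟨J1, J2, Or.inl h3, Or.inl h4, h5, h6⟩
      · exact absurd h.quot.irr hc

theorem lab_sphereG (h : IsBlow M π G) (x : Q) :
    IsHomologySphere ((labGG M π G).comap (Subtype.val : {L // L ∈ labFG M π G x} → Finset Q))
      (Fintype.card S - 1) := by
  classical
  have hns : IsHomologySphere ((NG (fun J => G J ∨ J = univ)).comap
      (Subtype.val : {p // p ∈ CS (fun J => G J ∨ J = univ) (univ : Finset S)} → Finset S))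
      (Fintype.card S - 1) := by
    have h1 := flag_sphere (diag M) univ h.quot.irr (isFB h) (fun J _ hJ => by
      by_cases hu : J = univ
      · exact Or.inr hu
      · exact Or.inl (h.bld.con J hu hJ))
    rw [Finset.card_univ] at h1
    exact h1
  have hCS : ∀ J : Finset S, J ∈ CS (fun J => G J ∨ J = univ) (univ : Finset S) ↔ G J := by
    intro J
    rw [mem_CS]
    constructor
    · rintro ⟨_, h1, h2⟩
      exact h2.resolve_right h1
    · exact fun h1 => ⟨subset_univ J, h.bld.proper J h1, Or.inl h1⟩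
  have hlab : ∀ J : Finset S, J ∈ CS (fun J => G J ∨ J = univ) (univ : Finset S) →
      IsLabG M π G x (lbl M π x J) J := fun J hJ => ⟨(hCS J).1 hJ, rfl⟩
  let f : {p // p ∈ CS (fun J => G J ∨ J = univ) (univ : Finset S)} → {L // L ∈ labFG M π G x} :=
    fun p => ⟨lbl M π x p.1, mem_labFG.2 ⟨p.1, hlab p.1 p.2⟩⟩
  have hf : Function.Bijective f := by
    constructor
    · rintro ⟨J, hJ⟩ ⟨K, hK⟩ hJK
      have h1 : lbl M π x J = lbl M π x K := congrArg Subtype.val hJK
      have h2 := hlab J hJ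
      rw [h1] at h2
      exact Subtype.ext (isLabG_unique h h2 (hlab K hK))
    · rintro ⟨L, hL⟩
      obtain ⟨J, hJ1, hJ2⟩ := mem_labFG.1 hL
      exact ⟨⟨J, (hCS J).2 hJ1⟩, Subtype.ext hJ2⟩
  have φ : (labGG M π G).comap (Subtype.val : {L // L ∈ labFG M π G x} → Finset Q) ≃g
      (NG (fun J => G J ∨ J = univ)).comap
        (Subtype.val : {p // p ∈ CS (fun J => G J ∨ J = univ) (univ : Finset S)} →
          Finset S) := by
    refine SimpleGraph.Iso.symm ⟨Equiv.ofBijective f hf, ?_⟩
    rintro ⟨J, hJ⟩ ⟨K, hK⟩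
    have h1 := adj_iffG h (hlab J hJ) (hlab K hK)
    have h2 := sph_sep_iff h ((hCS J).1 hJ) ((hCS K).1 hK)
    change (labGG M π G).Adj (lbl M π x J) (lbl M π x K) ↔
      (J ≠ K ∧ (J ⊆ K ∨ K ⊆ J ∨ (Disjoint J K ∧ ¬ (G (J ∪ K) ∨ J ∪ K = univ))))
    rw [h1, h2]
  exact sphere_iso φ hns

end Pool.Agent.H78.RD
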