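import Pool.Agent.H78.RD.Lbl

/-!
# Project RC2: the correction terms

* `tk_symm`: exchange the two members of the pair (`ck` is symmetric, `union_comm`).
* `tk_nonpos`: clear.
* `tk_zero`: `L = L'` or nested: `p.1 ⊆ L`, `¬ p.1 ⊆ L'` (or the same for `p.2`) is impossible. Otherwise `L`, `L'`
  are the labels of orthogonal `J`, `K` at a chamber `x`, `¬ G (J ∪ K)`: `no_pair` (with `IsLabG`: `lbl M π y A = p.1`).
* `tk_neg`: the pair `p = (L, L')` is in the set (`y = x`, `A = J`, `B = K`).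
* `tk_form`: with `X_{U,U'} = ∑_{L ⊇ U, ¬ L ⊇ U'} g L = yk g U - yk g (U ∪ U')`:
  `∑_{u,v} g u g v tk u v = - ∑_p ∑_{u,v} g u g v [p.1 ⊆ u, ¬ p.1 ⊆ v, p.2 ⊆ v, ¬ p.2 ⊆ u]
   = - ∑_p X_{p.1,p.2} X_{p.2,p.1}` (write the cardinality as a sum of indicator functions, exchange sums).
-/

set_option autoImplicit false

open Finset

namespace Pool.Agent.H78.RD

open Pool.Agent.H4.FC Pool.Agent.H78.RC

variable {S : Type} [Fintype S] [DecidableEq S] {Q : Type} [Group Q] [Fintype Q]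
  {M : CoxeterMatrix S} {π : M.Group →* Q} {G : Finset S → Prop}

private theorem tkx_ck_symm (M : CoxeterMatrix S) (π : M.Group →* Q) (G : Finset S → Prop) (k : ℕ)
    (p : Finset Q × Finset Q) (h : ck M π G k p) : ck M π G k p.swap := by
  obtain ⟨y, A, B, h1, h2, h3, h4, h5⟩ := h
  exact ⟨y, B, A, h2, h1, h4, h3, by rwa [union_comm]⟩

open Classical in
private theorem tkx_sum (g : Finset Q → ℝ) (U V : Finset Q) :
    ∑ u, g u * (if U ⊆ u ∧ ¬ V ⊆ u then (1 : ℝ) else 0) = yk g U - yk g (U ∪ V) := by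
  have h1 : yk g U = (∑ u, g u * (if U ⊆ u ∧ ¬ V ⊆ u then (1 : ℝ) else 0)) + yk g (U ∪ V) := by
    unfold yk
    rw [sum_filter, sum_filter, ← sum_add_distrib]
    refine sum_congr rfl fun u _ => ?_
    by_cases hU : U ⊆ u
    · by_cases hV : V ⊆ u
      · rw [if_pos hU, if_neg (fun h => h.2 hV), if_pos (union_subset hU hV)]
        ring
      · rw [if_pos hU, if_pos ⟨hU, hV⟩, if_neg (fun h => hV (subset_union_right.trans h))]
        ring
    · rw [if_neg hU, if_neg (fun h => hU h.1), if_neg (fun h => hU (subset_union_left.trans h))]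
      ring
  rw [h1]
  ring

open Classical in
private theorem tkx_eq (M : CoxeterMatrix S) (π : M.Group →* Q) (G : Finset S → Prop) (k : ℕ)
    (u v : Finset Q) : tk M π G k u v =
      -∑ p ∈ univ.filter fun p : Finset Q × Finset Q => ck M π G k p,
        (if p.1 ⊆ u ∧ ¬ p.2 ⊆ u then (1 : ℝ) else 0) *
          (if p.2 ⊆ v ∧ ¬ p.1 ⊆ v then (1 : ℝ) else 0) := by
  unfold tk
  congr 1
  have h1 : (univ.filter fun p : Finset Q × Finset Q => ck M π G k p ∧ p.1 ⊆ u ∧ ¬ p.1 ⊆ v ∧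
      p.2 ⊆ v ∧ ¬ p.2 ⊆ u) = (univ.filter fun p : Finset Q × Finset Q => ck M π G k p).filter
        fun p => (p.1 ⊆ u ∧ ¬ p.2 ⊆ u) ∧ (p.2 ⊆ v ∧ ¬ p.1 ⊆ v) := by
    ext p
    simp only [mem_filter, mem_univ, true_and]
    tauto
  rw [h1, card_filter]
  push_cast
  refine sum_congr rfl fun p _ => ?_
  by_cases h2 : p.1 ⊆ u ∧ ¬ p.2 ⊆ u
  · by_cases h3 : p.2 ⊆ v ∧ ¬ p.1 ⊆ v
    · rw [if_pos ⟨h2, h3⟩, if_pos h2, if_pos h3]
      ring
    · rw [if_neg (fun h => h3 h.2), if_neg h3, mul_zero]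
  · rw [if_neg (fun h => h2 h.1), if_neg h2, zero_mul]

theorem tk_symm (M : CoxeterMatrix S) (π : M.Group →* Q) (G : Finset S → Prop) (k : ℕ)
    (L L' : Finset Q) : tk M π G k L L' = tk M π G k L' L := by
  classical
  unfold tk
  congr 2
  refine card_bij (fun p _ => p.swap) ?_ ?_ ?_
  · intro p hp
    rw [mem_filter] at hp ⊢
    obtain ⟨-, h1, h2, h3, h4, h5⟩ := hp
    exact ⟨mem_univ _, tkx_ck_symm M π G k p h1, h4, h5, h2, h3⟩
  · intro p _ q _ h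
    exact Prod.swap_injective h
  · intro p hp
    rw [mem_filter] at hp
    obtain ⟨-, h1, h2, h3, h4, h5⟩ := hp
    refine ⟨p.swap, ?_, Prod.swap_swap p⟩
    rw [mem_filter]
    exact ⟨mem_univ _, tkx_ck_symm M π G k p h1, h4, h5, h2, h3⟩

theorem tk_nonpos (M : CoxeterMatrix S) (π : M.Group →* Q) (G : Finset S → Prop) (k : ℕ)
    (L L' : Finset Q) : tk M π G k L L' ≤ 0 := by
  unfold tk
  exact neg_nonpos.2 (Nat.cast_nonneg _)

theorem tk_zero (h : IsBlow M π G) (k : ℕ) {L L' : Finset Q}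
    (hL : L = L' ∨ (labGG M π G).Adj L L') : tk M π G k L L' = 0 := by
  classical
  unfold tk
  rw [neg_eq_zero, Nat.cast_eq_zero, card_eq_zero, filter_eq_empty_iff]
  rintro p - ⟨⟨y, A, B, -, -, h3, h4, h5⟩, h6, h7, h8, h9⟩
  rcases hL with hL | ⟨-, hL | hL | ⟨x, J, K, h10, h11, h12, h13⟩⟩
  · exact h7 (hL ▸ h6)
  · exact h7 (h6.trans hL)
  · exact h9 (h8.trans hL)
  · exact no_pair h h10.1 h11.1 h12 h13 h3.1 h4.1 (by rw [h3.2, h10.2]; exact h6)
      (by rw [h4.2, h11.2]; exact h8) h5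

theorem tk_neg {x : Q} {L L' : Finset Q} {J K : Finset S} {k : ℕ} (hJ : IsLabG M π G x L J)
    (hK : IsLabG M π G x L' K) (hG : G (J ∪ K)) (h1 : J.card ≤ k) (h2 : K.card ≤ k)
    (h3 : ¬ L ⊆ L') (h4 : ¬ L' ⊆ L) : tk M π G k L L' < 0 := by
  classical
  unfold tk
  rw [neg_lt_zero, Nat.cast_pos, card_pos]
  refine ⟨(L, L'), ?_⟩
  rw [mem_filter]
  exact ⟨mem_univ _, ⟨x, J, K, h1, h2, hJ, hK, hG⟩, Subset.refl _, h3, Subset.refl _, h4⟩

open Classical in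
theorem tk_form (M : CoxeterMatrix S) (π : M.Group →* Q) (G : Finset S → Prop) (k : ℕ)
    (g : Finset Q → ℝ) : ∑ u, ∑ v, g u * g v * tk M π G k u v =
      -∑ p ∈ univ.filter fun p : Finset Q × Finset Q => ck M π G k p,
        (yk g p.1 - yk g (p.1 ∪ p.2)) * (yk g p.2 - yk g (p.1 ∪ p.2)) := by
  have h1 : ∀ u v, g u * g v * tk M π G k u v =
      -∑ p ∈ univ.filter fun p : Finset Q × Finset Q => ck M π G k p,
        (g u * (if p.1 ⊆ u ∧ ¬ p.2 ⊆ u then (1 : ℝ) else 0)) *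
          (g v * (if p.2 ⊆ v ∧ ¬ p.1 ⊆ v then (1 : ℝ) else 0)) := by
    intro u v
    rw [tkx_eq, mul_neg, mul_sum]
    congr 1
    refine sum_congr rfl fun p _ => ?_
    ring
  simp only [h1, sum_neg_distrib]
  congr 1
  have h2 : ∀ u, ∑ v, ∑ p ∈ univ.filter fun p : Finset Q × Finset Q => ck M π G k p,
      (g u * (if p.1 ⊆ u ∧ ¬ p.2 ⊆ u then (1 : ℝ) else 0)) *
        (g v * (if p.2 ⊆ v ∧ ¬ p.1 ⊆ v then (1 : ℝ) else 0)) =
      ∑ p ∈ univ.filter fun p : Finset Q × Finset Q => ck M π G k p,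
        (g u * (if p.1 ⊆ u ∧ ¬ p.2 ⊆ u then (1 : ℝ) else 0)) *
        ∑ v, (g v * (if p.2 ⊆ v ∧ ¬ p.1 ⊆ v then (1 : ℝ) else 0)) := by
    intro u
    rw [sum_comm]
    refine sum_congr rfl fun p _ => ?_
    rw [mul_sum]
  simp only [h2]
  rw [sum_comm]
  refine sum_congr rfl fun p _ => ?_
  rw [← sum_mul, tkx_sum, tkx_sum, union_comm p.2 p.1]

end Pool.Agent.H78.RD
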